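import Pool.Agent.DD.Walk

/-!
# DD-Base: the property `HasLoops G 0`

For finite or cofinite `L` there is `r` such that all words of length `≥ r` are equivalent for
`SynEq L`.  Take `ρ = 1`; for `τ = [b, a]` and a finite list `Ls` take `E = (a · f a)^r` with `r`
larger than all these bounds (a closed walk at position `1`: forward along `a`, then back).  `T` is any
walk (`exists_walk`).
-/

namespace Pool.Agent.DD

variable {A : Type}

private theorem exists_bound_one {L : Lang A} (h : L ∈ B A 0) :
    ∃ r : ℕ, ∀ x y : List A, r ≤ x.length → r ≤ y.length → SynEq L x y := by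
  have key : ∀ K : Lang A, K.Finite → ∃ r : ℕ, ∀ z : List A, r ≤ z.length → z ∉ K := by
    intro K hK
    obtain ⟨M, hM⟩ := (hK.image List.length).bddAbove
    refine ⟨M + 1, fun z hz hzK => ?_⟩
    have := hM (Set.mem_image_of_mem List.length hzK)
    omega
  rcases h with h | h
  · obtain ⟨r, hr⟩ := key L h
    refine ⟨r, fun x y hx hy s t => ?_⟩
    have h1 : s ++ x ++ t ∉ L := hr _ (by simp only [List.length_append]; omega)
    have h2 : s ++ y ++ t ∉ L := hr _ (by simp only [List.length_append]; omega)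
    exact ⟨fun h => (h1 h).elim, fun h => (h2 h).elim⟩
  · obtain ⟨r, hr⟩ := key Lᶜ h
    refine ⟨r, fun x y hx hy s t => ?_⟩
    have h1 : s ++ x ++ t ∉ Lᶜ := hr _ (by simp only [List.length_append]; omega)
    have h2 : s ++ y ++ t ∉ Lᶜ := hr _ (by simp only [List.length_append]; omega)
    exact ⟨fun _ => not_not.1 h2, fun _ => not_not.1 h1⟩

private theorem exists_bound (Ls : List (Lang A)) (h : ∀ L ∈ Ls, L ∈ B A 0) :
    ∃ r : ℕ, ∀ L ∈ Ls, ∀ x y : List A, r ≤ x.length → r ≤ y.length → SynEq L x y := by
  induction Ls with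
  | nil => exact ⟨0, by simp⟩
  | cons K Ks ih =>
      obtain ⟨r1, h1⟩ := exists_bound_one (h K (by simp))
      obtain ⟨r2, h2⟩ := ih (fun L hL => h L (by simp [hL]))
      refine ⟨max r1 r2, fun L hL x y hx hy => ?_⟩
      rcases List.mem_cons.1 hL with rfl | hL
      · exact h1 x y (le_trans (le_max_left _ _) hx) (le_trans (le_max_left _ _) hy)
      · exact h2 L hL x y (le_trans (le_max_right _ _) hx) (le_trans (le_max_right _ _) hy)

private theorem length_pw_ge (x : List A) (hx : 1 ≤ x.length) (m : ℕ) : m ≤ (pw x m).length := by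
  induction m with
  | zero => exact Nat.zero_le _
  | succ m ih => rw [pw_succ, List.length_append]; omega

theorem hasLoops_zero (G : Set (List A)) : HasLoops G 0 := by
  refine ⟨1, le_refl 1, fun f Ls hLs τ _ hlen => ?_⟩
  obtain ⟨r, hr⟩ := exists_bound Ls hLs
  have h1 : 1 < τ.length := by omega
  have hb : τ[1]? = some τ[1] := List.getElem?_eq_getElem h1
  have hw : Walk f τ 1 1 ([τ[1]] ++ f τ[1]) := (Walk.one_fwd hb).append (Walk.one_bwd hb)
  have hE := hw.pw r
  have hl : r ≤ (pw ([τ[1]] ++ f τ[1]) r).length :=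
    length_pw_ge _ (by simp) r
  refine ⟨pw ([τ[1]] ++ f τ[1]) r, hE, fun L hL => ?_, fun w _ k k' hk hk' => ?_⟩
  · exact hr L hL _ _ hl (by rw [List.length_append]; omega)
  · have h2 := hk.le
    have h3 := hk'.le
    obtain ⟨T, hT⟩ := exists_walk f (w := w) (i := k + 1) (j := k' + 1) (by omega) (by omega)
    exact ⟨T, hT, fun L hL => hr L hL _ _ hl (by simp only [List.length_append]; omega)⟩

end Pool.Agent.DD
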