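import Pool.Agent.DD.Defs

/-!
# DD-CompA: two automata that agree on short words agree

`agree m d c N = true` iff the two automata `c` and `d` accept the same words of length `≤ N`.

Plan for `langC_eq_iff`.  The states reachable in `c` belong to the finite set
`insert 0 c.1.flatten.toFinset`, which has at most `sizeC c = c.1.flatten.length + 1` elements
(`stepC c q a` is `0` or an entry of the table).  If `langC m c ≠ langC m d`, take a shortest word `w`
on which they differ; if `|w| ≥ sizeC c * sizeC d`, two different prefixes of `w` lead to the same pair
of states (`runC c`, `runC d`), cut out the part between them: a shorter word on which they differ.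
-/

namespace Pool.Agent.DD

/-- All words of length `≤ N`. -/
def wordsUpTo (m : ℕ) : ℕ → List (List (Fin m))
  | 0 => [[]]
  | N + 1 => [] :: (wordsUpTo m N).flatMap fun w => (List.finRange m).map fun a => a :: w

theorem mem_wordsUpTo {m N : ℕ} {w : List (Fin m)} : w ∈ wordsUpTo m N ↔ w.length ≤ N := by
  induction N generalizing w with
  | zero => simp [wordsUpTo]
  | succ N ih =>
      cases w with
      | nil => simp [wordsUpTo]
      | cons a w => simp [wordsUpTo, ih]

/-- Acceptance, as a Boolean. -/
def accC (m : ℕ) (c : Code) (w : List (Fin m)) : Bool := decide (runC c w ∈ c.2)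

/-- The two automata accept the same words of length `≤ N`. -/
def agree (m : ℕ) (d c : Code) (N : ℕ) : Bool :=
  (wordsUpTo m N).all fun w => accC m c w == accC m d w

/-- A bound for the number of reachable states. -/
def sizeC (c : Code) : ℕ := c.1.flatten.length + 1

theorem agree_iff {m : ℕ} {d c : Code} {N : ℕ} :
    agree m d c N = true ↔ ∀ w : List (Fin m), w.length ≤ N → (w ∈ langC m c ↔ w ∈ langC m d) := by
  simp only [agree, List.all_eq_true, mem_wordsUpTo, accC, beq_iff_eq, decide_eq_decide]
  rfl

/-- The finite set of possible states. -/
private def statesA (c : Code) : Finset ℕ := insert 0 c.1.flatten.toFinset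

private theorem statesA_card (c : Code) : (statesA c).card ≤ sizeC c :=
  (Finset.card_insert_le _ _).trans (Nat.succ_le_succ (List.toFinset_card_le _))

private theorem getD_memA (l : List ℕ) (a : ℕ) : l.getD a 0 = 0 ∨ l.getD a 0 ∈ l := by
  rw [List.getD_eq_getElem?_getD]
  rcases h : l[a]? with _ | v
  · left; rfl
  · right
    simpa using List.mem_of_getElem? h

private theorem stepC_memA (c : Code) (q a : ℕ) : stepC c q a ∈ statesA c := by
  unfold stepC statesA
  rcases getD_memA ((c.1.getD q [])) a with h | h
  · rw [h]; simp
  · refine Finset.mem_insert_of_mem ?_
    rw [List.mem_toFinset, List.mem_flatten]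
    refine ⟨_, ?_, h⟩
    rw [List.getD_eq_getElem?_getD]
    rcases h' : c.1[q]? with _ | v
    · rw [List.getD_eq_getElem?_getD, h'] at h
      simp at h
    · simpa using List.mem_of_getElem? h'

private theorem runC_eqA {m : ℕ} (c : Code) (w : List (Fin m)) :
    runC c w = (w.map Fin.val).foldl (fun q a => stepC c q a) 0 := by
  unfold runC
  rw [List.foldl_map]

private theorem runC_memA {m : ℕ} (c : Code) (w : List (Fin m)) : runC c w ∈ statesA c := by
  rw [runC_eqA]
  induction w using List.reverseRecOn with
  | nil => simp [statesA]
  | append_singleton w a _ =>
      rw [List.map_append, List.foldl_append]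
      exact stepC_memA c _ _

private theorem runC_congrA {m : ℕ} (c : Code) {u v : List (Fin m)} (h : runC c u = runC c v)
    (t : List (Fin m)) : runC c (u ++ t) = runC c (v ++ t) := by
  rw [runC_eqA, runC_eqA] at h
  rw [runC_eqA, runC_eqA, List.map_append, List.map_append, List.foldl_append,
    List.foldl_append, h]

/-- Main result of this module. -/
theorem langC_eq_iff (m : ℕ) (d c : Code) :
    langC m c = langC m d ↔ agree m d c (sizeC c * sizeC d) = true := by
  rw [agree_iff]
  constructor
  · intro h w _
    rw [h]
  · intro h
    have key : ∀ n : ℕ, ∀ w : List (Fin m), w.length = n → (w ∈ langC m c ↔ w ∈ langC m d) := by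
      intro n
      induction n using Nat.strong_induction_on with
      | _ n ih =>
        intro w hw
        rcases le_or_gt w.length (sizeC c * sizeC d) with hle | hgt
        · exact h w hle
        · have hcard : (statesA c ×ˢ statesA d).card < (Finset.range (sizeC c * sizeC d + 1)).card := by
            rw [Finset.card_product, Finset.card_range]
            exact Nat.lt_succ_of_le (Nat.mul_le_mul (statesA_card c) (statesA_card d))
          obtain ⟨i, hi, j, hj, hne, hij⟩ := Finset.exists_ne_map_eq_of_card_lt_of_maps_to hcard
            (f := fun i => (runC c (w.take i), runC d (w.take i)))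
            (fun i _ => Finset.mem_product.2 ⟨runC_memA c _, runC_memA d _⟩)
          have main : ∀ i j : ℕ, i < j → j ≤ sizeC c * sizeC d →
              runC c (w.take i) = runC c (w.take j) → runC d (w.take i) = runC d (w.take j) →
              (w ∈ langC m c ↔ w ∈ langC m d) := by
            intro i j hlt hj h1 h2
            have e1 := runC_congrA c h1 (w.drop j)
            have e2 := runC_congrA d h2 (w.drop j)
            rw [List.take_append_drop] at e1 e2
            have hlen : (w.take i ++ w.drop j).length < n := by
              rw [List.length_append, List.length_take, List.length_drop]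
              omega
            have := ih _ hlen (w.take i ++ w.drop j) rfl
            change (runC c _ ∈ c.2 ↔ runC d _ ∈ d.2) at this
            change (runC c _ ∈ c.2 ↔ runC d _ ∈ d.2)
            rw [← e1, ← e2]
            exact this
          have hij1 : runC c (w.take i) = runC c (w.take j) := congrArg Prod.fst hij
          have hij2 : runC d (w.take i) = runC d (w.take j) := congrArg Prod.snd hij
          rcases lt_or_gt_of_ne hne with hlt | hlt
          · exact main i j hlt (Nat.le_of_lt_succ (Finset.mem_range.1 hj)) hij1 hij2
          · exact main j i hlt (Nat.le_of_lt_succ (Finset.mem_range.1 hi)) hij1.symm hij2.symm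
    ext w
    exact key _ w rfl

end Pool.Agent.DD
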