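import Pool.Agent.DD.CompA

/-!
# DD-CompB: the comparison with a fixed automaton is computable

Plan.  Everything is primitive recursive (`Primrec`): `stepC` (`Primrec.list_getD` or
`Primrec.list_getElem?` with `Option.getD`), `runC` (`Primrec.list_foldl`), membership in a list of
natural numbers (e.g. through `List.idxOf`/`foldl` with `or`), `wordsUpTo m` (`Primrec.nat_rec`,
`Primrec.list_flatMap`, `Primrec.list_map`), `List.all` (as a `foldl` with `and`), `sizeC`
(`Primrec.list_flatten`, `Primrec.list_length`, or `foldl`).
`comp_finite`: for a finite set `F` of languages that all have codes, `langC m c ∈ F` iff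
`langC m c = langC m d` for one of finitely many fixed `d`; use `langC_eq_iff` and closure of
decidable predicates under finite disjunctions (induction on the finite set, `Set.Finite.induction_on`
or a list of codes).
-/

namespace Pool.Agent.DD

private theorem pr_step : Primrec fun p : Code × (ℕ × ℕ) => stepC p.1 p.2.1 p.2.2 :=
  (Primrec.list_getD 0).comp
    ((Primrec.list_getD []).comp (Primrec.fst.comp Primrec.fst) (Primrec.fst.comp Primrec.snd))
    (Primrec.snd.comp Primrec.snd)

private theorem runC_eq_fold (c : Code) {m : ℕ} (w : List (Fin m)) :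
    runC c w = w.foldl (fun (q : ℕ) (a : Fin m) => stepC c q (a : ℕ)) 0 := by
  rfl

private theorem pr_run (m : ℕ) : Primrec₂ fun (c : Code) (w : List (Fin m)) => runC c w := by
  have h : Primrec fun p : Code × List (Fin m) =>
      p.2.foldl (fun (q : ℕ) (a : Fin m) => stepC p.1 q (a : ℕ)) 0 := by
    have hh : Primrec₂ fun (p : Code × List (Fin m)) (s : ℕ × Fin m) =>
        stepC p.1 s.1 (s.2 : ℕ) :=
      pr_step.comp ((Primrec.fst.comp Primrec.fst).pair
        ((Primrec.fst.comp Primrec.snd).pair (Primrec.fin_val.comp (Primrec.snd.comp Primrec.snd))))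
    exact Primrec.list_foldl Primrec.snd (Primrec.const 0) hh
  exact Primrec.of_eq h fun p => (runC_eq_fold p.1 p.2).symm

private theorem pr_mem : Primrec₂ fun (q : ℕ) (l : List ℕ) => decide (q ∈ l) := by
  have h : Primrec₂ fun (q : ℕ) (l : List ℕ) => decide (l.idxOf q < l.length) := by
    have h1 : PrimrecRel fun (q : ℕ) (l : List ℕ) => l.idxOf q < l.length :=
      Primrec.nat_lt.comp₂ (Primrec.list_idxOf.comp₂ Primrec₂.left Primrec₂.right)
        (Primrec.list_length.comp₂ Primrec₂.right)
    exact h1.decide
  refine h.of_eq fun q l => ?_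
  rw [decide_eq_decide]
  exact List.idxOf_lt_length_iff

private theorem pr_acc (m : ℕ) : Primrec₂ fun (c : Code) (w : List (Fin m)) => accC m c w :=
  pr_mem.comp₂ (pr_run m) (Primrec.snd.comp₂ Primrec₂.left)

private theorem pr_words (m : ℕ) : Primrec (wordsUpTo m) := by
  have hf : Primrec₂ fun (_ : ℕ) (l : List (List (Fin m))) =>
      [] :: l.flatMap fun w => (List.finRange m).map fun a => a :: w := by
    have h1 : Primrec fun w : List (Fin m) => (List.finRange m).map fun a => a :: w :=
      Primrec.list_map (Primrec.const _) (Primrec.list_cons.comp₂ Primrec₂.right Primrec₂.left)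
    have h2 : Primrec fun l : List (List (Fin m)) =>
        l.flatMap fun w => (List.finRange m).map fun a => a :: w :=
      Primrec.list_flatMap Primrec.id (h1.comp₂ Primrec₂.right)
    exact Primrec.list_cons.comp₂ (Primrec₂.const []) (h2.comp₂ Primrec₂.right)
  refine (Primrec.nat_rec₁ [[]] hf).of_eq fun n => ?_
  induction n with
  | zero => rfl
  | succ n ih =>
    change [] :: (List.flatMap _ (Nat.rec _ _ n)) = _
    rw [ih]
    rfl

private theorem all_eq {β : Type} (l : List β) (p : β → Bool) :
    l.all p = l.foldr (fun a b => p a && b) true := by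
  induction l with
  | nil => rfl
  | cons a l ih => rw [List.all_cons, List.foldr_cons, ih]

private theorem pr_agree2 (m : ℕ) (d : Code) :
    Primrec₂ fun (c : Code) (N : ℕ) => agree m d c N := by
  have hh : Primrec₂ fun (p : Code × ℕ) (s : List (Fin m) × Bool) =>
      ((accC m p.1 s.1 == accC m d s.1) && s.2) := by
    have h1 : Primrec fun q : (Code × ℕ) × (List (Fin m) × Bool) => accC m q.1.1 q.2.1 :=
      (pr_acc m).comp (Primrec.fst.comp Primrec.fst) (Primrec.fst.comp Primrec.snd)
    have h2 : Primrec fun q : (Code × ℕ) × (List (Fin m) × Bool) => accC m d q.2.1 :=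
      (pr_acc m).comp (Primrec.const d) (Primrec.fst.comp Primrec.snd)
    exact Primrec.and.comp (Primrec.beq.comp h1 h2) (Primrec.snd.comp Primrec.snd)
  have h : Primrec fun p : Code × ℕ => (wordsUpTo m p.2).foldr
      (fun w b => ((accC m p.1 w == accC m d w) && b)) true :=
    Primrec.list_foldr ((pr_words m).comp Primrec.snd) (Primrec.const true) hh
  refine (Primrec₂.of_eq (f := fun (c : Code) (N : ℕ) => (wordsUpTo m N).foldr
      (fun w b => ((accC m c w == accC m d w) && b)) true) h fun c N => ?_)
  rw [agree, all_eq]

private theorem pr_size : Primrec sizeC :=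
  Primrec.succ.comp (Primrec.list_length.comp (Primrec.list_flatten.comp Primrec.fst))

theorem primrec_agree (m : ℕ) (d : Code) :
    Primrec fun c : Code => agree m d c (sizeC c * sizeC d) :=
  (pr_agree2 m d).comp Primrec.id (Primrec.nat_mul.comp pr_size (Primrec.const _))

private theorem cp_or {p q : Code → Prop} (hp : ComputablePred p) (hq : ComputablePred q) :
    ComputablePred fun c => p c ∨ q c := by
  obtain ⟨f, hf, rfl⟩ := ComputablePred.computable_iff.1 hp
  obtain ⟨g, hg, rfl⟩ := ComputablePred.computable_iff.1 hq
  refine ComputablePred.computable_iff.2 ⟨fun c => f c || g c,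
    (Primrec.or.to_comp).comp hf hg, ?_⟩
  funext c
  simp

/-- Main result of this module. -/
theorem comp_finite (m : ℕ) (F : Set (Lang (Fin m))) (hF : F.Finite)
    (hcode : ∀ L ∈ F, ∃ d : Code, langC m d = L) :
    ComputablePred fun c : Code => langC m c ∈ F := by
  induction F, hF using Set.Finite.induction_on with
  | empty =>
    refine ComputablePred.computable_iff.2 ⟨fun _ => false, Computable.const false, ?_⟩
    funext c
    simp
  | @insert L F _ _ ih =>
    have h1 := ih fun K hK => hcode K (Set.mem_insert_of_mem _ hK)
    obtain ⟨d, hd⟩ := hcode L (Set.mem_insert _ _)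
    have h2 : ComputablePred fun c : Code => langC m c = L := by
      refine ComputablePred.computable_iff.2
        ⟨fun c => agree m d c (sizeC c * sizeC d), (primrec_agree m d).to_comp, ?_⟩
      funext c
      rw [← hd]
      exact propext (langC_eq_iff m d c)
    refine (cp_or h2 h1).of_eq fun c => ?_
    rw [Set.mem_insert_iff]

end Pool.Agent.DD
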