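import Pool.Agent.DD.Defs

/-!
# DD-CompC: a language recognized by a finite monoid has a code

Plan.  Let `φ : List (Fin m) → N` be as in `Rec L`, `e : N ≃ Fin K` an enumeration of the finite monoid
`N` with `e 1 = 0` (compose with `Equiv.swap`; `K ≥ 1`).  Table: `c.1 = List.ofFn (fun q : Fin K =>
List.ofFn (fun a : Fin m => (e (e.symm q * φ [a])).val))`, `c.2` = the list of the values `e n` with
`n = φ x` for some `x ∈ L` (a finite set of naturals, `Finset.toList`).  Then
`runC c w = e (φ w)` by induction on `w` (from the right, `List.reverseRecOn`, or generalizing the start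
state), and `w ∈ L ↔ e (φ w) ∈ c.2`.
-/

namespace Pool.Agent.DD

theorem exists_code {m : ℕ} {L : Lang (Fin m)} (h : Rec L) : ∃ c : Code, langC m c = L := by
  classical
  obtain ⟨N, hN, hfin, φ, h1, hmul, -, hrec⟩ := h
  obtain ⟨K, ⟨e0⟩⟩ := Finite.exists_equiv_fin N
  have hK : 0 < K := lt_of_le_of_lt (Nat.zero_le _) (e0 1).2
  -- an enumeration with `e 1 = 0`
  let e : N ≃ Fin K := e0.trans (Equiv.swap (e0 1) ⟨0, hK⟩)
  have he1 : (e 1).val = 0 := by
    simp [e]
  -- the values of the accepting states
  let S : Set ℕ := {q | ∃ x ∈ L, q = (e (φ x)).val}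
  have hSfin : S.Finite := by
    refine (Set.finite_Iio K).subset ?_
    rintro q ⟨x, -, rfl⟩
    exact (e (φ x)).2
  let c : Code := (List.ofFn (fun q : Fin K =>
    List.ofFn (fun a : Fin m => (e (e.symm q * φ [a])).val)), hSfin.toFinset.toList)
  refine ⟨c, ?_⟩
  have hstep : ∀ (n : N) (a : Fin m), stepC c (e n).val a = (e (n * φ [a])).val := by
    intro n a
    have hrow : c.1.getD (e n).val [] =
        List.ofFn (fun a : Fin m => (e (e.symm (e n) * φ [a])).val) := by
      simp only [c]
      rw [List.getD_eq_getElem _ _ (by simp)]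
      simp
    rw [stepC, hrow, List.getD_eq_getElem _ _ (by simp)]
    simp
  have hrun : ∀ (w : List (Fin m)) (n : N),
      (w.map Fin.val).foldl (stepC c) (e n).val = (e (n * φ w)).val := by
    intro w
    induction w with
    | nil => intro n; simp [h1]
    | cons a w ih =>
        intro n
        rw [List.map_cons, List.foldl_cons, hstep, ih]
        have : φ (a :: w) = φ [a] * φ w := by
          rw [← hmul]; rfl
        rw [this, mul_assoc]
  have hrun' : ∀ w : List (Fin m), runC c w = (e (φ w)).val := by
    intro w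
    have := hrun w 1
    rw [he1, one_mul] at this
    rw [← this, runC, List.foldl_map]
  ext w
  constructor
  · intro hw
    have hw' : runC c w ∈ hSfin.toFinset.toList := hw
    rw [Finset.mem_toList, Set.Finite.mem_toFinset, hrun'] at hw'
    obtain ⟨x, hx, hxe⟩ := hw'
    have : φ w = φ x := e.injective (Fin.ext hxe)
    exact (hrec w x this).2 hx
  · intro hw
    change runC c w ∈ hSfin.toFinset.toList
    rw [Finset.mem_toList, Set.Finite.mem_toFinset, hrun']
    exact ⟨w, hw, rfl⟩

end Pool.Agent.DD
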