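import Mathlib

/-!
# Project DD (MP_21f263_lc): dot-depth of languages with reversible syntactic monoid

Definitions.  Paper proof: /team-store/dd_proof.md
-/

namespace Pool.Agent.DD

/-- A language over `A`. -/
abbrev Lang (A : Type) := Set (List A)

variable {A : Type}

/-- Concatenation of two languages. -/
def cat (K L : Lang A) : Lang A := {w | ∃ x ∈ K, ∃ y ∈ L, w = x ++ y}

/-- Concatenation of a nonempty list of languages. -/
def catList : Lang A → List (Lang A) → Lang A
  | L, [] => L
  | L, K :: Ks => cat L (catList K Ks)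

/-- The monoid closure `MC` of a family of languages. -/
def MonCl (C : Set (Lang A)) : Set (Lang A) :=
  {L | L = {[]} ∨ ∃ L₀ ∈ C, ∃ Ls : List (Lang A), (∀ K ∈ Ls, K ∈ C) ∧ L = catList L₀ Ls}

/-- The Boolean closure `BC` of a family of languages. -/
inductive BoolCl (C : Set (Lang A)) : Lang A → Prop
  | base {L : Lang A} : L ∈ C → BoolCl C L
  | compl {L : Lang A} : BoolCl C L → BoolCl C Lᶜ
  | union {K L : Lang A} : BoolCl C K → BoolCl C L → BoolCl C (K ∪ L)
  | inter {K L : Lang A} : BoolCl C K → BoolCl C L → BoolCl C (K ∩ L)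

/-- The dot-depth hierarchy. -/
def B (A : Type) : ℕ → Set (Lang A)
  | 0 => {L | L.Finite ∨ Lᶜ.Finite}
  | i + 1 => {L | BoolCl (MonCl (B A i)) L}

/-- Syntactic equivalence of two words with respect to `L`. -/
def SynEq (L : Lang A) (x y : List A) : Prop := ∀ s t, s ++ x ++ t ∈ L ↔ s ++ y ++ t ∈ L

/-- The bar of a word: the reversed word, with each letter `a` replaced by the word `f a`. -/
def bar (f : A → List A) : List A → List A
  | [] => []
  | a :: w => bar f w ++ f a

/-- `f` is a reversing map for `L`: in the syntactic monoid of `L` the elements `z` and `bar z`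
are inverses of each other (in the sense of von Neumann), for every word `z`. -/
def RevWith (f : A → List A) (L : Lang A) : Prop :=
  ∀ z, SynEq L (z ++ bar f z ++ z) z ∧ SynEq L (bar f z ++ z ++ bar f z) (bar f z)

/-- Reversible languages. -/
def Rev (L : Lang A) : Prop := ∃ f, RevWith f L

/-- The syntactic monoid of `L` is regular and its idempotents are closed under product. -/
def Orthodox (L : Lang A) : Prop :=
  (∀ x, ∃ y, SynEq L (x ++ y ++ x) x) ∧
  ∀ e g, SynEq L (e ++ e) e → SynEq L (g ++ g) g → SynEq L ((e ++ g) ++ (e ++ g)) (e ++ g)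

/-- The syntactic monoid of `L` is an inverse monoid: regular, and idempotents commute. -/
def InvSyn (L : Lang A) : Prop :=
  (∀ x, ∃ y, SynEq L (x ++ y ++ x) x) ∧
  ∀ e g, SynEq L (e ++ e) e → SynEq L (g ++ g) g → SynEq L (e ++ g) (g ++ e)

/-- Walks on a word `w`.  `Walk f w i j u`: `u` is the label of a walk from position `i` to
position `j` (positions are `0, ..., |w|`); a step forward from `p` to `p+1` reads the letter
`w[p]`, a step backward from `p+1` to `p` reads the word `f w[p]`. -/
inductive Walk (f : A → List A) (w : List A) : ℕ → ℕ → List A → Prop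
  | nil (i : ℕ) : i ≤ w.length → Walk f w i i []
  | fwd {i j : ℕ} {u : List A} (a : A) : w[i]? = some a → Walk f w (i + 1) j u →
      Walk f w i j (a :: u)
  | bwd {i j : ℕ} {u : List A} (a : A) : w[i]? = some a → Walk f w i j u →
      Walk f w (i + 1) j (f a ++ u)

/-- `x` occurs in `w` at position `k`. -/
def Occ (w : List A) (k : ℕ) (x : List A) : Prop := ∃ α β, w = α ++ x ++ β ∧ α.length = k

/-- Powers of a word. -/
def pw (x : List A) (m : ℕ) : List A := (List.replicate m x).flatten

/-- One-sided comparison with respect to a list of languages. -/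
def Below (Ps : List (Lang A)) (x y : List A) : Prop :=
  ∀ P ∈ Ps, ∀ s t, s ++ x ++ t ∈ P → s ++ y ++ t ∈ P

/-- Uniformly recurrent sets of words. -/
structure URec (G : Set (List A)) : Prop where
  factor : ∀ w ∈ G, ∀ u, u <:+: w → u ∈ G
  long : ∀ n, ∃ w ∈ G, n ≤ w.length
  recur : ∀ n, ∃ R, ∀ w ∈ G, R ≤ w.length → ∀ u ∈ G, u.length ≤ n → u <:+: w

/-- `L` is recognized by a finite aperiodic monoid. -/
def Rec (L : Lang A) : Prop :=
  ∃ (N : Type) (_ : Monoid N) (_ : Finite N) (φ : List A → N),
    φ [] = 1 ∧ (∀ x y, φ (x ++ y) = φ x * φ y) ∧ (∃ k : ℕ, ∀ n : N, n ^ (k + 1) = n ^ k) ∧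
    ∀ x y, φ x = φ y → (x ∈ L ↔ y ∈ L)

/-- The key property `S(n)` of a uniformly recurrent set `G` (see the paper proof). -/
def HasLoops (G : Set (List A)) (n : ℕ) : Prop :=
  ∃ ρ : ℕ, 1 ≤ ρ ∧ ∀ f : A → List A, ∀ Ls : List (Lang A), (∀ L ∈ Ls, L ∈ B A n) →
    ∀ τ ∈ G, τ.length = 2 * ρ →
      ∃ E, Walk f τ ρ ρ E ∧ (∀ L ∈ Ls, SynEq L E (E ++ E)) ∧
        ∀ w ∈ G, ∀ k k', Occ w k τ → Occ w k' τ →
          ∃ T, Walk f w (k + ρ) (k' + ρ) T ∧ ∀ L ∈ Ls, SynEq L E (E ++ T ++ E)

/-- Geodesic words: not syntactically equivalent to a shorter word. -/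
def Geod (L : Lang A) (w : List A) : Prop := ∀ y, SynEq L w y → w.length ≤ y.length

/-! ### Codes of finite automata -/

/-- A code of a finite automaton: the transition table (the `q`-th list gives the successors of
state `q`, entries not in the table are `0`) and the list of accepting states.  The states are
natural numbers, the initial state is `0`. -/
abbrev Code := List (List ℕ) × List ℕ

/-- One step of the automaton. -/
def stepC (c : Code) (q a : ℕ) : ℕ := (c.1.getD q []).getD a 0

/-- The state reached on a word. -/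
def runC (c : Code) {m : ℕ} (w : List (Fin m)) : ℕ :=
  w.foldl (fun (q : ℕ) (a : Fin m) => stepC c q a.val) 0

/-- The language of the automaton. -/
def langC (m : ℕ) (c : Code) : Lang (Fin m) := {w | runC c w ∈ c.2}

/-! ### First facts -/

theorem SynEq.refl (L : Lang A) (x : List A) : SynEq L x x := fun _ _ => Iff.rfl

theorem SynEq.symm {L : Lang A} {x y : List A} (h : SynEq L x y) : SynEq L y x :=
  fun s t => (h s t).symm

theorem SynEq.trans {L : Lang A} {x y z : List A} (h : SynEq L x y) (h' : SynEq L y z) :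
    SynEq L x z := fun s t => (h s t).trans (h' s t)

theorem SynEq.left {L : Lang A} {x y : List A} (h : SynEq L x y) (z : List A) :
    SynEq L (z ++ x) (z ++ y) := fun s t => by
  have := h (s ++ z) t
  simpa [List.append_assoc] using this

theorem SynEq.right {L : Lang A} {x y : List A} (h : SynEq L x y) (z : List A) :
    SynEq L (x ++ z) (y ++ z) := fun s t => by
  have := h s (z ++ t)
  simpa [List.append_assoc] using this

theorem SynEq.app {L : Lang A} {x y x' y' : List A} (h : SynEq L x y) (h' : SynEq L x' y') :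
    SynEq L (x ++ x') (y ++ y') := (h.right x').trans (h'.left y)

theorem SynEq.compl {L : Lang A} {x y : List A} (h : SynEq L x y) : SynEq Lᶜ x y :=
  fun s t => not_congr (h s t)

theorem SynEq.union {K L : Lang A} {x y : List A} (h : SynEq K x y) (h' : SynEq L x y) :
    SynEq (K ∪ L) x y := fun s t => or_congr (h s t) (h' s t)

theorem SynEq.inter {K L : Lang A} {x y : List A} (h : SynEq K x y) (h' : SynEq L x y) :
    SynEq (K ∩ L) x y := fun s t => and_congr (h s t) (h' s t)

theorem SynEq.mem {L : Lang A} {x y : List A} (h : SynEq L x y) : x ∈ L ↔ y ∈ L := by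
  simpa using h [] []

/-- A Boolean combination is controlled by finitely many members of the family. -/
theorem BoolCl.exists_list {C : Set (Lang A)} {L : Lang A} (h : BoolCl C L) :
    ∃ Ps : List (Lang A), (∀ P ∈ Ps, P ∈ C) ∧
      ∀ x y, (∀ P ∈ Ps, SynEq P x y) → SynEq L x y := by
  induction h with
  | base h => exact ⟨[_], by simpa using h, fun x y hxy => hxy _ (by simp)⟩
  | compl _ ih =>
      obtain ⟨Ps, h1, h2⟩ := ih
      exact ⟨Ps, h1, fun x y hxy => (h2 x y hxy).compl⟩
  | union _ _ ih ih' =>
      obtain ⟨Ps, h1, h2⟩ := ih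
      obtain ⟨Qs, h3, h4⟩ := ih'
      refine ⟨Ps ++ Qs, ?_, fun x y hxy => ?_⟩
      · intro P hP
        rcases List.mem_append.1 hP with hP | hP
        · exact h1 P hP
        · exact h3 P hP
      · exact (h2 x y fun P hP => hxy P (by simp [hP])).union
          (h4 x y fun P hP => hxy P (by simp [hP]))
  | inter _ _ ih ih' =>
      obtain ⟨Ps, h1, h2⟩ := ih
      obtain ⟨Qs, h3, h4⟩ := ih'
      refine ⟨Ps ++ Qs, ?_, fun x y hxy => ?_⟩
      · intro P hP
        rcases List.mem_append.1 hP with hP | hP
        · exact h1 P hP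
        · exact h3 P hP
      · exact (h2 x y fun P hP => hxy P (by simp [hP])).inter
          (h4 x y fun P hP => hxy P (by simp [hP]))

theorem B_compl {i : ℕ} {L : Lang A} (h : L ∈ B A i) : Lᶜ ∈ B A i := by
  cases i with
  | zero =>
      rcases h with h | h
      · exact Or.inr (by simpa using h)
      · exact Or.inl h
  | succ i => exact BoolCl.compl h

theorem B_succ {i : ℕ} {L : Lang A} (h : L ∈ B A i) : L ∈ B A (i + 1) :=
  BoolCl.base (Or.inr ⟨L, h, [], by simp, rfl⟩)

theorem B_mono {i j : ℕ} (hij : i ≤ j) {L : Lang A} (h : L ∈ B A i) : L ∈ B A j := by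
  induction hij with
  | refl => exact h
  | step _ ih => exact B_succ ih

theorem eps_mem_B (i : ℕ) : ({[]} : Lang A) ∈ B A i :=
  B_mono (Nat.zero_le i) (Or.inl (Set.finite_singleton _))

/-- Every member of the monoid closure of `B i` is a product of members of `B i`. -/
theorem MonCl_B {i : ℕ} {P : Lang A} (h : P ∈ MonCl (B A i)) :
    ∃ L₀ ∈ B A i, ∃ Ls : List (Lang A), (∀ K ∈ Ls, K ∈ B A i) ∧ P = catList L₀ Ls := by
  rcases h with h | h
  · exact ⟨{[]}, eps_mem_B i, [], by simp, h⟩
  · exact h

theorem MonCl_sub_B {i : ℕ} {P : Lang A} (h : P ∈ MonCl (B A i)) : P ∈ B A (i + 1) :=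
  BoolCl.base h

theorem pw_zero (x : List A) : pw x 0 = [] := rfl

theorem pw_succ (x : List A) (m : ℕ) : pw x (m + 1) = x ++ pw x m := by
  simp [pw, List.replicate_succ]

theorem pw_add (x : List A) (m n : ℕ) : pw x (m + n) = pw x m ++ pw x n := by
  induction m with
  | zero => simp [pw]
  | succ m ih => rw [Nat.succ_add, pw_succ, ih, pw_succ, List.append_assoc]

theorem pw_succ' (x : List A) (m : ℕ) : pw x (m + 1) = pw x m ++ x := by
  rw [pw_add]; simp [pw]

/-- If `E` is idempotent for `L`, then `E` is equivalent to all its positive powers. -/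
theorem SynEq.pw {L : Lang A} {E : List A} (h : SynEq L E (E ++ E)) {m : ℕ} (hm : 1 ≤ m) :
    SynEq L E (DD.pw E m) := by
  induction m with
  | zero => omega
  | succ m ih =>
      rcases Nat.eq_zero_or_pos m with h0 | h0
      · subst h0; simpa [DD.pw] using SynEq.refl L E
      · rw [pw_succ]
        exact h.trans ((ih h0).left E)

theorem Below.refl (Ps : List (Lang A)) (x : List A) : Below Ps x x := fun _ _ _ _ h => h

theorem Below.trans {Ps : List (Lang A)} {x y z : List A} (h : Below Ps x y)
    (h' : Below Ps y z) : Below Ps x z := fun P hP s t hx => h' P hP s t (h P hP s t hx)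

theorem Below.app {Ps : List (Lang A)} {x y x' y' : List A} (h : Below Ps x y)
    (h' : Below Ps x' y') : Below Ps (x ++ x') (y ++ y') := fun P hP s t hx => by
  have h1 : s ++ x ++ (x' ++ t) ∈ P := by simpa [List.append_assoc] using hx
  have h2 := h P hP s (x' ++ t) h1
  have h3 : (s ++ y) ++ x' ++ t ∈ P := by simpa [List.append_assoc] using h2
  have h4 := h' P hP (s ++ y) t h3
  simpa [List.append_assoc] using h4

end Pool.Agent.DD
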