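import Pool.Agent.DD.Defs

/-!
# DD-DyckA: the languages of the bounded Dyck words: runs

Letters `0` (up) and `1` (down) of `Fin m`; every other letter kills the run.  `hrun n h w` is the
height reached from height `h` when all the heights stay in `[0, n]` (`none` otherwise).
`Dn m n`: from `0` to `0`; `Un m n`: from `0` to `n`; `Vn m n`: from `n` to `0`.

The recursion (for `n + 1`), where `up = 0`, `dn = 1` are the two letters:
* `Bad (n+1)` = words with a factor `up · Un n · up` or `dn · Vn n · dn` or a letter `≥ 2`;
* `Un (n+1) = (Un n · up · A*) ∩ (A* · up · Un n) \ Bad (n+1)`;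
* `Vn (n+1) = (Vn n · dn · A*) ∩ (A* · dn · Vn n) \ Bad (n+1)`;
* `Dn (n+1) = Dn n ∪ ((Un n · up · A*) ∩ (A* · dn · Vn n) \ Bad (n+1))`.

Plan for the inclusions.
(1) a word with a run in `[0, n+1]` (from any height) is not in `Bad (n+1)`: the factors in `Bad` change
the height by `n + 2` (or kill the run).
(2) a run from `0` to `n+1` in `[0,n+1]`: cut at the first visit of `n+1`: prefix in `Un n · up`;
cut after the last visit of `0`: suffix in `up · Un n` (heights shifted by one:
`hrun (n+1) (h+1) w` staying in `[1, n+1]` is `hrun n h w` shifted).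
(3) conversely let `w` be not in `Bad (n+1)` with a prefix `x` in `Un n · up` (a run from `0` to
`n+1`).  Then the run of `w` from `0` never dies: look at the first death; at that moment the height
is `n+1` and the letter is `up`: take the last visit of `0` before (the run starts at `0`): the factor
from there on is `up · Un n · up`, in `Bad`; or the height is `0` and the letter `dn`: take the last
visit of `n+1` (there is one, the prefix `x` does not die): the factor is `dn · Vn n · dn`.  The end
point is determined by the suffix: a suffix `y` in `up · Un n` (resp. `dn · Vn n`) changes the height by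
`+(n+1)` (resp. `-(n+1)`), so the run ends in `n+1` (resp. `0`).
The case `Vn` is symmetric (exchange the two letters and `h ↔ n - h`).
(Feel free to add lemmas; `first visit` and `last visit` decompositions are the main tools.)
-/

namespace Pool.Agent.DD

/-- One step of the height in `[0, n]`: letter `0` is up, letter `1` is down. -/
def hstep {m : ℕ} (n : ℕ) : Option ℕ → Fin m → Option ℕ
  | none, _ => none
  | some h, a =>
      if a.val = 0 then (if h < n then some (h + 1) else none)
      else if a.val = 1 then (if 0 < h then some (h - 1) else none)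
      else none

/-- The run in `[0, n]` from height `h`. -/
def hrun {m : ℕ} (n h : ℕ) (w : List (Fin m)) : Option ℕ := w.foldl (hstep n) (some h)

def Dn (m n : ℕ) : Lang (Fin m) := {w | hrun n 0 w = some 0}
def Un (m n : ℕ) : Lang (Fin m) := {w | hrun n 0 w = some n}
def Vn (m n : ℕ) : Lang (Fin m) := {w | hrun n n w = some 0}

/-- Words with a letter `≥ 2`, or a factor in `up · Un n · up` or `dn · Vn n · dn`. -/
def Bad (m n : ℕ) (up dn : Fin m) : Lang (Fin m) :=
  {w | (∃ a ∈ w, 2 ≤ a.val) ∨ (∃ s x t, x ∈ Un m n ∧ w = s ++ (up :: x ++ [up]) ++ t) ∨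
    ∃ s x t, x ∈ Vn m n ∧ w = s ++ (dn :: x ++ [dn]) ++ t}

/-! ### Heights -/

/-- weight of a word -/
private def S {m : ℕ} (g : Fin m → ℤ) (w : List (Fin m)) : ℤ := (w.map g).sum

private theorem S_nil {m : ℕ} (g : Fin m → ℤ) : S g [] = 0 := rfl

private theorem S_cons {m : ℕ} (g : Fin m → ℤ) (a : Fin m) (w : List (Fin m)) :
    S g (a :: w) = g a + S g w := by simp [S]

private theorem S_append {m : ℕ} (g : Fin m → ℤ) (p q : List (Fin m)) :
    S g (p ++ q) = S g p + S g q := by simp [S]

private theorem S_neg {m : ℕ} (g : Fin m → ℤ) (w : List (Fin m)) :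
    S (fun a => -g a) w = -S g w := by
  induction w with
  | nil => simp [S]
  | cons a w ih => rw [S_cons, S_cons, ih]; ring

/-- the height of a letter -/
private def gh {m : ℕ} (a : Fin m) : ℤ := if a.val = 0 then 1 else -1

private theorem hrun_none {m : ℕ} (n : ℕ) (w : List (Fin m)) :
    w.foldl (hstep n) none = none := by
  induction w with
  | nil => rfl
  | cons a w ih => simpa [hstep] using ih

private theorem hrun_iff {m : ℕ} (n : ℕ) (w : List (Fin m)) : ∀ (h k : ℕ), h ≤ n →
    (hrun n h w = some k ↔ (∀ a ∈ w, a.val < 2) ∧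
      (∀ p q, w = p ++ q → 0 ≤ (h : ℤ) + S gh p ∧ (h : ℤ) + S gh p ≤ n) ∧
      (k : ℤ) = h + S gh w) := by
  induction w with
  | nil =>
      intro h k hn
      constructor
      · intro e
        have e1 : h = k := by simpa [hrun] using e
        subst e1
        refine ⟨by simp, ?_, by simp [S_nil]⟩
        intro p q hpq
        have hp0 : p = [] := (List.append_eq_nil_iff.1 hpq.symm).1
        subst hp0
        rw [S_nil]
        constructor <;> omega
      · rintro ⟨-, -, e⟩
        rw [S_nil] at e
        have e1 : k = h := by omega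
        subst e1
        rfl
  | cons a w ih =>
      intro h k hn
      have hpre : (∀ p q, a :: w = p ++ q → 0 ≤ (h : ℤ) + S gh p ∧ (h : ℤ) + S gh p ≤ n) ↔
          ∀ p q, w = p ++ q → 0 ≤ (h : ℤ) + (gh a + S gh p) ∧ (h : ℤ) + (gh a + S gh p) ≤ n := by
        constructor
        · intro H p q hpq
          have := H (a :: p) q (by rw [hpq]; rfl)
          rwa [S_cons] at this
        · intro H p q hpq
          cases p with
          | nil => rw [S_nil]; constructor <;> omega
          | cons b p =>
              rw [List.cons_append] at hpq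
              injection hpq with h1 h2
              subst h1
              rw [S_cons]
              exact H p q h2
      rw [hpre, S_cons]
      have hrun1 : hrun n h (a :: w) = w.foldl (hstep n) (hstep n (some h) a) := rfl
      rw [hrun1]
      by_cases h0 : a.val = 0
      · have hg : gh a = 1 := by simp [gh, h0]
        rw [hg]
        by_cases h1 : h < n
        · have e : hstep n (some h) a = some (h + 1) := by simp [hstep, h0, h1]
          rw [e]
          have := ih (h + 1) k (by omega)
          rw [show w.foldl (hstep n) (some (h + 1)) = hrun n (h + 1) w from rfl, this]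
          push_cast
          constructor
          · rintro ⟨A, B, C⟩
            refine ⟨?_, fun p q hpq => ?_, by omega⟩
            · intro b hb
              rcases List.mem_cons.1 hb with rfl | hb
              · omega
              · exact A b hb
            · have := B p q hpq
              constructor <;> omega
          · rintro ⟨A, B, C⟩
            refine ⟨fun b hb => A b (List.mem_cons_of_mem _ hb), fun p q hpq => ?_, by omega⟩
            have := B p q hpq
            constructor <;> omega
        · have e : hstep n (some h) a = none := by simp [hstep, h0, h1]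
          rw [e, hrun_none]
          constructor
          · intro h; cases h
          · rintro ⟨-, B, -⟩
            have := B [] w rfl
            rw [S_nil] at this
            omega
      · by_cases h1 : a.val = 1
        · have hg : gh a = -1 := by simp [gh, h0]
          rw [hg]
          by_cases h2 : 0 < h
          · have e : hstep n (some h) a = some (h - 1) := by simp [hstep, h1, h2]
            rw [e]
            have := ih (h - 1) k (by omega)
            rw [show w.foldl (hstep n) (some (h - 1)) = hrun n (h - 1) w from rfl, this]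
            have e2 : ((h - 1 : ℕ) : ℤ) = h - 1 := by omega
            rw [e2]
            constructor
            · rintro ⟨A, B, C⟩
              refine ⟨?_, fun p q hpq => ?_, by omega⟩
              · intro b hb
                rcases List.mem_cons.1 hb with rfl | hb
                · omega
                · exact A b hb
              · have := B p q hpq
                constructor <;> omega
            · rintro ⟨A, B, C⟩
              refine ⟨fun b hb => A b (List.mem_cons_of_mem _ hb), fun p q hpq => ?_, by omega⟩
              have := B p q hpq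
              constructor <;> omega
          · have e : hstep n (some h) a = none := by simp [hstep, h1, h2]
            rw [e, hrun_none]
            constructor
            · intro h; cases h
            · rintro ⟨-, B, -⟩
              have := B [] w rfl
              rw [S_nil] at this
              omega
        · have e : hstep n (some h) a = none := by simp [hstep, h0, h1]
          rw [e, hrun_none]
          constructor
          · intro h; cases h
          · rintro ⟨A, -, -⟩
            have := A a (by simp)
            omega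

private theorem mem_Un {m : ℕ} (n : ℕ) (w : List (Fin m)) : w ∈ Un m n ↔
    (∀ a ∈ w, a.val < 2) ∧ (∀ p q, w = p ++ q → 0 ≤ S gh p ∧ S gh p ≤ n) ∧ S gh w = n := by
  have := hrun_iff n w 0 n (Nat.zero_le n)
  simp only [Nat.cast_zero, zero_add] at this
  unfold Un
  rw [Set.mem_ofPred_eq, this]
  constructor
  · rintro ⟨A, B, C⟩; exact ⟨A, B, C.symm⟩
  · rintro ⟨A, B, C⟩; exact ⟨A, B, C.symm⟩

private theorem mem_Dn {m : ℕ} (n : ℕ) (w : List (Fin m)) : w ∈ Dn m n ↔
    (∀ a ∈ w, a.val < 2) ∧ (∀ p q, w = p ++ q → 0 ≤ S gh p ∧ S gh p ≤ n) ∧ S gh w = 0 := by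
  have := hrun_iff n w 0 0 (Nat.zero_le n)
  simp only [Nat.cast_zero, zero_add] at this
  unfold Dn
  rw [Set.mem_ofPred_eq, this]
  constructor
  · rintro ⟨A, B, C⟩; exact ⟨A, B, C.symm⟩
  · rintro ⟨A, B, C⟩; exact ⟨A, B, C.symm⟩

private theorem mem_Vn {m : ℕ} (n : ℕ) (w : List (Fin m)) : w ∈ Vn m n ↔
    (∀ a ∈ w, a.val < 2) ∧ (∀ p q, w = p ++ q → 0 ≤ (n : ℤ) + S gh p ∧ (n : ℤ) + S gh p ≤ n) ∧
      (n : ℤ) + S gh w = 0 := by
  have := hrun_iff n w n 0 le_rfl
  unfold Vn
  rw [Set.mem_ofPred_eq, this]
  simp only [Nat.cast_zero]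
  constructor
  · rintro ⟨A, B, C⟩; exact ⟨A, B, C.symm⟩
  · rintro ⟨A, B, C⟩; exact ⟨A, B, C.symm⟩

/-- first visit -/
private theorem first_visit {m : ℕ} (g : Fin m → ℤ) (hg : ∀ a, g a ≤ 1) (n : ℕ)
    (w : List (Fin m)) : (∀ p q, w = p ++ q → S g p ≤ n) ∨
      ∃ x a t, w = x ++ a :: t ∧ g a = 1 ∧ S g x = n ∧ ∀ p q, x = p ++ q → S g p ≤ n := by
  induction w using List.reverseRecOn with
  | nil =>
      left
      intro p q hpq
      have h1 := (List.append_eq_nil_iff.1 hpq.symm).1
      subst h1
      rw [S_nil]
      omega
  | append_singleton w b ih =>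
      rcases ih with h | ⟨x, a, t, h1, h2, h3, h4⟩
      · by_cases hb : S g (w ++ [b]) ≤ n
        · left
          intro p q hpq
          rcases List.eq_nil_or_concat q with rfl | ⟨q', c, rfl⟩
          · rw [List.append_nil] at hpq
            rw [← hpq]
            exact hb
          · rw [List.concat_eq_append, ← List.append_assoc] at hpq
            obtain ⟨e1, -⟩ := List.append_inj' hpq rfl
            exact h p q' e1
        · right
          have hw := h w [] (by simp)
          rw [S_append, S_cons, S_nil] at hb
          have := hg b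
          exact ⟨w, b, [], rfl, by omega, by omega, h⟩
      · right
        exact ⟨x, a, t ++ [b], by rw [h1]; simp, h2, h3, h4⟩

/-- last visit -/
private theorem last_visit {m : ℕ} (g : Fin m → ℤ) (hg : ∀ a, g a ≤ 1) (n : ℕ)
    (w : List (Fin m)) : (∀ p q, w = p ++ q → S g q ≤ n) ∨
      ∃ s a x, w = s ++ a :: x ∧ g a = 1 ∧ S g x = n ∧ ∀ p q, x = p ++ q → S g q ≤ n := by
  induction w with
  | nil =>
      left
      intro p q hpq
      have h1 := (List.append_eq_nil_iff.1 hpq.symm).2
      subst h1
      rw [S_nil]
      omega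
  | cons b w ih =>
      rcases ih with h | ⟨s, a, x, h1, h2, h3, h4⟩
      · by_cases hb : S g (b :: w) ≤ n
        · left
          intro p q hpq
          cases p with
          | nil =>
              rw [List.nil_append] at hpq
              rw [← hpq]
              exact hb
          | cons c p =>
              rw [List.cons_append] at hpq
              injection hpq with e1 e2
              exact h p q e2
        · right
          have hw := h [] w (by simp)
          rw [S_cons] at hb
          have := hg b
          exact ⟨[], b, w, rfl, by omega, by omega, h⟩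
      · right
        exact ⟨b :: s, a, x, by rw [h1]; simp, h2, h3, h4⟩

/-- a long increase contains a minimal one -/
private theorem osc {m : ℕ} (g : Fin m → ℤ) (hg : ∀ a, g a ≤ 1) (n : ℕ) (w : List (Fin m)) :
    ∀ N : ℕ, ∀ s x t, x.length = N → w = s ++ x ++ t → (n : ℤ) + 1 < S g x →
      ∃ s a z b t, w = s ++ (a :: z ++ [b]) ++ t ∧ g a = 1 ∧ g b = 1 ∧ S g z = n ∧
        ∀ p q, z = p ++ q → 0 ≤ S g p ∧ S g p ≤ n := by
  intro N
  induction N using Nat.strong_induction_on with
  | _ N ih =>
      intro s x t hN hw hx
      cases x with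
      | nil => rw [S_nil] at hx; omega
      | cons a y =>
          have ha := hg a
          by_cases hy : (n : ℤ) + 1 < S g y
          · exact ih y.length (by rw [← hN]; simp) (s ++ [a]) y t rfl (by rw [hw]; simp) hy
          rw [S_cons] at hx
          have ga : g a = 1 := by omega
          have hSy : S g y = n + 1 := by omega
          rcases List.eq_nil_or_concat y with rfl | ⟨z, b, rfl⟩
          · rw [S_nil] at hSy; omega
          have hb := hg b
          rw [List.concat_eq_append] at hN hw hx hy hSy
          by_cases hsh : ∃ s' x' t', w = s' ++ x' ++ t' ∧ x'.length < N ∧ (n : ℤ) + 1 < S g x'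
          · obtain ⟨s', x', t', e1, e2, e3⟩ := hsh
            exact ih x'.length e2 s' x' t' rfl e1 e3
          push Not at hsh
          rw [S_append, S_cons, S_nil] at hSy
          have hl : N = z.length + 2 := by rw [← hN]; simp
          have h1 := hsh s (a :: z) ([b] ++ t) (by rw [hw]; simp) (by rw [hl]; simp)
          rw [S_cons] at h1
          have gb : g b = 1 := by omega
          have hz : S g z = n := by omega
          refine ⟨s, a, z, b, t, hw, ga, gb, hz, ?_⟩
          intro p q hpq
          have h2 := hsh s (a :: p) (q ++ [b] ++ t) (by rw [hw, hpq]; simp)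
            (by rw [hl, hpq]; simp)
          have h3 := hsh (s ++ a :: p) (q ++ [b]) t (by rw [hw, hpq]; simp)
            (by rw [hl, hpq]; simp)
          rw [S_cons] at h2
          rw [S_append, S_cons, S_nil] at h3
          rw [hpq, S_append] at hz
          constructor <;> omega

private theorem gh_le {m : ℕ} (a : Fin m) : gh a ≤ 1 := by
  unfold gh; split_ifs <;> omega

private theorem ngh_le {m : ℕ} (a : Fin m) : -gh a ≤ 1 := by
  unfold gh; split_ifs <;> omega

private theorem eq_up {m : ℕ} {up a : Fin m} (hu : up.val = 0) (h : gh a = 1) : a = up := by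
  apply Fin.ext
  unfold gh at h
  split_ifs at h with h0
  omega

private theorem eq_dn {m : ℕ} {dn a : Fin m} (hd : dn.val = 1) (h2 : a.val < 2)
    (h : -gh a = 1) : a = dn := by
  apply Fin.ext
  unfold gh at h
  split_ifs at h with h0
  omega

private theorem gh_up {m : ℕ} {up : Fin m} (hu : up.val = 0) : gh up = 1 := by simp [gh, hu]

private theorem gh_dn {m : ℕ} {dn : Fin m} (hd : dn.val = 1) : gh dn = -1 := by simp [gh, hd]

private theorem not_Bad {m : ℕ} (n : ℕ) (up dn : Fin m) (hu : up.val = 0) (hd : dn.val = 1)
    (w : List (Fin m)) : w ∉ Bad m n up dn ↔ (∀ a ∈ w, a.val < 2) ∧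
      ∀ s x t, w = s ++ x ++ t → S gh x ≤ n + 1 ∧ -S gh x ≤ n + 1 := by
  constructor
  · intro hB
    have hl : ∀ a ∈ w, a.val < 2 := by
      intro a ha
      by_contra hc
      exact hB (Or.inl ⟨a, ha, by omega⟩)
    refine ⟨hl, fun s x t hw => ⟨?_, ?_⟩⟩
    · by_contra hc
      obtain ⟨s, a, z, b, t, e, ga, gb, hz, hp⟩ :=
        osc gh gh_le n w x.length s x t rfl hw (by omega)
      have ea := eq_up hu ga
      have eb := eq_up hu gb
      subst ea
      subst eb
      apply hB
      right; left
      refine ⟨s, z, t, ?_, e⟩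
      rw [mem_Un]
      refine ⟨fun c hc => hl c ?_, hp, hz⟩
      rw [e]; simp [hc]
    · by_contra hc
      obtain ⟨s, a, z, b, t, e, ga, gb, hz, hp⟩ :=
        osc (fun a => -gh a) ngh_le n w x.length s x t rfl hw (by rw [S_neg]; omega)
      have ea := eq_dn hd (hl a (by rw [e]; simp)) ga
      have eb := eq_dn hd (hl b (by rw [e]; simp)) gb
      subst ea
      subst eb
      apply hB
      right; right
      refine ⟨s, z, t, ?_, e⟩
      rw [mem_Vn]
      refine ⟨fun c hc => hl c ?_, fun p q hpq => ?_, ?_⟩
      · rw [e]; simp [hc]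
      · have := hp p q hpq
        rw [S_neg] at this
        constructor <;> omega
      · rw [S_neg] at hz
        omega
  · rintro ⟨hl, ho⟩ hB
    rcases hB with ⟨a, ha, h2⟩ | ⟨s, x, t, hx, e⟩ | ⟨s, x, t, hx, e⟩
    · have := hl a ha
      omega
    · rw [mem_Un] at hx
      have := (ho s (up :: x ++ [up]) t e).1
      rw [S_append, S_cons, S_cons, S_nil, hx.2.2, gh_up hu] at this
      omega
    · rw [mem_Vn] at hx
      have := (ho s (dn :: x ++ [dn]) t e).2
      rw [S_append, S_cons, S_cons, S_nil, gh_dn hd] at this
      have h3 := hx.2.2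
      omega

/-- a prefix in `Un n · up` -/
private theorem pre_Un {m : ℕ} (n : ℕ) (up : Fin m) (hu : up.val = 0) (w : List (Fin m))
    (hl : ∀ a ∈ w, a.val < 2) (h0 : ∀ p q, w = p ++ q → 0 ≤ S gh p) :
    (∃ x t, x ∈ Un m n ∧ w = x ++ up :: t) ↔ ∃ p q, w = p ++ q ∧ (n : ℤ) < S gh p := by
  constructor
  · rintro ⟨x, t, hx, e⟩
    rw [mem_Un] at hx
    refine ⟨x ++ [up], t, by rw [e]; simp, ?_⟩
    rw [S_append, S_cons, S_nil, gh_up hu, hx.2.2]
    omega
  · rintro ⟨p, q, e, hp⟩
    rcases first_visit gh gh_le n w with h | ⟨x, a, t, h1, h2, h3, h4⟩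
    · have := h p q e
      omega
    · have ea := eq_up hu h2
      subst ea
      refine ⟨x, t, ?_, h1⟩
      rw [mem_Un]
      refine ⟨fun c hc => hl c (by rw [h1]; simp [hc]), fun p q hpq => ⟨?_, h4 p q hpq⟩, h3⟩
      exact h0 p (q ++ a :: t) (by rw [h1, hpq]; simp)

/-- the height in terms of a prefix and a suffix -/
private theorem bounds {m : ℕ} (n : ℕ) (w : List (Fin m))
    (ho : ∀ s x t, w = s ++ x ++ t → S gh x ≤ n + 1 ∧ -S gh x ≤ n + 1)
    (x t : List (Fin m)) (hw : w = x ++ t) (hx : S gh x = n + 1) (p q : List (Fin m))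
    (hpq : w = p ++ q) : 0 ≤ S gh p ∧ S gh p ≤ n + 1 := by
  refine ⟨?_, (ho [] p q (by simpa using hpq)).1⟩
  rw [hw] at hpq
  rcases List.append_eq_append_iff.1 hpq with ⟨u, h1, h2⟩ | ⟨u, h1, h2⟩
  · have := (ho x u q (by rw [hw, h2]; simp)).2
    rw [h1, S_append]
    omega
  · have := (ho p u t (by rw [hw, h1])).1
    rw [h1, S_append] at hx
    omega

theorem Un_succ (m n : ℕ) (up dn : Fin m) (hu : up.val = 0) (hd : dn.val = 1) :
    Un m (n + 1) = {w | (∃ x t, x ∈ Un m n ∧ w = x ++ up :: t) ∧
      (∃ s x, x ∈ Un m n ∧ w = s ++ up :: x) ∧ w ∉ Bad m n up dn} := by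
  ext w
  rw [mem_Un, Set.mem_ofPred_eq, not_Bad n up dn hu hd]
  push_cast
  constructor
  · rintro ⟨hl, hp, hw⟩
    refine ⟨?_, ?_, hl, ?_⟩
    · rw [pre_Un n up hu w hl (fun p q e => (hp p q e).1)]
      exact ⟨w, [], by simp, by omega⟩
    · rcases last_visit gh gh_le n w with h | ⟨s, a, x, h1, h2, h3, h4⟩
      · have := h [] w rfl
        omega
      · have ea := eq_up hu h2
        subst ea
        refine ⟨s, x, ?_, h1⟩
        rw [mem_Un]
        refine ⟨fun c hc => hl c (by rw [h1]; simp [hc]), fun p q hpq => ?_, h3⟩
        have e1 := h4 p q hpq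
        have e2 : S gh x = S gh p + S gh q := by rw [hpq, S_append]
        have e3 := hp s (a :: x) h1
        have e4 := hp (s ++ a :: p) q (by rw [h1, hpq]; simp)
        rw [S_append, S_cons] at e4
        constructor <;> omega
    · intro s x t hw'
      have e1 := hp s (x ++ t) (by rw [hw']; simp)
      have e2 := hp (s ++ x) t hw'
      rw [S_append] at e2
      constructor <;> omega
  · rintro ⟨⟨x, t, hx, e⟩, ⟨s, y, hy, e'⟩, hl, ho⟩
    rw [mem_Un] at hx hy
    have hb := bounds n w ho (x ++ [up]) t (by rw [e]; simp) (by
      rw [S_append, S_cons, S_nil, gh_up hu, hx.2.2]; omega)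
    refine ⟨hl, fun p q hpq => hb p q hpq, ?_⟩
    have h1 := hb w [] (by simp)
    have h2 := hb s (up :: y) e'
    have h3 : S gh w = S gh s + (1 + n) := by
      rw [e', S_append, S_cons, gh_up hu, hy.2.2]
    omega

theorem Vn_succ (m n : ℕ) (up dn : Fin m) (hu : up.val = 0) (hd : dn.val = 1) :
    Vn m (n + 1) = {w | (∃ x t, x ∈ Vn m n ∧ w = x ++ dn :: t) ∧
      (∃ s x, x ∈ Vn m n ∧ w = s ++ dn :: x) ∧ w ∉ Bad m n up dn} := by
  ext w
  rw [mem_Vn, Set.mem_ofPred_eq, not_Bad n up dn hu hd]
  push_cast
  constructor
  · rintro ⟨hl, hp, hw⟩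
    refine ⟨?_, ?_, hl, ?_⟩
    · rcases first_visit (fun a => -gh a) ngh_le n w with h | ⟨x, a, t, h1, h2, h3, h4⟩
      · have := h w [] (by simp)
        rw [S_neg] at this
        omega
      · have ea := eq_dn hd (hl a (by rw [h1]; simp)) h2
        subst ea
        refine ⟨x, t, ?_, h1⟩
        rw [mem_Vn]
        rw [S_neg] at h3
        refine ⟨fun c hc => hl c (by rw [h1]; simp [hc]), fun p q hpq => ?_, by omega⟩
        have e1 := h4 p q hpq
        rw [S_neg] at e1
        have e2 := hp p (q ++ a :: t) (by rw [h1, hpq]; simp)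
        constructor <;> omega
    · rcases last_visit (fun a => -gh a) ngh_le n w with h | ⟨s, a, x, h1, h2, h3, h4⟩
      · have := h [] w rfl
        rw [S_neg] at this
        omega
      · have ea := eq_dn hd (hl a (by rw [h1]; simp)) h2
        subst ea
        refine ⟨s, x, ?_, h1⟩
        rw [mem_Vn]
        rw [S_neg] at h3
        refine ⟨fun c hc => hl c (by rw [h1]; simp [hc]), fun p q hpq => ?_, by omega⟩
        have e1 := h4 p q hpq
        rw [S_neg] at e1
        have e2 : S gh x = S gh p + S gh q := by rw [hpq, S_append]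
        have e3 := hp s (a :: x) h1
        have e4 := hp (s ++ a :: p) q (by rw [h1, hpq]; simp)
        rw [S_append, S_cons] at e4
        rw [gh_dn hd] at e4
        constructor <;> omega
    · intro s x t hw'
      have e1 := hp s (x ++ t) (by rw [hw']; simp)
      have e2 := hp (s ++ x) t hw'
      rw [S_append] at e2
      constructor <;> omega
  · rintro ⟨⟨x, t, hx, e⟩, ⟨s, y, hy, e'⟩, hl, ho⟩
    rw [mem_Vn] at hx hy
    have hx3 := hx.2.2
    have hy3 := hy.2.2
    have hb : ∀ p q, w = p ++ q → -((n : ℤ) + 1) ≤ S gh p ∧ S gh p ≤ 0 := by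
      intro p q hpq
      refine ⟨?_, ?_⟩
      · have := (ho [] p q (by simpa using hpq)).2
        omega
      · have hS : S gh (x ++ [dn]) = -((n : ℤ) + 1) := by
          rw [S_append, S_cons, S_nil, gh_dn hd]; omega
        have hw : w = (x ++ [dn]) ++ t := by rw [e]; simp
        rw [hw] at hpq
        rcases List.append_eq_append_iff.1 hpq with ⟨u, h1, h2⟩ | ⟨u, h1, h2⟩
        · have := (ho (x ++ [dn]) u q (by rw [hw, h2]; simp)).1
          rw [h1, S_append]
          omega
        · have := (ho p u t (by rw [hw, h1])).2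
          rw [h1, S_append] at hS
          omega
    refine ⟨hl, fun p q hpq => ?_, ?_⟩
    · have := hb p q hpq
      constructor <;> omega
    · have h1 := hb w [] (by simp)
      have h2 := hb s (dn :: y) e'
      have h3 : S gh w = S gh s + (-1 + S gh y) := by
        rw [e', S_append, S_cons, gh_dn hd]
      omega

theorem Dn_succ (m n : ℕ) (up dn : Fin m) (hu : up.val = 0) (hd : dn.val = 1) :
    Dn m (n + 1) = Dn m n ∪ {w | (∃ x t, x ∈ Un m n ∧ w = x ++ up :: t) ∧
      (∃ s x, x ∈ Vn m n ∧ w = s ++ dn :: x) ∧ w ∉ Bad m n up dn} := by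
  ext w
  rw [Set.mem_union, mem_Dn, mem_Dn, Set.mem_ofPred_eq, not_Bad n up dn hu hd]
  push_cast
  constructor
  · rintro ⟨hl, hp, hw⟩
    by_cases hmax : ∀ p q, w = p ++ q → S gh p ≤ n
    · left
      exact ⟨hl, fun p q e => ⟨(hp p q e).1, hmax p q e⟩, hw⟩
    · right
      push Not at hmax
      obtain ⟨p0, q0, e0, h0⟩ := hmax
      refine ⟨?_, ?_, hl, ?_⟩
      · rw [pre_Un n up hu w hl (fun p q e => (hp p q e).1)]
        exact ⟨p0, q0, e0, h0⟩
      · rcases last_visit (fun a => -gh a) ngh_le n w with h | ⟨s, a, x, h1, h2, h3, h4⟩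
        · have := h p0 q0 e0
          rw [S_neg] at this
          have e1 : S gh w = S gh p0 + S gh q0 := by rw [e0, S_append]
          omega
        · have ea := eq_dn hd (hl a (by rw [h1]; simp)) h2
          subst ea
          refine ⟨s, x, ?_, h1⟩
          rw [mem_Vn]
          rw [S_neg] at h3
          refine ⟨fun c hc => hl c (by rw [h1]; simp [hc]), fun p q hpq => ?_, by omega⟩
          have e1 := h4 p q hpq
          rw [S_neg] at e1
          have e2 : S gh x = S gh p + S gh q := by rw [hpq, S_append]
          have e3 := hp s (a :: x) h1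
          have e4 := hp (s ++ a :: p) q (by rw [h1, hpq]; simp)
          rw [S_append, S_cons] at e4
          rw [gh_dn hd] at e4
          have e5 : S gh w = S gh s + (-1 + S gh x) := by
            rw [h1, S_append, S_cons, gh_dn hd]
          constructor <;> omega
      · intro s x t hw'
        have e1 := hp s (x ++ t) (by rw [hw']; simp)
        have e2 := hp (s ++ x) t hw'
        rw [S_append] at e2
        constructor <;> omega
  · rintro (⟨hl, hp, hw⟩ | ⟨⟨x, t, hx, e⟩, ⟨s, y, hy, e'⟩, hl, ho⟩)
    · exact ⟨hl, fun p q e => ⟨(hp p q e).1, by have := (hp p q e).2; omega⟩, hw⟩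
    · rw [mem_Un] at hx
      rw [mem_Vn] at hy
      have hb := bounds n w ho (x ++ [up]) t (by rw [e]; simp) (by
        rw [S_append, S_cons, S_nil, gh_up hu, hx.2.2]; omega)
      refine ⟨hl, fun p q hpq => hb p q hpq, ?_⟩
      have h1 := hb w [] (by simp)
      have h2 := hb s (dn :: y) e'
      have hy3 := hy.2.2
      have h3 : S gh w = S gh s + (-1 + S gh y) := by
        rw [e', S_append, S_cons, gh_dn hd]
      omega

end Pool.Agent.DD
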