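import Pool.Agent.DD.DyckA

/-!
# DD-DyckB: the bounded Dyck languages have finite dot-depth

Plan.  `SF L := ∃ j, L ∈ B (Fin m) j`.  Closure: complement (`B_compl`), union and intersection
(`B_mono` to a common level `≥ 1`, then `BoolCl`), `cat` (`catList K [L]`).  Finite languages,
`Set.univ` (cofinite), singletons.  Write the right hand sides of `Un_succ`, `Vn_succ`, `Dn_succ` with
`cat`, `∩`, `∪`, complement: e.g. `{w | ∃ x t, x ∈ Un m n ∧ w = x ++ up :: t}
= cat (Un m n) (cat {[up]} Set.univ)`, and the words with a letter `≥ 2` are the finite union over these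
letters of `cat univ (cat {[a]} univ)` (or: the complement...).  Base: for `n = 0` the three
languages are `{[]}` (`hrun 0 0 w = some 0` iff `w = []`).  Induction on `n` for the three families
simultaneously.
-/

namespace Pool.Agent.DD

section Closure

variable {A : Type}

/-- languages of finite dot-depth -/
private def SF (L : Lang A) : Prop := ∃ j, L ∈ B A j

private lemma SF.compl {L : Lang A} (h : SF L) : SF Lᶜ := by
  obtain ⟨j, hj⟩ := h
  exact ⟨j, B_compl hj⟩

private lemma base_of_mem {j : ℕ} {L : Lang A} (h : L ∈ B A j) : BoolCl (MonCl (B A j)) L :=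
  BoolCl.base (Or.inr ⟨L, h, [], by simp, rfl⟩)

private lemma SF.union {K L : Lang A} (hK : SF K) (hL : SF L) : SF (K ∪ L) := by
  obtain ⟨i, hi⟩ := hK
  obtain ⟨j, hj⟩ := hL
  exact ⟨max i j + 1, BoolCl.union (base_of_mem (B_mono (le_max_left i j) hi))
    (base_of_mem (B_mono (le_max_right i j) hj))⟩

private lemma SF.inter {K L : Lang A} (hK : SF K) (hL : SF L) : SF (K ∩ L) := by
  obtain ⟨i, hi⟩ := hK
  obtain ⟨j, hj⟩ := hL
  exact ⟨max i j + 1, BoolCl.inter (base_of_mem (B_mono (le_max_left i j) hi))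
    (base_of_mem (B_mono (le_max_right i j) hj))⟩

private lemma SF.cat {K L : Lang A} (hK : SF K) (hL : SF L) : SF (DD.cat K L) := by
  obtain ⟨i, hi⟩ := hK
  obtain ⟨j, hj⟩ := hL
  refine ⟨max i j + 1, BoolCl.base (Or.inr ⟨K, B_mono (le_max_left i j) hi, [L], ?_, rfl⟩)⟩
  intro K' hK'
  rw [List.mem_singleton] at hK'
  rw [hK']
  exact B_mono (le_max_right i j) hj

private lemma SF.of_finite {L : Lang A} (h : L.Finite) : SF L := ⟨0, Or.inl h⟩

private lemma SF.univ : SF (Set.univ : Lang A) := ⟨0, Or.inr (by simp)⟩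

private lemma SF.single (a : A) : SF ({[a]} : Lang A) := SF.of_finite (Set.finite_singleton _)

private lemma SF.mem_letter (a : A) : SF ({w | a ∈ w} : Lang A) := by
  have h : ({w | a ∈ w} : Lang A) = DD.cat Set.univ (DD.cat {[a]} Set.univ) := by
    ext w
    constructor
    · intro h
      obtain ⟨s, t, rfl⟩ := List.append_of_mem h
      exact ⟨s, trivial, [a] ++ t, ⟨[a], rfl, t, trivial, rfl⟩, rfl⟩
    · rintro ⟨s, -, y, ⟨z, hz, t, -, rfl⟩, rfl⟩
      have hz' : z = [a] := hz
      subst hz'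
      show a ∈ s ++ ([a] ++ t)
      simp
  rw [h]
  exact SF.univ.cat ((SF.single a).cat SF.univ)

private lemma SF.exists_letter (s : Finset A) : SF ({w | ∃ a ∈ s, a ∈ w} : Lang A) := by
  classical
  induction s using Finset.induction_on with
  | empty =>
      have h : ({w | ∃ a ∈ (∅ : Finset A), a ∈ w} : Lang A) = ∅ := by
        ext w; simp
      rw [h]
      exact SF.of_finite Set.finite_empty
  | insert b s hb ih =>
      have h : ({w | ∃ a ∈ insert b s, a ∈ w} : Lang A) = {w | b ∈ w} ∪ {w | ∃ a ∈ s, a ∈ w} := by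
        ext w
        constructor
        · rintro ⟨a, ha, haw⟩
          rcases Finset.mem_insert.1 ha with rfl | ha
          · exact Or.inl haw
          · exact Or.inr ⟨a, ha, haw⟩
        · rintro (h | ⟨a, ha, haw⟩)
          · exact ⟨b, Finset.mem_insert_self _ _, h⟩
          · exact ⟨a, Finset.mem_insert_of_mem ha, haw⟩
      rw [h]
      exact (SF.mem_letter b).union ih

private lemma SF.pre {U : Lang A} (hU : SF U) (a : A) :
    SF ({w | ∃ x t, x ∈ U ∧ w = x ++ a :: t} : Lang A) := by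
  have h : ({w | ∃ x t, x ∈ U ∧ w = x ++ a :: t} : Lang A) =
      DD.cat U (DD.cat {[a]} Set.univ) := by
    ext w
    constructor
    · rintro ⟨x, t, hx, rfl⟩
      exact ⟨x, hx, a :: t, ⟨[a], rfl, t, trivial, rfl⟩, rfl⟩
    · rintro ⟨x, hx, y, ⟨z, hz, t, -, rfl⟩, rfl⟩
      have hz' : z = [a] := hz
      subst hz'
      exact ⟨x, t, hx, rfl⟩
  rw [h]
  exact hU.cat ((SF.single a).cat SF.univ)

private lemma SF.suf {U : Lang A} (hU : SF U) (a : A) :
    SF ({w | ∃ s x, x ∈ U ∧ w = s ++ a :: x} : Lang A) := by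
  have h : ({w | ∃ s x, x ∈ U ∧ w = s ++ a :: x} : Lang A) =
      DD.cat Set.univ (DD.cat {[a]} U) := by
    ext w
    constructor
    · rintro ⟨s, x, hx, rfl⟩
      exact ⟨s, trivial, a :: x, ⟨[a], rfl, x, hx, rfl⟩, rfl⟩
    · rintro ⟨s, -, y, ⟨z, hz, x, hx, rfl⟩, rfl⟩
      have hz' : z = [a] := hz
      subst hz'
      exact ⟨s, x, hx, rfl⟩
  rw [h]
  exact SF.univ.cat ((SF.single a).cat hU)

private lemma SF.mid {U : Lang A} (hU : SF U) (a : A) :
    SF ({w | ∃ s x t, x ∈ U ∧ w = s ++ (a :: x ++ [a]) ++ t} : Lang A) := by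
  have h : ({w | ∃ s x t, x ∈ U ∧ w = s ++ (a :: x ++ [a]) ++ t} : Lang A) =
      DD.cat Set.univ (DD.cat {[a]} (DD.cat U (DD.cat {[a]} Set.univ))) := by
    ext w
    constructor
    · rintro ⟨s, x, t, hx, rfl⟩
      refine ⟨s, trivial, [a] ++ (x ++ ([a] ++ t)), ⟨[a], rfl, x ++ ([a] ++ t),
        ⟨x, hx, [a] ++ t, ⟨[a], rfl, t, trivial, rfl⟩, rfl⟩, rfl⟩, ?_⟩
      simp
    · rintro ⟨s, -, y, ⟨z, hz, v, ⟨x, hx, u, ⟨z', hz', t, -, rfl⟩, rfl⟩, rfl⟩, rfl⟩
      have h1 : z = [a] := hz
      have h2 : z' = [a] := hz'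
      subst h1
      subst h2
      exact ⟨s, x, t, hx, by simp⟩
  rw [h]
  exact SF.univ.cat ((SF.single a).cat (hU.cat ((SF.single a).cat SF.univ)))

end Closure

private lemma SF.bad {m n : ℕ} (up dn : Fin m) (hU : SF (Un m n)) (hV : SF (Vn m n)) :
    SF (Bad m n up dn) := by
  classical
  have h : Bad m n up dn = {w | ∃ a ∈ (Finset.univ.filter fun a : Fin m => 2 ≤ a.val), a ∈ w} ∪
      ({w | ∃ s x t, x ∈ Un m n ∧ w = s ++ (up :: x ++ [up]) ++ t} ∪
        {w | ∃ s x t, x ∈ Vn m n ∧ w = s ++ (dn :: x ++ [dn]) ++ t}) := by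
    ext w
    constructor
    · rintro (⟨a, ha, h2⟩ | h | h)
      · exact Or.inl ⟨a, by simpa using h2, ha⟩
      · exact Or.inr (Or.inl h)
      · exact Or.inr (Or.inr h)
    · rintro (⟨a, ha, haw⟩ | h | h)
      · exact Or.inl ⟨a, haw, by simpa using ha⟩
      · exact Or.inr (Or.inl h)
      · exact Or.inr (Or.inr h)
  rw [h]
  exact (SF.exists_letter _).union ((hU.mid up).union (hV.mid dn))

private lemma foldl_none {m : ℕ} (n : ℕ) (w : List (Fin m)) :
    w.foldl (hstep n) none = none := by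
  induction w with
  | nil => rfl
  | cons a w ih => simpa [hstep] using ih

private lemma run_zero {m : ℕ} (w : List (Fin m)) : hrun 0 0 w = some 0 ↔ w = [] := by
  constructor
  · intro h
    cases w with
    | nil => rfl
    | cons a w =>
        exfalso
        have h1 : hstep 0 (some 0) a = none := by
          simp [hstep]
        unfold hrun at h
        rw [List.foldl_cons, h1, foldl_none] at h
        simp at h
  · rintro rfl
    rfl

/-- Main result of this module. -/
theorem Dn_mem_B (m n : ℕ) (hm : 2 ≤ m) : ∃ j, Dn m n ∈ B (Fin m) j := by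
  have key : SF (Un m n) ∧ SF (Vn m n) ∧ SF (Dn m n) := by
    let up : Fin m := ⟨0, by omega⟩
    let dn : Fin m := ⟨1, by omega⟩
    have hu : up.val = 0 := rfl
    have hd : dn.val = 1 := rfl
    induction n with
    | zero =>
        have h0 : ({w | hrun 0 0 w = some 0} : Lang (Fin m)) = {[]} := by
          ext w
          exact run_zero w
        have h1 : SF ({w | hrun 0 0 w = some 0} : Lang (Fin m)) := by
          rw [h0]
          exact SF.of_finite (Set.finite_singleton _)
        exact ⟨h1, h1, h1⟩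
    | succ n ih =>
        obtain ⟨hU, hV, hD⟩ := ih
        have hB : SF (Bad m n up dn) := SF.bad up dn hU hV
        refine ⟨?_, ?_, ?_⟩
        · rw [Un_succ m n up dn hu hd]
          exact (hU.pre up).inter ((hU.suf up).inter hB.compl)
        · rw [Vn_succ m n up dn hu hd]
          exact (hV.pre dn).inter ((hV.suf dn).inter hB.compl)
        · rw [Dn_succ m n up dn hu hd]
          exact hD.union ((hU.pre up).inter ((hV.suf dn).inter hB.compl))
  exact key.2.2

end Pool.Agent.DD
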