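import Pool.Agent.DD.DyckA

/-!
# DD-DyckC: the bounded Dyck languages are pairwise different with inverse syntactic monoid

Plan.  A word `w` acts on the heights `{0, ..., n}` as the partial injection `h ↦ hrun n h w`, which is
a translation on its domain, and the domain is an interval (possibly empty): if `w` has no letter
`≥ 2`, let `lo`, `hi` be the minimum and the maximum of the partial sums; `hrun n h w = some h'` iff
`0 ≤ h + lo`, `h + hi ≤ n`, `h' = h + total`.
* two words with the same action (`∀ h ≤ n, hrun n h x = hrun n h y`, and heights stay `≤ n`) are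
  `SynEq (Dn m n)`; conversely `SynEq (Dn m n) x y` implies the same action
  (contexts `up^h`, `dn^h'`).
* regular: `y` = the reversed word with the letters `0` and `1` exchanged; if `x` contains a letter
  `≥ 2` take `y = x`.
* idempotents: `SynEq (e ++ e) e` implies that the action of `e` is a partial identity (a partial
  injection `g` with `g ∘ g = g`), and partial identities commute.
* `Dn m n` for different `n` are different: `up^n dn^n ∈ Dn m n'` iff `n ≤ n'`.
-/

namespace Pool.Agent.DD

private theorem dyc_none {m n : ℕ} (w : List (Fin m)) : w.foldl (hstep n) none = none := by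
  induction w with
  | nil => rfl
  | cons a w ih => exact ih

private theorem dyc_nil {m n h : ℕ} : hrun n h ([] : List (Fin m)) = some h := rfl

private theorem dyc_append {m n h : ℕ} (x y : List (Fin m)) :
    hrun n h (x ++ y) = (hrun n h x).bind (fun k => hrun n k y) := by
  unfold hrun
  rw [List.foldl_append]
  cases x.foldl (hstep n) (some h) with
  | none => exact dyc_none y
  | some k => rfl

private theorem dyc_cons {m n h : ℕ} (a : Fin m) (w : List (Fin m)) :
    hrun n h (a :: w) = (hstep n (some h) a).bind (fun k => hrun n k w) := by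
  show w.foldl (hstep n) (hstep n (some h) a) = _
  cases hstep n (some h) a with
  | none => exact dyc_none w
  | some k => rfl

private theorem dyc_step_le {m n h k : ℕ} {a : Fin m} (hh : h ≤ n)
    (e : hstep n (some h) a = some k) : k ≤ n := by
  unfold hstep at e
  dsimp only at e
  split_ifs at e with h1 h2 h3 h4
  · have := Option.some.inj e; omega
  · have := Option.some.inj e; omega

private theorem dyc_le {m n : ℕ} (w : List (Fin m)) : ∀ {h k : ℕ}, h ≤ n →
    hrun n h w = some k → k ≤ n := by
  induction w with
  | nil =>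
    intro h k hh e
    have := Option.some.inj (dyc_nil.symm.trans e)
    omega
  | cons a w ih =>
    intro h k hh e
    rw [dyc_cons] at e
    obtain ⟨j, hj, e2⟩ := Option.bind_eq_some_iff.1 e
    exact ih (dyc_step_le hh hj) e2

private theorem dyc_step_inj {m n h h' k : ℕ} {a : Fin m} (e : hstep n (some h) a = some k)
    (e' : hstep n (some h') a = some k) : h = h' := by
  unfold hstep at e e'
  dsimp only at e e'
  split_ifs at e e' with h1 h2 h3 h4 h5 h6
  · have := Option.some.inj e; have := Option.some.inj e'; omega
  · have := Option.some.inj e; have := Option.some.inj e'; omega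

private theorem dyc_inj {m n : ℕ} (w : List (Fin m)) : ∀ {h h' k : ℕ},
    hrun n h w = some k → hrun n h' w = some k → h = h' := by
  induction w with
  | nil =>
    intro h h' k e e'
    have h1 := Option.some.inj (dyc_nil.symm.trans e)
    have h2 := Option.some.inj (dyc_nil.symm.trans e')
    omega
  | cons a w ih =>
    intro h h' k e e'
    rw [dyc_cons] at e e'
    obtain ⟨j, hj, e2⟩ := Option.bind_eq_some_iff.1 e
    obtain ⟨j', hj', e2'⟩ := Option.bind_eq_some_iff.1 e'
    have := ih e2 e2'
    subst this
    exact dyc_step_inj hj hj'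

private theorem dyc_up {m n : ℕ} {up : Fin m} (hu : up.val = 0) (k : ℕ) : ∀ {h : ℕ}, h ≤ n →
    hrun n h (List.replicate k up) = if h + k ≤ n then some (h + k) else none := by
  induction k with
  | zero =>
    intro h hh
    rw [List.replicate_zero, dyc_nil, if_pos (by omega)]
    rfl
  | succ k ih =>
    intro h hh
    rw [List.replicate_succ, dyc_cons]
    unfold hstep
    dsimp only
    rw [if_pos hu]
    by_cases h1 : h < n
    · rw [if_pos h1]
      show hrun n (h + 1) (List.replicate k up) = _
      rw [ih (by omega)]
      have e : h + 1 + k = h + (k + 1) := by omega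
      rw [e]
    · rw [if_neg h1, if_neg (by omega)]
      rfl

private theorem dyc_dn {m n : ℕ} {dn : Fin m} (hd : dn.val = 1) (k : ℕ) : ∀ {h : ℕ},
    hrun n h (List.replicate k dn) = if k ≤ h then some (h - k) else none := by
  induction k with
  | zero =>
    intro h
    rw [List.replicate_zero, dyc_nil, if_pos (by omega)]
    rfl
  | succ k ih =>
    intro h
    rw [List.replicate_succ, dyc_cons]
    unfold hstep
    dsimp only
    rw [if_neg (by omega), if_pos hd]
    by_cases h1 : 0 < h
    · rw [if_pos h1]
      show hrun n (h - 1) (List.replicate k dn) = _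
      rw [ih]
      have e : h - 1 - k = h - (k + 1) := by omega
      rw [e]
      by_cases h2 : k + 1 ≤ h
      · rw [if_pos h2, if_pos (by omega)]
      · rw [if_neg h2, if_neg (by omega)]
    · rw [if_neg h1, if_neg (by omega)]
      rfl

private theorem dyc_syn_of {m n : ℕ} {x y : List (Fin m)}
    (H : ∀ h ≤ n, hrun n h x = hrun n h y) : SynEq (Dn m n) x y := by
  intro s t
  show hrun n 0 (s ++ x ++ t) = some 0 ↔ hrun n 0 (s ++ y ++ t) = some 0
  rw [dyc_append, dyc_append, dyc_append, dyc_append]
  cases hs : hrun n 0 s with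
  | none => exact Iff.rfl
  | some h =>
    have hh : h ≤ n := dyc_le s (Nat.zero_le n) hs
    show (hrun n h x).bind _ = some 0 ↔ (hrun n h y).bind _ = some 0
    rw [H h hh]

private theorem dyc_of_syn {m n : ℕ} (hm : 2 ≤ m) {x y : List (Fin m)}
    (H : SynEq (Dn m n) x y) {h k : ℕ} (hh : h ≤ n) (e : hrun n h x = some k) :
    hrun n h y = some k := by
  have hk : k ≤ n := dyc_le x hh e
  have h0 : hrun n 0 (List.replicate h (⟨0, by omega⟩ : Fin m)) = some h := by
    rw [dyc_up rfl h (Nat.zero_le n), if_pos (by omega), Nat.zero_add]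
  have h1 := H (List.replicate h (⟨0, by omega⟩ : Fin m))
    (List.replicate k (⟨1, by omega⟩ : Fin m))
  have h2 : List.replicate h (⟨0, by omega⟩ : Fin m) ++ x ++
      List.replicate k (⟨1, by omega⟩ : Fin m) ∈ Dn m n := by
    show hrun n 0 _ = some 0
    rw [dyc_append, dyc_append, h0]
    show (hrun n h x).bind _ = _
    rw [e]
    show hrun n k _ = _
    rw [dyc_dn rfl, if_pos le_rfl, Nat.sub_self]
  have h3 := h1.1 h2
  have h4 : hrun n 0 (List.replicate h (⟨0, by omega⟩ : Fin m) ++ y ++
      List.replicate k (⟨1, by omega⟩ : Fin m)) = some 0 := h3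
  rw [dyc_append, dyc_append, h0] at h4
  obtain ⟨j, hj, h5⟩ := Option.bind_eq_some_iff.1 h4
  have hj' : hrun n h y = some j := hj
  rw [dyc_dn rfl] at h5
  split_ifs at h5 with h6
  have h7 := Option.some.inj h5
  have h8 : j = k := by omega
  rw [hj', h8]

private theorem dyc_idem {m n : ℕ} (hm : 2 ≤ m) {e : List (Fin m)}
    (H : SynEq (Dn m n) (e ++ e) e) {h k : ℕ} (hh : h ≤ n) (he : hrun n h e = some k) :
    k = h := by
  have h1 := dyc_of_syn hm (fun s t => (H s t).symm) hh he
  rw [dyc_append, he] at h1
  exact dyc_inj e h1 he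

private theorem dyc_comm {m n : ℕ} {e g : List (Fin m)}
    (He : ∀ h k, h ≤ n → hrun n h e = some k → k = h)
    (Hg : ∀ h k, h ≤ n → hrun n h g = some k → k = h) {h k : ℕ} (hh : h ≤ n)
    (he : hrun n h (e ++ g) = some k) : hrun n h (g ++ e) = some k := by
  rw [dyc_append] at he ⊢
  obtain ⟨j, hj, h5⟩ := Option.bind_eq_some_iff.1 he
  have h1 := He h j hh hj
  subst h1
  have h2 := Hg j k hh h5
  subst h2
  rw [h5]
  exact hj

/-- the reversed word with the letters `0` and `1` exchanged -/
private def dyc_sw {m : ℕ} (hm : 2 ≤ m) (a : Fin m) : Fin m :=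
  if a.val = 0 then ⟨1, by omega⟩ else if a.val = 1 then ⟨0, by omega⟩ else a

private theorem dyc_rev {m n : ℕ} (hm : 2 ≤ m) (x : List (Fin m)) : ∀ {h k : ℕ}, h ≤ n →
    hrun n h x = some k → hrun n k ((x.map (dyc_sw hm)).reverse) = some h := by
  induction x with
  | nil =>
    intro h k hh e
    have h1 := Option.some.inj (dyc_nil.symm.trans e)
    subst h1
    rfl
  | cons a w ih =>
    intro h k hh e
    rw [dyc_cons] at e
    obtain ⟨j, hj, e2⟩ := Option.bind_eq_some_iff.1 e
    have hjn := dyc_step_le hh hj
    rw [List.map_cons, List.reverse_cons, dyc_append, ih hjn e2]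
    show hrun n j [dyc_sw hm a] = some h
    show hstep n (some j) (dyc_sw hm a) = some h
    unfold hstep at hj ⊢
    dsimp only at hj ⊢
    unfold dyc_sw
    split_ifs at hj with h1 h2 h3 h4
    · have := Option.some.inj hj
      subst this
      rw [if_pos h1]
      simp
    · have := Option.some.inj hj
      subst this
      rw [if_neg h1, if_pos h3]
      have h5 : h - 1 < n := by omega
      have h6 : h - 1 + 1 = h := by omega
      simp [h5, h6]

theorem Dn_invSyn (m n : ℕ) (hm : 2 ≤ m) : InvSyn (Dn m n) := by
  refine ⟨fun x => ⟨(x.map (dyc_sw hm)).reverse, dyc_syn_of fun h hh => ?_⟩, fun e g He Hg => ?_⟩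
  · rw [dyc_append, dyc_append]
    cases hx : hrun n h x with
    | none => rfl
    | some k =>
      show (hrun n k _).bind _ = some k
      rw [dyc_rev hm x hh hx]
      exact hx
  · have he : ∀ h k, h ≤ n → hrun n h e = some k → k = h := fun h k hh h1 => dyc_idem hm He hh h1
    have hg : ∀ h k, h ≤ n → hrun n h g = some k → k = h := fun h k hh h1 => dyc_idem hm Hg hh h1
    refine dyc_syn_of fun h hh => Option.ext fun k => ?_
    exact ⟨fun h1 => dyc_comm he hg hh h1, fun h1 => dyc_comm hg he hh h1⟩

private theorem dyc_le_of_eq {m n n' : ℕ} (hm : 2 ≤ m) (h : Dn m n = Dn m n') : n ≤ n' := by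
  have h1 : List.replicate n (⟨0, by omega⟩ : Fin m) ++
      List.replicate n (⟨1, by omega⟩ : Fin m) ∈ Dn m n := by
    show hrun n 0 _ = some 0
    rw [dyc_append, dyc_up rfl n (Nat.zero_le n), if_pos (by omega)]
    show hrun n (0 + n) _ = some 0
    rw [dyc_dn rfl, if_pos (by omega)]
    congr 1
    omega
  rw [h] at h1
  have h2 : hrun n' 0 (List.replicate n (⟨0, by omega⟩ : Fin m) ++
      List.replicate n (⟨1, by omega⟩ : Fin m)) = some 0 := h1
  rw [dyc_append, dyc_up rfl n (Nat.zero_le n')] at h2
  by_contra h3
  rw [if_neg (by omega)] at h2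
  exact absurd h2 (by simp)

theorem Dn_injective (m : ℕ) (hm : 2 ≤ m) : Function.Injective (Dn m) := by
  intro n n' h
  exact le_antisymm (dyc_le_of_eq hm h) (dyc_le_of_eq hm h.symm)

end Pool.Agent.DD
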