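import Pool.Agent.DD.Defs

/-!
# DD-Orth: languages with an orthodox (in particular inverse) syntactic monoid are reversible

Plan.  `InvSyn → Orthodox`: `e g e g ≡ e e g g ≡ e g`.
`Orthodox → Rev`: for every letter `a` choose `y` with `a y a ≡ a` and put `f a = y a y`; then
`a (f a) a ≡ a` and `(f a) a (f a) ≡ f a`.  By induction on the word `z` (standard fact: in an orthodox
semigroup `b' a'` is an inverse of `a b`): write `z = a z1`, `bar z = bar z1 ++ f a`.  With
`p = (f a) a` and `q = z1 (bar z1)` (idempotents):
`z (bar z) z = a z1 (bar z1) (f a) a z1 = a q p z1`, and `a = a p`, `z1 = q z1`, so it is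
`a p q p q z1 ≡ a p q z1 = a z1` [`(p q)(p q) ≡ p q`]; similarly
`(bar z) z (bar z) = (bar z1) (f a) a z1 (bar z1) (f a) = (bar z1) p q (f a)`, with
`bar z1 = (bar z1) q`, `f a = p (f a)`: `(bar z1) q p q p (f a) ≡ (bar z1) q p (f a) = bar z1 ++ f a`.
(It may be convenient to pass to the quotient monoid, or to write a small calculus of `SynEq`.)
-/

namespace Pool.Agent.DD

variable {A : Type}

/-- syntactic congruence -/
private def orthCon (L : Lang A) : Con (FreeMonoid A) where
  r x y := SynEq L (FreeMonoid.toList x) (FreeMonoid.toList y)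
  iseqv := ⟨fun _ => SynEq.refl L _, fun h => h.symm, fun h h' => h.trans h'⟩
  mul' := fun {w x y z} h h' => by
    rw [FreeMonoid.toList_mul, FreeMonoid.toList_mul]
    exact h.app h'

private def orthPhi (L : Lang A) (x : List A) : (orthCon L).Quotient :=
  ((FreeMonoid.ofList x : FreeMonoid A) : (orthCon L).Quotient)

private theorem orthPhi_append (L : Lang A) (x y : List A) :
    orthPhi L (x ++ y) = orthPhi L x * orthPhi L y := rfl

private theorem orthPhi_nil (L : Lang A) : orthPhi L [] = 1 := rfl

private theorem orthPhi_eq (L : Lang A) (x y : List A) :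
    orthPhi L x = orthPhi L y ↔ SynEq L x y := by
  unfold orthPhi
  rw [Con.eq]
  exact Iff.rfl

private theorem orthPhi_surj (L : Lang A) (m : (orthCon L).Quotient) :
    ∃ x, orthPhi L x = m := by
  induction m using Con.induction_on with
  | _ w => exact ⟨FreeMonoid.toList w, rfl⟩

theorem InvSyn.orthodox {L : Lang A} (h : InvSyn L) : Orthodox L := by
  refine ⟨h.1, fun e g he hg => ?_⟩
  have hc := h.2 e g he hg
  rw [← orthPhi_eq] at he hg hc ⊢
  simp only [orthPhi_append] at he hg hc ⊢
  generalize orthPhi L e = x at he hc ⊢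
  generalize orthPhi L g = y at hg hc ⊢
  calc x * y * (x * y) = x * (y * x) * y := by simp only [mul_assoc]
    _ = x * (x * y) * y := by rw [hc]
    _ = (x * x) * (y * y) := by simp only [mul_assoc]
    _ = x * y := by rw [he, hg]

theorem Orthodox.rev {L : Lang A} (h : Orthodox L) : Rev L := by
  choose y hy using fun a : A => h.1 [a]
  have hid : ∀ p q : (orthCon L).Quotient, p * p = p → q * q = q → p * q * (p * q) = p * q := by
    intro p q hp hq
    obtain ⟨e, rfl⟩ := orthPhi_surj L p
    obtain ⟨g, rfl⟩ := orthPhi_surj L q
    rw [← orthPhi_append, orthPhi_eq] at hp hq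
    have := h.2 e g hp hq
    rw [← orthPhi_eq] at this
    simpa only [orthPhi_append] using this
  refine ⟨fun a => y a ++ [a] ++ y a, fun z => ?_⟩
  rw [← orthPhi_eq, ← orthPhi_eq]
  simp only [orthPhi_append]
  induction z with
  | nil => simp [bar, orthPhi_nil]
  | cons a z ih =>
    have e1 : orthPhi L (a :: z) = orthPhi L [a] * orthPhi L z := rfl
    have e2 : orthPhi L (bar (fun a => y a ++ [a] ++ y a) (a :: z))
        = orthPhi L (bar (fun a => y a ++ [a] ++ y a) z) * (orthPhi L (y a) * orthPhi L [a]
          * orthPhi L (y a)) := rfl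
    have hya : orthPhi L [a] * orthPhi L (y a) * orthPhi L [a] = orthPhi L [a] := by
      have := (orthPhi_eq L _ _).mpr (hy a)
      simpa only [orthPhi_append] using this
    rw [e1, e2]
    generalize orthPhi L (bar (fun a => y a ++ [a] ++ y a) z) = b at ih ⊢
    generalize orthPhi L z = w at ih ⊢
    generalize orthPhi L [a] = α at hya ⊢
    generalize orthPhi L (y a) = η at hya ⊢
    obtain ⟨h1, h2⟩ := ih
    have hf1 : α * (η * α * η) * α = α := by
      calc α * (η * α * η) * α = (α * η * α) * η * α := by simp only [mul_assoc]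
        _ = α := by rw [hya, hya]
    have hf2 : (η * α * η) * α * (η * α * η) = η * α * η := by
      calc (η * α * η) * α * (η * α * η) = η * (α * η * α) * (η * α * η) := by
            simp only [mul_assoc]
        _ = η * α * (η * α * η) := by rw [hya]
        _ = η * (α * η * α) * η := by simp only [mul_assoc]
        _ = η * α * η := by rw [hya]
    generalize η * α * η = φ at hf1 hf2 ⊢
    have hp : φ * α * (φ * α) = φ * α := by
      calc φ * α * (φ * α) = (φ * α * φ) * α := by simp only [mul_assoc]
        _ = φ * α := by rw [hf2]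
    have hq : w * b * (w * b) = w * b := by
      calc w * b * (w * b) = (w * b * w) * b := by simp only [mul_assoc]
        _ = w * b := by rw [h1]
    have hpq := hid _ _ hp hq
    have hqp := hid _ _ hq hp
    constructor
    · calc α * w * (b * φ) * (α * w) = α * (w * b) * (φ * α) * w := by simp only [mul_assoc]
        _ = (α * φ * α) * (w * b) * (φ * α) * (w * b * w) := by rw [hf1, h1]
        _ = α * (φ * α * (w * b) * (φ * α * (w * b))) * w := by simp only [mul_assoc]
        _ = α * (φ * α * (w * b)) * w := by rw [hpq]
        _ = (α * φ * α) * (w * b * w) := by simp only [mul_assoc]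
        _ = α * w := by rw [hf1, h1]
    · calc b * φ * (α * w) * (b * φ) = b * (φ * α) * (w * b) * φ := by simp only [mul_assoc]
        _ = (b * w * b) * (φ * α) * (w * b) * (φ * α * φ) := by rw [hf2, h2]
        _ = b * (w * b * (φ * α) * (w * b * (φ * α))) * φ := by simp only [mul_assoc]
        _ = b * (w * b * (φ * α)) * φ := by rw [hqp]
        _ = (b * w * b) * (φ * α * φ) := by simp only [mul_assoc]
        _ = b * φ := by rw [hf2, h2]

end Pool.Agent.DD
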