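import Pool.Agent.DD.Main
import Pool.Agent.DD.Orth
import Pool.Agent.DD.CompB
import Pool.Agent.DD.CompC
import Pool.Agent.DD.DyckB
import Pool.Agent.DD.DyckC

/-!
# DD-Final: assembly
-/

namespace Pool.Agent.DD

/-- On the reversible languages, membership in every level is decidable. -/
theorem computable_rev (m i : ℕ) : ∃ F : Code → Bool, Computable F ∧
    ∀ c : Code, Rev (langC m c) → (F c = true ↔ langC m c ∈ B (Fin m) i) := by
  obtain ⟨hd, hc⟩ := comp_finite m {L : Lang (Fin m) | L ∈ B (Fin m) i ∧ Rev L} (finite_rev i)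
    (fun L hL => exists_code (rec_B hL.1))
  refine ⟨_, hc, fun c hr => ?_⟩
  simp [hr]

/-- The reversible star-free languages are not contained in any level. -/
theorem exists_high (m i : ℕ) (hm : 2 ≤ m) :
    ∃ L : Lang (Fin m), InvSyn L ∧ (∃ j, L ∈ B (Fin m) j) ∧ L ∉ B (Fin m) i := by
  by_contra hcon
  push Not at hcon
  have hfin := finite_rev (A := Fin m) i
  have hsub : Set.range (Dn m) ⊆ {L : Lang (Fin m) | L ∈ B (Fin m) i ∧ Rev L} := by
    rintro _ ⟨n, rfl⟩
    exact ⟨hcon _ (Dn_invSyn m n hm) (Dn_mem_B m n hm), (Dn_invSyn m n hm).orthodox.rev⟩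
  exact Set.infinite_range_of_injective (Dn_injective m hm) (hfin.subset hsub)

end Pool.Agent.DD
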