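import Pool.Agent.DD.Defs

/-!
# DD-Generic: generic loops (minimal ideal of a finite aperiodic semigroup)

Plan.
* `exists_generic_mem`: in a finite monoid `N` with `n^(k+1) = n^k` for all `n`, every nonempty
  subset `S` closed under multiplication contains `q` with `q h q = q` for all `h ∈ S`.
  Proof: choose `q ∈ S` such that the set `S q S = {a q b | a b ∈ S}` has minimal cardinality
  (or use any minimality argument giving: for every `h ∈ S` there are `a b ∈ S` with
  `q = a (q h q) b`; e.g. first take an element `q0` of the minimal ideal).  Put `X = q h q`.  Then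
  `q = a X b`.  Hence `q = (a q h) q b = (a q h)^k q b^k`, so `(a q h) q = q`, i.e. `q = a X`
  [since `(a q h)^(k+1) = (a q h)^k`]; similarly `q = q (h q b)`, i.e. `q = X b`.
  Also `X = d q` with `d = q h`.  So `X = d q = d X b = d^k X b^k`, hence `d X = X`; then
  `X = d q = d (X b) = (d X) b = X b = q`.
  Existence of a suitable `q`: the finite set `S`; for `q ∈ S` let
  `I q = {x | ∃ a b ∈ S, x = a q b}`; choose `q ∈ S` with `Set.ncard (I q)` minimal, then
  for `h ∈ S`: `I (q h q) ⊆ I q` so they are equal, and `q' = q q q ∈ I q = I (q' h' q')`...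
  (replace `q` by `q^3` to have `q ∈ I q`); any correct argument will do.
* `exists_common_rec`: for a list of languages with `Rec` there is one finite aperiodic monoid and
  one morphism working for all of them (product, induction on the list; the empty list: `Unit`).
* `exists_generic`: combine: `S = φ '' H`.
  `φ x = φ y` implies `SynEq Q x y`.
-/

namespace Pool.Agent.DD

variable {A : Type}

theorem exists_generic_mem {N : Type} [Monoid N] [Finite N] {k : ℕ}
    (hk : ∀ n : N, n ^ (k + 1) = n ^ k) (S : Set N) (hne : S.Nonempty)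
    (hmul : ∀ x ∈ S, ∀ y ∈ S, x * y ∈ S) : ∃ q ∈ S, ∀ h ∈ S, q * h * q = q := by
  classical
  obtain ⟨q, hq, hmin⟩ : ∃ q ∈ S, ∀ p ∈ S,
      ({x | ∃ a ∈ S, ∃ b ∈ S, x = a * q * b} : Set N).ncard ≤
        ({x | ∃ a ∈ S, ∃ b ∈ S, x = a * p * b} : Set N).ncard :=
    Set.exists_min_image S (fun p => ({x | ∃ a ∈ S, ∃ b ∈ S, x = a * p * b} : Set N).ncard)
      (Set.toFinite S) hne
  have hq3 : q * q * q ∈ S := hmul _ (hmul _ hq _ hq) _ hq
  refine ⟨q * q * q, hq3, fun h hh => ?_⟩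
  have hX : q * q * q * h * (q * q * q) ∈ S := hmul _ (hmul _ hq3 _ hh) _ hq3
  have hsub : ({x | ∃ a ∈ S, ∃ b ∈ S, x = a * (q * q * q * h * (q * q * q)) * b} : Set N) ⊆
      {x | ∃ a ∈ S, ∃ b ∈ S, x = a * q * b} := by
    rintro x ⟨a, ha, b, hb, rfl⟩
    refine ⟨a * q * q, hmul _ (hmul _ ha _ hq) _ hq, h * (q * q * q) * b,
      hmul _ (hmul _ hh _ hq3) _ hb, ?_⟩
    simp only [mul_assoc]
  have heq := Set.eq_of_subset_of_ncard_le hsub (hmin _ hX) (Set.toFinite _)
  have hmem : q * q * q ∈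
      ({x | ∃ a ∈ S, ∃ b ∈ S, x = a * (q * q * q * h * (q * q * q)) * b} : Set N) := by
    rw [heq]
    exact ⟨q, hq, q, hq, rfl⟩
  obtain ⟨a, -, b, -, hab⟩ := hmem
  generalize q * q * q = Q at hab
  have key1 : ∀ m : ℕ, Q = (a * Q * h) ^ m * Q * b ^ m := by
    intro m
    induction m with
    | zero => simp
    | succ m ih =>
        calc Q = a * (Q * h * Q) * b := hab
          _ = (a * Q * h) * Q * b := by simp only [mul_assoc]
          _ = (a * Q * h) * ((a * Q * h) ^ m * Q * b ^ m) * b := by rw [← ih]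
          _ = (a * Q * h) ^ (m + 1) * Q * b ^ (m + 1) := by
            rw [pow_succ' (a * Q * h) m, pow_succ b m]; simp only [mul_assoc]
  have key2 : ∀ m : ℕ, Q = a ^ m * Q * (h * Q * b) ^ m := by
    intro m
    induction m with
    | zero => simp
    | succ m ih =>
        calc Q = a * (Q * h * Q) * b := hab
          _ = a * Q * (h * Q * b) := by simp only [mul_assoc]
          _ = a * (a ^ m * Q * (h * Q * b) ^ m) * (h * Q * b) := by rw [← ih]
          _ = a ^ (m + 1) * Q * (h * Q * b) ^ (m + 1) := by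
            rw [pow_succ' a m, pow_succ (h * Q * b) m]; simp only [mul_assoc]
  have h2 : Q * h * Q * b = Q := by
    calc Q * h * Q * b = Q * (h * Q * b) := by simp only [mul_assoc]
      _ = a ^ k * Q * (h * Q * b) ^ k * (h * Q * b) := by rw [← key2 k]
      _ = a ^ k * Q * ((h * Q * b) ^ k * (h * Q * b)) := by simp only [mul_assoc]
      _ = Q := by rw [← pow_succ, hk, ← key2 k]
  have key3 : ∀ m : ℕ, Q * h * Q = (Q * h) ^ m * (Q * h * Q) * b ^ m := by
    intro m
    induction m with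
    | zero => simp
    | succ m ih =>
        calc Q * h * Q = Q * h * (Q * h * Q * b) := by rw [h2]
          _ = Q * h * ((Q * h) ^ m * (Q * h * Q) * b ^ m) * b := by
            rw [← ih]; simp only [mul_assoc]
          _ = (Q * h) ^ (m + 1) * (Q * h * Q) * b ^ (m + 1) := by
            rw [pow_succ' (Q * h) m, pow_succ b m]; simp only [mul_assoc]
  have h3 : Q * h * (Q * h * Q) = Q * h * Q := by
    calc Q * h * (Q * h * Q) = Q * h * ((Q * h) ^ k * (Q * h * Q) * b ^ k) := by rw [← key3 k]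
      _ = Q * h * (Q * h) ^ k * (Q * h * Q) * b ^ k := by simp only [mul_assoc]
      _ = Q * h * Q := by rw [← pow_succ', hk, ← key3 k]
  calc Q * h * Q = Q * h * (Q * h * Q * b) := by rw [h2]
    _ = Q * h * (Q * h * Q) * b := by simp only [mul_assoc]
    _ = Q := by rw [h3, h2]

theorem exists_common_rec (Qs : List (Lang A)) (hQ : ∀ Q ∈ Qs, Rec Q) :
    ∃ (N : Type) (_ : Monoid N) (_ : Finite N) (φ : List A → N),
      φ [] = 1 ∧ (∀ x y, φ (x ++ y) = φ x * φ y) ∧ (∃ k : ℕ, ∀ n : N, n ^ (k + 1) = n ^ k) ∧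
      ∀ Q ∈ Qs, ∀ x y, φ x = φ y → (x ∈ Q ↔ y ∈ Q) := by
  induction Qs with
  | nil =>
      exact ⟨Unit, inferInstance, inferInstance, fun _ => 1, rfl, fun _ _ => rfl,
        ⟨0, fun _ => rfl⟩, fun Q hQ => absurd hQ (by simp)⟩
  | cons Q₀ Qs ih =>
      obtain ⟨N₁, i₁, f₁, φ₁, h1, h2, ⟨k₁, h3⟩, h4⟩ := hQ Q₀ (by simp)
      obtain ⟨N₂, i₂, f₂, φ₂, g1, g2, ⟨k₂, g3⟩, g4⟩ := ih fun Q hQ' => hQ Q (by simp [hQ'])
      refine ⟨N₁ × N₂, inferInstance, inferInstance, fun x => (φ₁ x, φ₂ x),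
        Prod.ext h1 g1, fun x y => Prod.ext (h2 x y) (g2 x y), ⟨k₁ + k₂, fun n => ?_⟩, ?_⟩
      · refine Prod.ext ?_ ?_
        · show n.1 ^ (k₁ + k₂ + 1) = n.1 ^ (k₁ + k₂)
          rw [show k₁ + k₂ + 1 = (k₁ + 1) + k₂ by omega, pow_add, h3, ← pow_add]
        · show n.2 ^ (k₁ + k₂ + 1) = n.2 ^ (k₁ + k₂)
          rw [show k₁ + k₂ + 1 = (k₂ + 1) + k₁ by omega, pow_add, g3, ← pow_add, add_comm]
      · intro Q hQ' x y hxy
        have e1 : φ₁ x = φ₁ y := congrArg Prod.fst hxy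
        have e2 : φ₂ x = φ₂ y := congrArg Prod.snd hxy
        rcases List.mem_cons.1 hQ' with rfl | hQ'
        · exact h4 x y e1
        · exact g4 Q hQ' x y e2

/-- Main result of this module. -/
theorem exists_generic (Qs : List (Lang A)) (hQ : ∀ Q ∈ Qs, Rec Q) (H : Set (List A))
    (hne : H.Nonempty) (happ : ∀ x ∈ H, ∀ y ∈ H, x ++ y ∈ H) :
    ∃ q ∈ H, ∀ h ∈ H, ∀ Q ∈ Qs, SynEq Q q (q ++ h ++ q) := by
  obtain ⟨N, i, f, φ, h1, h2, ⟨k, h3⟩, h4⟩ := exists_common_rec Qs hQ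
  obtain ⟨q', ⟨q, hq, rfl⟩, hq'⟩ := exists_generic_mem h3 (φ '' H) (hne.image φ) (by
    rintro _ ⟨x, hx, rfl⟩ _ ⟨y, hy, rfl⟩
    exact ⟨x ++ y, happ x hx y hy, h2 x y⟩)
  refine ⟨q, hq, fun h hh Q hQ' s t => ?_⟩
  have e := hq' (φ h) ⟨h, hh, rfl⟩
  apply h4 Q hQ'
  rw [h2, h2, h2 (s ++ (q ++ h ++ q)), h2 s, h2 (q ++ h), h2 q, e]

end Pool.Agent.DD
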