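import Pool.Agent.DD.Defs

/-!
# DD-Geo: geodesic words

Plan.
* `finite_of_bounded`: if every word is equivalent to a word of length `≤ n`, then `L` is determined
  by the function `δ : {words of length ≤ n} × A → {words of length ≤ n}` (`δ (y, a)` = a word of
  length `≤ n` equivalent to `y ++ [a]`), and by the set `{y : |y| ≤ n, y ∈ L}`: for every word
  `x`, the word `foldl δ [] x` is equivalent to `x`.  There are finitely many such pairs
  (`List.finite_length_le` or similar; `Set.Finite.of_injOn`/`Set.Finite.subset (Set.finite_range _)`: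
  show that the set is contained in the range of the map
  `(δ, F) ↦ {x | foldl δ [] x ∈ F}` from the finite type of pairs).
* `geo_unbounded`: for given `n` some `L ∈ F` is not in the finite set of `finite_of_bounded n`; take
  a shortest word `w` that is not equivalent to any word of length `≤ n`; then `w` is geodesic (if
  `w ≡ y` with `|y| < |w|`, then `y` is not equivalent to a word of length `≤ n` either) and
  `|w| > n`.
* `Geod.fac`: `w = s u t`, `u ≡ y` gives `w ≡ s y t`.
-/

namespace Pool.Agent.DD

variable {A : Type}

private theorem geo_foldl {L : Lang A} {n : ℕ} (g : List A → {w : List A | w.length ≤ n})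
    (hg : ∀ x, SynEq L x (g x).1) (x : List A) :
    SynEq L x (x.foldl (fun (y : {w : List A | w.length ≤ n}) (a : A) => g (y.1 ++ [a]))
      ⟨[], by simp⟩).1 := by
  induction x using List.reverseRecOn with
  | nil => exact SynEq.refl L _
  | append_singleton x a ih =>
      rw [List.foldl_append]
      simp only [List.foldl_cons, List.foldl_nil]
      exact (ih.right [a]).trans (hg _)

theorem finite_of_bounded [Finite A] (n : ℕ) :
    {L : Lang A | ∀ x, ∃ y : List A, y.length ≤ n ∧ SynEq L x y}.Finite := by
  classical
  have hW : {w : List A | w.length ≤ n}.Finite := List.finite_length_le A n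
  have : Finite {w : List A | w.length ≤ n} := hW
  have hfin : (Set.range (fun q : ({w : List A | w.length ≤ n} → A → {w : List A | w.length ≤ n}) ×
      Set {w : List A | w.length ≤ n} =>
      ({x | x.foldl q.1 ⟨[], by simp⟩ ∈ q.2} : Lang A))).Finite := Set.finite_range _
  refine hfin.subset ?_
  intro L hL
  choose g hg1 hg2 using hL
  refine ⟨(fun y a => ⟨g (y.1 ++ [a]), hg1 _⟩, {y | y.1 ∈ L}), ?_⟩
  ext x
  have h := geo_foldl (L := L) (n := n) (fun x => ⟨g x, hg1 x⟩) hg2 x
  exact h.mem.symm

theorem geo_unbounded [Finite A] {F : Set (Lang A)} (hF : F.Infinite) (n : ℕ) :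
    ∃ L ∈ F, ∃ w, n ≤ w.length ∧ Geod L w := by
  classical
  obtain ⟨L, hL, hL'⟩ := hF.exists_notMem_finite (finite_of_bounded (A := A) n)
  refine ⟨L, hL, ?_⟩
  simp only [Set.mem_setOf_eq, not_forall, not_exists, not_and] at hL'
  obtain ⟨x₀, hx₀⟩ := hL'
  have hex : ∃ k, ∃ x : List A, x.length = k ∧ ∀ y : List A, y.length ≤ n → ¬ SynEq L x y :=
    ⟨_, x₀, rfl, hx₀⟩
  obtain ⟨x, hx1, hx2⟩ := Nat.find_spec hex
  refine ⟨x, ?_, ?_⟩
  · by_contra hlt
    exact hx2 x (by omega) (SynEq.refl L x)
  · intro y hy
    by_contra hlt
    have hlt' : y.length < Nat.find hex := by omega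
    have := Nat.find_min hex hlt'
    simp only [not_exists, not_and, not_forall, not_not] at this
    obtain ⟨z, hz1, hz2⟩ := this y rfl
    exact hx2 z hz1 (hy.trans hz2)

theorem Geod.fac {L : Lang A} {w u : List A} (h : Geod L w) (hu : u <:+: w) : Geod L u := by
  obtain ⟨s, t, rfl⟩ := hu
  intro y hy
  have := h (s ++ y ++ t) ((hy.left s).right t)
  simp only [List.length_append] at this
  omega

end Pool.Agent.DD
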