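import Pool.Agent.DD.Defs

/-!
# DD-Jump: the jump lemma

If `E ≡ E E` and `E ≡ E Z E` for all the factors `L₀, Ls` of a product `P = L₀ L₁ ... L_r`, and
`m ≥ r + 1`, then `s E^m t ∈ P` implies `s E^a Z E^b t ∈ P` for all `a, b ≥ m`.

Plan: first `E ≡ E^c Z E^d` (for `c, d ≥ 1`) for every factor.  Induction on the list `Ls`,
generalizing `L₀, s, m, a, b`.
* `Ls = []`: `s E^m t = s E E^(m-1) t ∈ L₀`; replace the first `E` by `E^a Z E^(b-m+1)`.
* `Ls = K :: Ks`: `s E^m t = p p'`, `p ∈ L₀`, `p' ∈ catList K Ks`.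
  (i) `|p| ≤ |s|`: `s = p s'`, `p' = s' E^m t`; induction hypothesis with the same `m, a, b`.
  (ii) `|s| + |E| ≤ |p|`: `p = s E α`, `E^(m-1) t = α p'`; then `s E^a Z E^(b-m+1) α ∈ L₀`, and
  `s E^a Z E^(b-m+1) α p' = s E^a Z E^b t`.
  (iii) `|s| < |p| < |s| + |E|`: `E = α β`, `p = s α`, `p' = β E^(m-1) t`; induction hypothesis with
  `m - 1, a - 1, b`: `β E^(a-1) Z E^b t ∈ catList K Ks`, and
  `s α β E^(a-1) Z E^b t = s E^a Z E^b t`.
  (`List.append_eq_append_iff` gives the case distinction.)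
-/

namespace Pool.Agent.DD

variable {A : Type}

private theorem jump_key {L : Lang A} {E Z : List A} (hE : SynEq L E (E ++ E))
    (hZ : SynEq L E (E ++ Z ++ E)) {c d : ℕ} (hc : 1 ≤ c) (hd : 1 ≤ d) :
    SynEq L E (pw E c ++ Z ++ pw E d) :=
  hZ.trans (((hE.pw hc).app (SynEq.refl L Z)).app (hE.pw hd))

theorem jump_aux (E Z : List A) (Ls : List (Lang A)) : ∀ (L₀ : Lang A),
    (∀ L ∈ L₀ :: Ls, SynEq L E (E ++ E) ∧ SynEq L E (E ++ Z ++ E)) →
    ∀ (m a b : ℕ), Ls.length + 1 ≤ m → m ≤ a → m ≤ b → ∀ s t : List A,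
      s ++ pw E m ++ t ∈ catList L₀ Ls → s ++ (pw E a ++ Z ++ pw E b) ++ t ∈ catList L₀ Ls := by
  induction Ls with
  | nil =>
      intro L₀ hL m a b hm ha hb s t h
      obtain ⟨h1, h2⟩ := hL L₀ (by simp)
      simp only [List.length_nil, zero_add] at hm
      exact (jump_key h1 h2 (hm.trans ha) (hm.trans hb) s t).1 ((h1.pw hm s t).2 h)
  | cons K Ks ih =>
      intro L₀ hL m a b hm ha hb s t h
      obtain ⟨h1, h2⟩ := hL L₀ (by simp)
      have hK : ∀ L ∈ K :: Ks, SynEq L E (E ++ E) ∧ SynEq L E (E ++ Z ++ E) :=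
        fun L hL' => hL L (List.mem_cons_of_mem _ hL')
      simp only [List.length_cons] at hm
      obtain ⟨m', rfl⟩ : ∃ m', m = m' + 1 := ⟨m - 1, by omega⟩
      obtain ⟨p, hp, p', hp', hpp⟩ := h
      have hpp' : s ++ (E ++ (pw E m' ++ t)) = p ++ p' := by
        rw [← hpp, pw_succ]
        simp only [List.append_assoc]
      rcases List.append_eq_append_iff.1 hpp' with ⟨as, has, has'⟩ | ⟨bs, hbs, hbs'⟩
      · rcases List.append_eq_append_iff.1 has' with ⟨α, hα, hα'⟩ | ⟨β, hβ, hβ'⟩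
        · -- case (ii)
          have hb1 : 1 ≤ b - m' := by omega
          have hbm : pw E b = pw E (b - m') ++ pw E m' := by
            rw [← pw_add]
            congr 1
            omega
          have hp2 : s ++ E ++ α ∈ L₀ := by
            rw [has, hα] at hp
            simpa only [List.append_assoc] using hp
          have h3 := (jump_key h1 h2 (show 1 ≤ a by omega) hb1 s α).1 hp2
          refine ⟨_, h3, p', hp', ?_⟩
          rw [hbm]
          simp only [List.append_assoc]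
          rw [hα']
        · -- case (iii)
          obtain ⟨a', rfl⟩ : ∃ a', a = a' + 1 := ⟨a - 1, by omega⟩
          have hp2 : β ++ pw E m' ++ t ∈ catList K Ks := by
            rw [hβ'] at hp'
            simpa only [List.append_assoc] using hp'
          have h3 := ih K hK m' a' b (by omega) (by omega) (by omega) β t hp2
          refine ⟨p, hp, _, h3, ?_⟩
          rw [pw_succ, has]
          simp only [List.append_assoc]
          nth_rewrite 1 [hβ]
          simp only [List.append_assoc]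
      · -- case (i)
        have hp2 : bs ++ pw E (m' + 1) ++ t ∈ catList K Ks := by
          rw [hbs'] at hp'
          rw [pw_succ]
          simpa only [List.append_assoc] using hp'
        have h3 := ih K hK (m' + 1) a b (by omega) ha hb bs t hp2
        refine ⟨p, hp, _, h3, ?_⟩
        rw [hbs]
        simp only [List.append_assoc]

/-- Main result of this module.  `Qs` contains all the factors, `Ps` is a list of products of at
most `m` members of `Qs`. -/
theorem jump (E Z : List A) (Qs Ps : List (Lang A)) (m : ℕ)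
    (hP : ∀ P ∈ Ps, ∃ L₀ ∈ Qs, ∃ Ls : List (Lang A), (∀ K ∈ Ls, K ∈ Qs) ∧ P = catList L₀ Ls ∧
      Ls.length + 1 ≤ m)
    (hE : ∀ L ∈ Qs, SynEq L E (E ++ E)) (hZ : ∀ L ∈ Qs, SynEq L E (E ++ Z ++ E)) :
    Below Ps (pw E m) (pw E m ++ Z ++ pw E m) := by
  intro P hPm s t hx
  obtain ⟨L₀, hL₀, Ls, hLs, rfl, hlen⟩ := hP P hPm
  refine jump_aux E Z Ls L₀ ?_ m m m hlen le_rfl le_rfl s t hx
  intro L hL
  rcases List.mem_cons.1 hL with rfl | hL
  · exact ⟨hE _ hL₀, hZ _ hL₀⟩
  · exact ⟨hE _ (hLs L hL), hZ _ (hLs L hL)⟩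

end Pool.Agent.DD
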