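import Pool.Agent.DD.Defs

/-!
# DD-Recur: uniformly recurrent sets of words

Every factor closed set of words over a finite alphabet with arbitrarily long words contains a
uniformly recurrent one (`URec`, Defs.lean).

Plan: Zorn (`zorn_superset_nonempty` or `zorn_superset`) on the sets `G' ⊆ G` that are closed under
factors and contain arbitrarily long words (equivalently, words of every length).  Lower bound of a
nonempty chain: the intersection; for every `n` the finite sets `{w ∈ G' : |w| = n}` (`G'` in the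
chain) are nonempty and totally ordered, so their intersection is nonempty (the alphabet is finite,
`List.finite_length_eq` or similar; take the member with `ncard` minimal).
A minimal `G'` is uniformly recurrent: for `u ∈ G'` there is `R_u` such that every `w ∈ G'` of length
`≥ R_u` has `u` as a factor; otherwise `{w ∈ G' : ¬ u <:+: w}` is factor closed with arbitrarily long
words, hence equal to `G'` by minimality, but `u ∈ G'` has the factor `u`.  Then take the maximum
of `R_u` over the finitely many `u` of length `≤ n`.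
-/

namespace Pool.Agent.DD

variable {A : Type}

private theorem recur_take {G : Set (List A)} (hf : ∀ w ∈ G, ∀ u, u <:+: w → u ∈ G)
    (hl : ∀ n, ∃ w ∈ G, n ≤ w.length) (n : ℕ) : ∃ w ∈ G, w.length = n := by
  obtain ⟨w, hw, hn⟩ := hl n
  refine ⟨w.take n, hf w hw _ (List.take_prefix n w).isInfix, ?_⟩
  rw [List.length_take]
  exact min_eq_left hn

private theorem recur_chain (c : Set (Set (List A))) (hc : IsChain (· ⊆ ·) c) (hne : c.Nonempty)
    (W : Set (List A)) (hW : W.Finite) (h : ∀ w ∈ W, ∃ s ∈ c, w ∉ s) :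
    ∃ s ∈ c, ∀ w ∈ W, w ∉ s := by
  induction W, hW using Set.Finite.induction_on with
  | empty =>
      obtain ⟨s, hs⟩ := hne
      exact ⟨s, hs, by simp⟩
  | @insert a W _ _ ih =>
      obtain ⟨s, hs, h1⟩ := ih (fun w hw => h w (Set.mem_insert_of_mem a hw))
      obtain ⟨s', hs', h2⟩ := h a (Set.mem_insert a W)
      rcases hc.total hs hs' with hss | hss
      · refine ⟨s, hs, ?_⟩
        intro w hw
        rcases Set.mem_insert_iff.1 hw with rfl | hw
        · exact fun hws => h2 (hss hws)
        · exact h1 w hw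
      · refine ⟨s', hs', ?_⟩
        intro w hw
        rcases Set.mem_insert_iff.1 hw with rfl | hw
        · exact h2
        · exact fun hws => h1 w hw (hss hws)

theorem exists_urec [Finite A] (G : Set (List A))
    (hf : ∀ w ∈ G, ∀ u, u <:+: w → u ∈ G) (hl : ∀ n, ∃ w ∈ G, n ≤ w.length) :
    ∃ G' ⊆ G, URec G' := by
  let S : Set (Set (List A)) :=
    {G' | (∀ w ∈ G', ∀ u, u <:+: w → u ∈ G') ∧ ∀ n, ∃ w ∈ G', w.length = n}
  have hGS : G ∈ S := ⟨hf, recur_take hf hl⟩
  obtain ⟨M, hMG, hM⟩ := zorn_superset_nonempty S (by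
    intro c hcS hc hne
    refine ⟨⋂₀ c, ⟨?_, ?_⟩, fun s hs => Set.sInter_subset_of_mem hs⟩
    · intro w hw u hu
      rw [Set.mem_sInter] at hw ⊢
      exact fun s hs => (hcS hs).1 w (hw s hs) u hu
    · intro n
      by_contra hcon
      push Not at hcon
      obtain ⟨s, hs, h1⟩ := recur_chain c hc hne {w | w.length = n} (List.finite_length_eq A n) (by
        intro w hw
        have h2 : w ∉ ⋂₀ c := fun h3 => hcon w h3 hw
        rw [Set.mem_sInter] at h2
        push Not at h2
        exact h2)
      obtain ⟨w, hw, hwn⟩ := (hcS hs).2 n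
      exact h1 w hwn hw) G hGS
  obtain ⟨hMf, hMl⟩ : M ∈ S := hM.prop
  refine ⟨M, hMG, hMf, fun n => ?_, fun n => ?_⟩
  · obtain ⟨w, hw, hn⟩ := hMl n
    exact ⟨w, hw, hn.ge⟩
  · have key : ∀ u : List A, ∃ R, u ∈ M → ∀ w ∈ M, R ≤ w.length → u <:+: w := by
      intro u
      by_cases hu : u ∈ M
      · by_contra hcon
        push Not at hcon
        have hf' : ∀ w ∈ {w | w ∈ M ∧ ¬ u <:+: w}, ∀ v, v <:+: w → v ∈ {w | w ∈ M ∧ ¬ u <:+: w} := by
          rintro w ⟨hw, huw⟩ v hv
          exact ⟨hMf w hw v hv, fun h => huw (h.trans hv)⟩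
        have hmem : {w | w ∈ M ∧ ¬ u <:+: w} ∈ S := by
          refine ⟨hf', recur_take hf' fun k => ?_⟩
          obtain ⟨_, w, hw, hk, hnu⟩ := hcon k
          exact ⟨w, ⟨hw, hnu⟩, hk⟩
        have hsub := hM.le_of_le hmem (fun w hw => hw.1)
        exact (hsub hu).2 (List.infix_refl u)
      · exact ⟨0, fun h => absurd h hu⟩
    choose R hR using key
    obtain ⟨N, hN⟩ := ((List.finite_length_le A n).image R).bddAbove
    refine ⟨N, fun w hw hNw u hu hun => hR u hu w hw (le_trans (hN ⟨u, hun, rfl⟩) hNw)⟩

end Pool.Agent.DD
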