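import Pool.Agent.DD.ZigComb

/-!
# DD-Zig: reduction of walks in a language with a reversing map

If `f` is a reversing map for `L` and `u` is the label of a walk in `w` from `i` to `j`, then
`w.take i ++ u ++ w.drop j` is syntactically equivalent to `w`.

Plan.
1. `lab f w i l` (label of the path `l : List Bool` from position `i`), `lab` of an append,
   `lab f w i (replicate r true) = (w.drop i).take r` and
   `lab f w (i + r) (replicate r false) = bar f ((w.drop i).take r)` when `i + r ≤ |w|`.
2. `Walk.exists_path`: a walk has a path `l` with all the positions in `[0, |w|]`.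
3. `full_path`: a path `l` from `0` to `n = |w|` in `[0, n]` has `SynEq L (lab f w 0 l) w`; strong
   induction on the length of `l`: no `false` in `l`: then `l = replicate n true` and the label is
   `w`.  Otherwise `exists_zigzag`: `l = l1 ++ b^r ++ (!b)^r ++ b^r ++ l2`, apply the induction
   hypothesis to `l' = l1 ++ b^r ++ l2` (every prefix of `l'` has the height of a prefix of `l`), and
   `RevWith`: the label of `b^r (!b)^r b^r` is `z (bar z) z` or `(bar z) z (bar z)`.
4. Apply 3 to `replicate i true ++ l ++ replicate (n - j) true`.
-/

namespace Pool.Agent.DD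

variable {A : Type}

/-- Label of a path (`true` = forward, `false` = backward) starting at position `i`. -/
def lab (f : A → List A) (w : List A) : ℕ → List Bool → List A
  | _, [] => []
  | i, true :: l => (w[i]?).toList ++ lab f w (i + 1) l
  | i, false :: l => (match w[i - 1]? with | some a => f a | none => []) ++ lab f w (i - 1) l

private theorem zig_prefix_split {α : Type} {p a b : List α} (h : p <+: a ++ b) :
    p <+: a ∨ ∃ q, q <+: b ∧ p = a ++ q := by
  rcases le_total p.length a.length with hl | hl
  · left
    exact List.prefix_of_prefix_length_le h (List.prefix_append a b) hl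
  · right
    obtain ⟨q, rfl⟩ := List.prefix_of_prefix_length_le (List.prefix_append a b) h hl
    exact ⟨q, (List.prefix_append_right_inj a).1 h, rfl⟩

private theorem zig_lab_append (f : A → List A) (w : List A) (l l' : List Bool) :
    ∀ (i j : ℕ), (i : ℤ) + ht l = j → (∀ p, p <+: l → 0 ≤ (i : ℤ) + ht p) →
      lab f w i (l ++ l') = lab f w i l ++ lab f w j l' := by
  induction l with
  | nil =>
    intro i j hj _
    have h : i = j := by
      have h1 : (i : ℤ) + 0 = j := hj
      omega
    rw [h]
    simp [lab]
  | cons b l ih =>
    intro i j hj hp
    cases b with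
    | true =>
      have h1 : ht (true :: l) = 1 + ht l := rfl
      rw [List.cons_append]
      simp only [lab]
      rw [ih (i + 1) j (by push_cast; rw [h1] at hj; linarith) ?_, List.append_assoc]
      intro p hpl
      have h2 := hp (true :: p) ((List.prefix_cons_inj true).2 hpl)
      have h3 : ht (true :: p) = 1 + ht p := rfl
      rw [h3] at h2
      push_cast
      linarith
    | false =>
      have h1 : ht (false :: l) = -1 + ht l := rfl
      have h0 := hp [false] ((List.prefix_cons_inj false).2 (List.nil_prefix))
      have h00 : ht [false] = -1 + 0 := rfl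
      rw [h00] at h0
      have hi : 1 ≤ i := by omega
      have hci : ((i - 1 : ℕ) : ℤ) = (i : ℤ) - 1 := by omega
      rw [List.cons_append]
      simp only [lab]
      rw [ih (i - 1) j (by rw [hci]; rw [h1] at hj; linarith) ?_, List.append_assoc]
      intro p hpl
      have h2 := hp (false :: p) ((List.prefix_cons_inj false).2 hpl)
      have h3 : ht (false :: p) = -1 + ht p := rfl
      rw [h3] at h2
      rw [hci]
      linarith

private theorem zig_lab_true (f : A → List A) (w : List A) (r : ℕ) :
    ∀ i, lab f w i (List.replicate r true) = (w.drop i).take r := by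
  induction r with
  | zero => intro i; simp [lab]
  | succ r ih =>
    intro i
    rw [List.replicate_succ]
    simp only [lab]
    rw [ih (i + 1)]
    rcases lt_or_ge i w.length with h | h
    · rw [List.drop_eq_getElem_cons h, List.getElem?_eq_getElem h, List.take_succ_cons]
      rfl
    · rw [List.drop_eq_nil_of_le h, List.drop_eq_nil_of_le (by omega),
        List.getElem?_eq_none h]
      simp

private theorem zig_bar_append (f : A → List A) (x y : List A) :
    bar f (x ++ y) = bar f y ++ bar f x := by
  induction x with
  | nil => simp [bar]
  | cons a x ih =>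
    rw [List.cons_append]
    simp only [bar]
    rw [ih, List.append_assoc]

private theorem zig_lab_false (f : A → List A) (w : List A) (i : ℕ) :
    ∀ r, i + r ≤ w.length →
      lab f w (i + r) (List.replicate r false) = bar f ((w.drop i).take r) := by
  intro r
  induction r with
  | zero => intro _; simp [lab, bar]
  | succ r ih =>
    intro h
    rw [List.replicate_succ]
    have h1 : i + (r + 1) - 1 = i + r := by omega
    have h2 : i + r < w.length := by omega
    simp only [lab]
    rw [h1, ih (by omega), List.getElem?_eq_getElem h2]
    have h3 : (w.drop i).take (r + 1) = (w.drop i).take r ++ [w[i + r]] := by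
      have h4 : r < (w.drop i).length := by rw [List.length_drop]; omega
      rw [List.take_add_one, List.getElem?_drop, List.getElem?_eq_getElem h2]
      rfl
    rw [h3, zig_bar_append]
    simp [bar]

theorem Walk.exists_path {f : A → List A} {w : List A} {i j : ℕ} {u : List A}
    (h : Walk f w i j u) : ∃ l : List Bool, lab f w i l = u ∧ (i : ℤ) + ht l = j ∧
      ∀ p, p <+: l → 0 ≤ (i : ℤ) + ht p ∧ (i : ℤ) + ht p ≤ w.length := by
  induction h with
  | nil i hi =>
    refine ⟨[], rfl, ?_, ?_⟩
    · show (i : ℤ) + 0 = i
      omega
    · intro p hp
      rw [List.prefix_nil.1 hp]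
      show 0 ≤ (i : ℤ) + 0 ∧ (i : ℤ) + 0 ≤ w.length
      omega
  | @fwd i j u a ha _ ih =>
    obtain ⟨l, h1, h2, h3⟩ := ih
    have hi : i < w.length := by
      by_contra hc
      rw [List.getElem?_eq_none (not_lt.1 hc)] at ha
      exact absurd ha (by simp)
    refine ⟨true :: l, ?_, ?_, ?_⟩
    · simp only [lab]
      rw [ha, h1]
      rfl
    · show (i : ℤ) + (1 + ht l) = j
      push_cast at h2
      linarith
    · intro p hp
      cases p with
      | nil =>
        show 0 ≤ (i : ℤ) + 0 ∧ (i : ℤ) + 0 ≤ w.length
        omega
      | cons b p =>
        obtain ⟨hb, hp'⟩ := List.cons_prefix_cons.1 hp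
        subst hb
        have h4 := h3 p hp'
        show 0 ≤ (i : ℤ) + (1 + ht p) ∧ (i : ℤ) + (1 + ht p) ≤ w.length
        push_cast at h4
        omega
  | @bwd i j u a ha _ ih =>
    obtain ⟨l, h1, h2, h3⟩ := ih
    have hi : i < w.length := by
      by_contra hc
      rw [List.getElem?_eq_none (not_lt.1 hc)] at ha
      exact absurd ha (by simp)
    refine ⟨false :: l, ?_, ?_, ?_⟩
    · have e : i + 1 - 1 = i := rfl
      simp only [lab]
      rw [e, ha, h1]
    · show ((i + 1 : ℕ) : ℤ) + (-1 + ht l) = j
      push_cast
      linarith
    · intro p hp
      cases p with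
      | nil =>
        show 0 ≤ ((i + 1 : ℕ) : ℤ) + 0 ∧ ((i + 1 : ℕ) : ℤ) + 0 ≤ w.length
        omega
      | cons b p =>
        obtain ⟨hb, hp'⟩ := List.cons_prefix_cons.1 hp
        subst hb
        have h4 := h3 p hp'
        show 0 ≤ ((i + 1 : ℕ) : ℤ) + (-1 + ht p) ∧ ((i + 1 : ℕ) : ℤ) + (-1 + ht p) ≤ w.length
        push_cast
        omega

private theorem zig_ht_rep (b : Bool) (r : ℕ) :
    ht (List.replicate r b) = (if b then (r : ℤ) else -r) := by
  cases b with
  | true => simpa using ht_replicate_true r
  | false => simpa using ht_replicate_false r

private theorem zig_rev {f : A → List A} {L : Lang A} (hR : RevWith f L) (w : List A) (b : Bool)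
    (r i i' : ℕ) (hi : i ≤ w.length) (hi' : i' ≤ w.length)
    (h : (i : ℤ) + (if b then (r : ℤ) else -r) = i') :
    SynEq L (lab f w i (List.replicate r b) ++ lab f w i' (List.replicate r (!b)) ++
      lab f w i (List.replicate r b)) (lab f w i (List.replicate r b)) := by
  cases b with
  | true =>
    have h1 : i' = i + r := by
      have : (i : ℤ) + r = i' := by simpa using h
      omega
    subst h1
    have e : (!true) = false := rfl
    rw [e, zig_lab_true, zig_lab_false f w i r hi']
    exact (hR _).1
  | false =>
    have h1 : i = i' + r := by
      have : (i : ℤ) + -r = i' := by simpa using h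
      omega
    subst h1
    have e : (!false) = true := rfl
    rw [e, zig_lab_true, zig_lab_false f w i' r hi]
    exact (hR _).2

theorem full_path {f : A → List A} {L : Lang A} (hR : RevWith f L) (w : List A) (l : List Bool)
    (hpre : ∀ p, p <+: l → 0 ≤ ht p ∧ ht p ≤ w.length) (hend : ht l = w.length) :
    SynEq L (lab f w 0 l) w := by
  induction hn : l.length using Nat.strong_induction_on generalizing l with
  | _ N ih =>
    by_cases hf : false ∈ l
    · obtain ⟨l1, l2, b, r, hr, hl⟩ := exists_zigzag l w.length hpre hend hf
      set x := List.replicate r b with hx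
      set y := List.replicate r (!b) with hy
      have hxy : ht y = -ht x := by
        rw [hx, hy, zig_ht_rep, zig_ht_rep]
        cases b <;> simp
      -- heights
      have hlen : l.length = (l1 ++ x ++ l2).length + 2 * r := by
        rw [hl]
        simp only [List.length_append, hx, hy, List.length_replicate]
        ring
      have hht : ht (l1 ++ x ++ l2) = ht l := by
        rw [hl]
        simp only [ht_append, hxy]
        ring
      have hp1 : l1 ++ x <+: l := by
        rw [hl]
        exact ⟨y ++ x ++ l2, by simp only [List.append_assoc]⟩
      have hp0 : l1 <+: l := (List.prefix_append l1 x).trans hp1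
      have hpre' : ∀ p, p <+: l1 ++ x ++ l2 → 0 ≤ ht p ∧ ht p ≤ w.length := by
        intro p hp
        rcases zig_prefix_split hp with h | ⟨q, hq, rfl⟩
        · exact hpre p (h.trans hp1)
        · have h1 := hpre (l1 ++ x ++ y ++ x ++ q) (by
            rw [hl]
            exact (List.prefix_append_right_inj _).2 hq)
          have h2 : ht (l1 ++ x ++ y ++ x ++ q) = ht (l1 ++ x ++ q) := by
            simp only [ht_append, hxy]
            ring
          rw [h2] at h1
          exact h1
      have hih := ih (l1 ++ x ++ l2).length (by omega) (l1 ++ x ++ l2) hpre' (hht.trans hend) rfl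
      -- positions
      obtain ⟨hi0, hi1⟩ := hpre l1 hp0
      obtain ⟨hj0, hj1⟩ := hpre (l1 ++ x) hp1
      obtain ⟨i, hi⟩ := Int.eq_ofNat_of_zero_le hi0
      obtain ⟨j, hj⟩ := Int.eq_ofNat_of_zero_le hj0
      have hiw : i ≤ w.length := by omega
      have hjw : j ≤ w.length := by omega
      rw [ht_append, hi] at hj
      have hpos1 : ∀ p, p <+: l1 → 0 ≤ ((0 : ℕ) : ℤ) + ht p := by
        intro p hp
        have := (hpre p (hp.trans hp0)).1
        push_cast
        linarith
      have hposx : ∀ p, p <+: x → 0 ≤ (i : ℤ) + ht p := by
        intro p hp
        have h1 := (hpre (l1 ++ p) (((List.prefix_append_right_inj l1).2 hp).trans hp1)).1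
        rw [ht_append, hi] at h1
        exact h1
      have hposy : ∀ p, p <+: y → 0 ≤ (j : ℤ) + ht p := by
        intro p hp
        have h1 := (hpre (l1 ++ x ++ p) (by
          rw [hl]
          refine ((List.prefix_append_right_inj (l1 ++ x)).2 hp).trans ?_
          exact ⟨x ++ l2, by simp only [List.append_assoc]⟩)).1
        rw [ht_append, ht_append, hi, hj] at h1
        exact h1
      have hyj : (j : ℤ) + ht y = i := by rw [hxy]; linarith
      have e1 : lab f w 0 l = lab f w 0 l1 ++ (lab f w i x ++ lab f w j y ++ lab f w i x) ++
          lab f w j l2 := by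
        have e0 : l = l1 ++ (x ++ (y ++ (x ++ l2))) := by rw [hl]; simp only [List.append_assoc]
        rw [e0, zig_lab_append f w l1 _ 0 i (by rw [hi]; push_cast; ring) hpos1,
          zig_lab_append f w x _ i j hj hposx, zig_lab_append f w y _ j i hyj hposy,
          zig_lab_append f w x _ i j hj hposx]
        simp only [List.append_assoc]
      have e2 : lab f w 0 (l1 ++ x ++ l2) = lab f w 0 l1 ++ lab f w i x ++ lab f w j l2 := by
        rw [List.append_assoc, zig_lab_append f w l1 _ 0 i (by rw [hi]; push_cast; ring) hpos1,
          zig_lab_append f w x _ i j hj hposx, List.append_assoc]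
      rw [e2] at hih
      rw [e1]
      refine SynEq.trans ?_ hih
      refine (SynEq.left ?_ _).right _
      exact zig_rev hR w b r i j hiw hjw (by rw [hx, zig_ht_rep] at hj; exact hj)
    · have h1 : l = List.replicate l.length true := by
        rw [List.eq_replicate_iff]
        refine ⟨rfl, fun b hb => ?_⟩
        cases b with
        | true => rfl
        | false => exact absurd hb hf
      have h2 : ht l = l.length := by
        conv_lhs => rw [h1]
        exact ht_replicate_true _
      have h3 : l.length = w.length := by
        rw [h2] at hend
        exact_mod_cast hend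
      have h4 : lab f w 0 l = w := by
        rw [h1, zig_lab_true, h3]
        simp
      rw [h4]
      exact SynEq.refl L w

/-- Main result of this module. -/
theorem zig {f : A → List A} {L : Lang A} (hR : RevWith f L) {w : List A} {i j : ℕ} {u : List A}
    (h : Walk f w i j u) : SynEq L (w.take i ++ u ++ w.drop j) w := by
  obtain ⟨l, h1, h2, h3⟩ := h.exists_path
  have hi : i ≤ w.length := by
    have h4 := (h3 [] List.nil_prefix).2
    have h5 : ht [] = 0 := rfl
    rw [h5] at h4
    omega
  have hj : j ≤ w.length := by
    have h4 := (h3 l (List.prefix_refl l)).2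
    rw [h2] at h4
    exact_mod_cast h4
  have key := full_path hR w (List.replicate i true ++ l ++ List.replicate (w.length - j) true)
    (by
      intro p hp
      rcases zig_prefix_split hp with h | ⟨q, hq, rfl⟩
      · rcases zig_prefix_split h with h' | ⟨q, hq, rfl⟩
        · obtain ⟨hk, hk'⟩ : p.length ≤ i ∧ p = List.replicate p.length true := by
            have h6 := List.prefix_replicate_iff.1 h'
            exact h6
          rw [hk', ht_replicate_true]
          constructor
          · positivity
          · exact_mod_cast hk.trans hi
        · rw [ht_append, ht_replicate_true]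
          exact h3 q hq
      · obtain ⟨hk, hk'⟩ := List.prefix_replicate_iff.1 hq
        rw [hk', ht_append, ht_append, ht_replicate_true, ht_replicate_true, h2]
        constructor
        · positivity
        · have h7 : j + q.length ≤ w.length := by omega
          exact_mod_cast h7)
    (by
      rw [ht_append, ht_append, ht_replicate_true, ht_replicate_true, h2]
      have h7 : j + (w.length - j) = w.length := by omega
      exact_mod_cast h7)
  have e1 : lab f w 0 (List.replicate i true ++ l ++ List.replicate (w.length - j) true) =
      w.take i ++ u ++ w.drop j := by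
    rw [List.append_assoc, zig_lab_append f w (List.replicate i true) _ 0 i
      (by rw [ht_replicate_true]; push_cast; ring) ?_,
      zig_lab_append f w l _ i j h2 (fun p hp => (h3 p hp).1), zig_lab_true, zig_lab_true, h1,
      List.append_assoc]
    · congr 1
      congr 1
      rw [List.take_of_length_le]
      rw [List.length_drop]
    · intro p hp
      obtain ⟨_, hk'⟩ := List.prefix_replicate_iff.1 hp
      rw [hk', ht_replicate_true]
      positivity
  rw [e1] at key
  exact key

end Pool.Agent.DD
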