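import Pool.Agent.DD.Step
import Pool.Agent.DD.Base
import Pool.Agent.DD.Zig
import Pool.Agent.DD.Recur
import Pool.Agent.DD.Geo

/-!
# DD-Main: finitely many reversible languages in every level
-/

namespace Pool.Agent.DD

variable {A : Type}

theorem hasLoops_all [Finite A] {G : Set (List A)} (hG : URec G) (n : ℕ) : HasLoops G n := by
  induction n with
  | zero => exact hasLoops_zero G
  | succ n ih => exact hasLoops_succ hG ih

/-- In a uniformly recurrent set there is a word with two overlapping-free descriptions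
`w = τ β = α τ`, `α` nonempty. -/
private theorem two_occ {G : Set (List A)} (hG : URec G) (r : ℕ) :
    ∃ w ∈ G, ∃ τ ∈ G, ∃ α β : List A, τ.length = r ∧ w = τ ++ β ∧ w = α ++ τ ∧
      1 ≤ α.length := by
  obtain ⟨v, hv, hvl⟩ := hG.long r
  set τ := v.take r with hτ
  have hτl : τ.length = r := by simp [hτ, hvl]
  have hτG : τ ∈ G := hG.factor v hv τ (List.take_prefix r v).isInfix
  obtain ⟨R, hR⟩ := hG.recur r
  obtain ⟨w, hw, hwl⟩ := hG.long (R + R + 1)
  have h1 : w.take R ∈ G := hG.factor w hw _ (List.take_prefix R w).isInfix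
  have h2 : w.drop (R + 1) ∈ G := hG.factor w hw _ (List.drop_suffix (R + 1) w).isInfix
  obtain ⟨a, b, hab⟩ := hR _ h1 (by simp; omega) τ hτG (by omega)
  obtain ⟨c, d, hcd⟩ := hR _ h2 (by simp; omega) τ hτG (by omega)
  have hw' : w = w.take R ++ ((w.drop R).take 1 ++ w.drop (R + 1)) := by
    have e1 : w.drop (R + 1) = (w.drop R).drop 1 := by rw [List.drop_drop]
    rw [e1, List.take_append_drop, List.take_append_drop]
  have hx : ((w.drop R).take 1).length = 1 := by simp; omega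
  refine ⟨τ ++ b ++ (w.drop R).take 1 ++ c ++ τ, ?_, τ, hτG, τ ++ b ++ (w.drop R).take 1 ++ c,
    b ++ (w.drop R).take 1 ++ c ++ τ, hτl, by simp [List.append_assoc], rfl, ?_⟩
  · apply hG.factor w hw
    refine ⟨a, d, ?_⟩
    conv_rhs => rw [hw', ← hab, ← hcd]
    simp [List.append_assoc]
  · simp only [List.length_append, hx]; omega

/-- Main theorem: only finitely many reversible languages in every level of the dot-depth
hierarchy. -/
theorem finite_rev [Finite A] (n : ℕ) : {L : Lang A | L ∈ B A n ∧ Rev L}.Finite := by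
  by_contra hinf
  have hinf : {L : Lang A | L ∈ B A n ∧ Rev L}.Infinite := hinf
  obtain ⟨G, hsub, hG⟩ := exists_urec
    {w : List A | ∃ L ∈ {L : Lang A | L ∈ B A n ∧ Rev L}, Geod L w}
    (fun w ⟨L, hL, hw⟩ u hu => ⟨L, hL, hw.fac hu⟩)
    (fun k => by
      obtain ⟨L, hL, w, hw, hg⟩ := geo_unbounded hinf k
      exact ⟨w, ⟨L, hL, hg⟩, hw⟩)
  obtain ⟨ρ, hρ, hS⟩ := hasLoops_all hG n
  obtain ⟨w, hw, τ, hτ, α, β, hτl, hwβ, hwα, hα⟩ := two_occ hG (2 * ρ)
  obtain ⟨L, ⟨hLB, f, hf⟩, hgeo⟩ := hsub hw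
  obtain ⟨E, hE, -, hT⟩ := hS f [L] (by simpa using hLB) τ hτ hτl
  obtain ⟨T, hTw, hTE⟩ := hT w hw 0 α.length ⟨[], β, by simpa using hwβ, rfl⟩
    ⟨α, [], by simpa using hwα, rfl⟩
  have hETE : SynEq L E (E ++ T ++ E) := hTE L (by simp)
  have hE0 : Walk f w (0 + ρ) (0 + ρ) E := hE.embed ⟨[], β, by simpa using hwβ, rfl⟩
  have hE1 : Walk f w (α.length + ρ) (α.length + ρ) E :=
    hE.embed ⟨α, [], by simpa using hwα, rfl⟩
  have hz1 := zig hf hE
  have hz2 := zig hf ((hE0.append hTw).append hE1)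
  have ht : w.take (0 + ρ) = τ.take ρ := by
    rw [hwβ, Nat.zero_add, List.take_append_of_le_length (by omega)]
  have hd : w.drop (α.length + ρ) = τ.drop ρ := by
    rw [hwα, List.drop_append]
    simp
  rw [ht, hd] at hz2
  have h1 : SynEq L (τ.take ρ ++ E ++ τ.drop ρ) (τ.take ρ ++ (E ++ T ++ E) ++ τ.drop ρ) :=
    (hETE.left _).right _
  have h2 : SynEq L w τ := (hz1.symm.trans (h1.trans hz2)).symm
  have h3 := hgeo τ h2
  rw [hwα, List.length_append] at h3
  omega

end Pool.Agent.DD
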