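import Pool.Agent.DD.Defs

/-!
# DD-Rec: every language of the dot-depth hierarchy is recognized by a finite aperiodic monoid

`Rec L` (Defs.lean): there is a finite monoid `N` with `n^(k+1) = n^k`, and a morphism `φ` from
words to `N` such that `φ x = φ y` implies `x ∈ L ↔ y ∈ L`.

Plan.
* finite or cofinite `L`: choose `r` such that all words of length `≥ r` are on the same side
  (`∃ r, ∀ x y, r ≤ x.length → r ≤ y.length → (x ∈ L ↔ y ∈ L)`).  The monoid: `A` is finite, so the
  set of words of length `< r` is finite; `N = Option {x : List A // x.length < r}`-like with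
  `none` as zero: `φ x = some x` if `x.length < r`, else `none` (if `r = 0` the language is empty or
  full: take the trivial monoid, or replace `r` by `r + 1` first so that `[]` is present).
  `n^(k+1) = n^k` with `k = r`: `[]^k = []`, other words have `n^r = none`.
  (Alternative to a hand-made multiplication: take any convenient finite quotient.)
* complement, union, intersection: same monoid / product monoid `N × N'` (k = max).
* product `cat K L` (Schützenberger): `N = {(n1, n2, S) : N1 × N2 × Set (N1 × N2)}` with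
  `(m1, m2, S) (n1, n2, T) = (m1 n1, m2 n2, {(s1, s2 n2) | (s1,s2) ∈ S} ∪ {(m1 t1, t2) | (t1,t2) ∈ T})`,
  identity `(1, 1, ∅)`; `φ x = (φ1 x, φ2 x, {(φ1 u, φ2 v) | x = u ++ v, v ≠ []})`.  Then
  `w ∈ cat K L` iff (some `(φ1 u, φ2 v)` in the set with `u ∈ K`, `v ∈ L`) or (`w ∈ K` and `[] ∈ L`).
  Aperiodicity: the set component of `(m, n, S)^r` is `⋃_{i+j+1=r} m^i S n^j`, stable for
  `r ≥ 2 k + 1`.
* `catList` by induction, `MonCl` (including `{[]}`, which is finite), `BoolCl` by induction,
  `B` by induction on `i`.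
-/

namespace Pool.Agent.DD

variable {A : Type}

/-- Criterion: a map `F` to a finite type whose kernel is an aperiodic congruence. -/
private theorem rec_of_fun {X : Type} [Finite X] {L : Lang A} (F : List A → X)
    (h1 : ∀ x x' y y', F x = F x' → F y = F y' → F (x ++ y) = F (x' ++ y'))
    (h2 : ∃ k : ℕ, ∀ x, F (pw x (k + 1)) = F (pw x k))
    (h3 : ∀ x y, F x = F y → (x ∈ L ↔ y ∈ L)) : Rec L := by
  classical
  let N : Type := Set.range F
  let rp : N → List A := fun n => n.2.choose
  have hrp : ∀ n : N, F (rp n) = n.1 := fun n => n.2.choose_spec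
  let φ : List A → N := fun x => ⟨F x, x, rfl⟩
  have hφ : ∀ x y, F x = F y → φ x = φ y := fun x y h => Subtype.ext h
  have hφr : ∀ n : N, φ (rp n) = n := fun n => Subtype.ext (hrp n)
  let mu : N → N → N := fun a b => φ (rp a ++ rp b)
  have hmu : ∀ x y, mu (φ x) (φ y) = φ (x ++ y) := fun x y =>
    hφ _ _ (h1 _ _ _ _ (hrp (φ x)) (hrp (φ y)))
  let M : Monoid N :=
    { mul := mu
      one := φ []
      mul_assoc := by
        intro a b c
        change mu (mu a b) c = mu a (mu b c)
        have key : ∀ x y z, mu (mu (φ x) (φ y)) (φ z) = mu (φ x) (mu (φ y) (φ z)) := by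
          intro x y z
          rw [hmu x y, hmu (x ++ y) z, hmu y z, hmu x (y ++ z), List.append_assoc]
        have := key (rp a) (rp b) (rp c)
        rwa [hφr, hφr, hφr] at this
      one_mul := by
        intro a
        change mu (φ []) a = a
        have := hmu [] (rp a)
        rwa [List.nil_append, hφr] at this
      mul_one := by
        intro a
        change mu a (φ []) = a
        have := hmu (rp a) []
        rwa [List.append_nil, hφr] at this }
  refine ⟨N, M, inferInstance, φ, rfl, fun x y => (hmu x y).symm, ?_, ?_⟩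
  · obtain ⟨k, hk⟩ := h2
    have hp : ∀ (x : List A) (j : ℕ), (φ x) ^ j = φ (pw x j) := by
      intro x j
      induction j with
      | zero => rw [pow_zero]; rfl
      | succ j ih =>
          rw [pow_succ', ih, pw_succ]
          exact hmu x (pw x j)
    refine ⟨k, fun n => ?_⟩
    rw [← hφr n, hp, hp]
    exact hφ _ _ (hk _)
  · intro x y h
    exact h3 x y (congrArg Subtype.val h)

private theorem pow_stable {N : Type} [Monoid N] {k : ℕ} (hk : ∀ n : N, n ^ (k + 1) = n ^ k)
    {i : ℕ} (hi : k ≤ i) (n : N) : n ^ (i + 1) = n ^ i := by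
  obtain ⟨j, rfl⟩ := Nat.exists_eq_add_of_le hi
  rw [show k + j + 1 = (k + 1) + j by omega, pow_add, hk n, ← pow_add]

private theorem phi_pw {N : Type} [Monoid N] {φ : List A → N} (h1 : φ [] = 1)
    (h2 : ∀ x y, φ (x ++ y) = φ x * φ y) (x : List A) (j : ℕ) : φ (pw x j) = φ x ^ j := by
  induction j with
  | zero => rw [pow_zero, pw_zero, h1]
  | succ j ih => rw [pw_succ, h2, ih, pow_succ']

private theorem pw_nil (k : ℕ) : pw ([] : List A) k = [] := by
  induction k with
  | zero => rfl
  | succ k ih => rw [pw_succ, ih]; rfl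

private theorem length_pw (x : List A) (k : ℕ) : (pw x k).length = k * x.length := by
  induction k with
  | zero => simp [pw_zero]
  | succ k ih => rw [pw_succ, List.length_append, ih]; ring

private theorem exists_bound {L : Lang A} (h : L.Finite) : ∃ r : ℕ, ∀ x ∈ L, x.length < r := by
  obtain ⟨r, hr⟩ := (h.image List.length).bddAbove
  exact ⟨r + 1, fun x hx => Nat.lt_succ_of_le (hr ⟨x, hx, rfl⟩)⟩

/-- Finite or cofinite languages. -/
theorem rec_finite_or [Finite A] {L : Lang A} (h : L.Finite ∨ Lᶜ.Finite) : Rec L := by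
  classical
  obtain ⟨r, hr⟩ : ∃ r : ℕ, ∀ x y : List A, r ≤ x.length → r ≤ y.length → (x ∈ L ↔ y ∈ L) := by
    rcases h with h | h
    · obtain ⟨r, hr⟩ := exists_bound h
      refine ⟨r, fun x y hx hy => ?_⟩
      constructor
      · intro hxL
        exact absurd (hr x hxL) (by omega)
      · intro hyL
        exact absurd (hr y hyL) (by omega)
    · obtain ⟨r, hr⟩ := exists_bound h
      refine ⟨r, fun x y hx hy => ?_⟩
      have h1 : x ∈ L := by
        by_contra hxL
        exact absurd (hr x hxL) (by omega)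
      have h2 : y ∈ L := by
        by_contra hyL
        exact absurd (hr y hyL) (by omega)
      exact ⟨fun _ => h2, fun _ => h1⟩
  have hfin : Finite {x : List A // x.length < r} := List.finite_length_lt A r
  let F : List A → Option {x : List A // x.length < r} := fun x =>
    if hx : x.length < r then some ⟨x, hx⟩ else none
  have hF1 : ∀ x, r ≤ x.length → F x = none := by
    intro x hx
    exact dif_neg (by omega)
  have hF2 : ∀ x y, F x = F y → x = y ∨ (r ≤ x.length ∧ r ≤ y.length) := by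
    intro x y hxy
    by_cases hx : x.length < r
    · by_cases hy : y.length < r
      · left
        have e1 : F x = some ⟨x, hx⟩ := dif_pos hx
        have e2 : F y = some ⟨y, hy⟩ := dif_pos hy
        rw [e1, e2] at hxy
        exact congrArg Subtype.val (Option.some.inj hxy)
      · have e1 : F x = some ⟨x, hx⟩ := dif_pos hx
        have e2 : F y = none := dif_neg hy
        rw [e1, e2] at hxy
        exact absurd hxy (by simp)
    · by_cases hy : y.length < r
      · have e1 : F y = some ⟨y, hy⟩ := dif_pos hy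
        have e2 : F x = none := dif_neg hx
        rw [e1, e2] at hxy
        exact absurd hxy.symm (by simp)
      · right
        exact ⟨by omega, by omega⟩
  refine rec_of_fun F ?_ ⟨r, ?_⟩ ?_
  · intro x x' y y' hx hy
    rcases hF2 x x' hx with h1 | h1
    · rcases hF2 y y' hy with h2 | h2
      · rw [h1, h2]
      · rw [hF1 _ (by rw [List.length_append]; omega), hF1 _ (by rw [List.length_append]; omega)]
    · rw [hF1 _ (by rw [List.length_append]; omega), hF1 _ (by rw [List.length_append]; omega)]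
  · intro x
    rcases Nat.eq_zero_or_pos x.length with h0 | h0
    · rw [List.length_eq_zero_iff.1 h0, pw_nil, pw_nil]
    · rw [hF1 _ (by rw [length_pw]; nlinarith), hF1 _ (by rw [length_pw]; nlinarith)]
  · intro x y hxy
    rcases hF2 x y hxy with h1 | h1
    · rw [h1]
    · exact hr x y h1.1 h1.2

theorem rec_compl {L : Lang A} (h : Rec L) : Rec Lᶜ := by
  obtain ⟨N, hM, hF, φ, h1, h2, h3, h4⟩ := h
  exact ⟨N, hM, hF, φ, h1, h2, h3, fun x y hxy => not_congr (h4 x y hxy)⟩

private theorem rec_pair {K L P : Lang A} (hK : Rec K) (hL : Rec L)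
    (hP : ∀ x y, (x ∈ K ↔ y ∈ K) → (x ∈ L ↔ y ∈ L) → (x ∈ P ↔ y ∈ P)) : Rec P := by
  obtain ⟨N, hM, hF, φ, h1, h2, ⟨k, h3⟩, h4⟩ := hK
  obtain ⟨N', hM', hF', φ', h1', h2', ⟨k', h3'⟩, h4'⟩ := hL
  refine rec_of_fun (fun x => (φ x, φ' x)) ?_ ⟨max k k', ?_⟩ ?_
  · intro x x' y y' hx hy
    rw [Prod.mk.injEq] at hx hy ⊢
    exact ⟨by rw [h2, h2, hx.1, hy.1], by rw [h2', h2', hx.2, hy.2]⟩
  · intro x
    rw [Prod.mk.injEq]
    refine ⟨?_, ?_⟩
    · rw [phi_pw h1 h2, phi_pw h1 h2, pow_stable h3 (le_max_left _ _)]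
    · rw [phi_pw h1' h2', phi_pw h1' h2', pow_stable h3' (le_max_right _ _)]
  · intro x y hxy
    rw [Prod.mk.injEq] at hxy
    exact hP x y (h4 x y hxy.1) (h4' x y hxy.2)

theorem rec_union {K L : Lang A} (hK : Rec K) (hL : Rec L) : Rec (K ∪ L) :=
  rec_pair hK hL fun _ _ h1 h2 => or_congr h1 h2

theorem rec_inter {K L : Lang A} (hK : Rec K) (hL : Rec L) : Rec (K ∩ L) :=
  rec_pair hK hL fun _ _ h1 h2 => and_congr h1 h2

/-- The set of the values of the factorizations of a word. -/
private def Sp {N N' : Type} (φ : List A → N) (φ' : List A → N') (x : List A) : Set (N × N') :=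
  {p | ∃ u v, x = u ++ v ∧ p = (φ u, φ' v)}

private theorem Sp_append {N N' : Type} [Monoid N] [Monoid N'] {φ : List A → N}
    {φ' : List A → N'} (h2 : ∀ x y, φ (x ++ y) = φ x * φ y)
    (h2' : ∀ x y, φ' (x ++ y) = φ' x * φ' y) (x y : List A) :
    Sp φ φ' (x ++ y) = (fun p : N × N' => (p.1, p.2 * φ' y)) '' Sp φ φ' x ∪
      (fun p : N × N' => (φ x * p.1, p.2)) '' Sp φ φ' y := by
  ext p
  constructor
  · rintro ⟨u, v, huv, rfl⟩
    rcases List.append_eq_append_iff.1 huv with ⟨a, ha, hb⟩ | ⟨a, ha, hb⟩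
    · right
      refine ⟨(φ a, φ' v), ⟨a, v, hb, rfl⟩, ?_⟩
      rw [ha, h2]
    · left
      refine ⟨(φ u, φ' a), ⟨u, a, ha, rfl⟩, ?_⟩
      rw [hb, h2']
  · rintro (⟨q, ⟨u, v, huv, rfl⟩, rfl⟩ | ⟨q, ⟨u, v, huv, rfl⟩, rfl⟩)
    · refine ⟨u, v ++ y, ?_, ?_⟩
      · rw [huv, List.append_assoc]
      · rw [h2']
    · refine ⟨x ++ u, v, ?_, ?_⟩
      · rw [huv, List.append_assoc]
      · rw [h2]

private theorem Sp_pw {N N' : Type} [Monoid N] [Monoid N'] {φ : List A → N}
    {φ' : List A → N'} (h1' : φ' [] = 1) (h2 : ∀ x y, φ (x ++ y) = φ x * φ y)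
    (h2' : ∀ x y, φ' (x ++ y) = φ' x * φ' y) (x : List A) (r : ℕ) :
    Sp φ φ' (pw x (r + 1)) = {p | ∃ i j, i + j = r ∧ ∃ q ∈ Sp φ φ' x,
      p = (φ x ^ i * q.1, q.2 * φ' x ^ j)} := by
  induction r with
  | zero =>
      have : pw x (0 + 1) = x := by
        rw [pw_succ, pw_zero, List.append_nil]
      rw [this]
      ext p
      constructor
      · intro hp
        exact ⟨0, 0, rfl, p, hp, by simp⟩
      · rintro ⟨i, j, hij, q, hq, rfl⟩
        have hi : i = 0 := by omega
        have hj : j = 0 := by omega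
        subst hi; subst hj
        simpa using hq
  | succ r ih =>
      rw [pw_succ, Sp_append h2 h2', ih, phi_pw h1' h2']
      ext p
      constructor
      · rintro (⟨q, hq, rfl⟩ | ⟨q, ⟨i, j, hij, q', hq', rfl⟩, rfl⟩)
        · exact ⟨0, r + 1, by omega, q, hq, by simp⟩
        · refine ⟨i + 1, j, by omega, q', hq', ?_⟩
          simp only [pow_succ', mul_assoc]
      · rintro ⟨i, j, hij, q, hq, rfl⟩
        rcases i with _ | i
        · left
          refine ⟨q, hq, ?_⟩
          have hj : j = r + 1 := by omega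
          subst hj
          simp
        · right
          refine ⟨(φ x ^ i * q.1, q.2 * φ' x ^ j), ⟨i, j, by omega, q, hq, rfl⟩, ?_⟩
          simp only [pow_succ', mul_assoc]

theorem rec_cat {K L : Lang A} (hK : Rec K) (hL : Rec L) : Rec (cat K L) := by
  obtain ⟨N, hM, hF, φ, h1, h2, ⟨k, h3⟩, h4⟩ := hK
  obtain ⟨N', hM', hF', φ', h1', h2', ⟨k', h3'⟩, h4'⟩ := hL
  refine rec_of_fun (fun x => (φ x, φ' x, Sp φ φ' x)) ?_ ⟨k + k' + 1, ?_⟩ ?_
  · intro x x' y y' hx hy
    simp only [Prod.mk.injEq] at hx hy ⊢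
    refine ⟨by rw [h2, h2, hx.1, hy.1], by rw [h2', h2', hx.2.1, hy.2.1], ?_⟩
    rw [Sp_append h2 h2', Sp_append h2 h2', hx.1, hx.2.2, hy.2.1, hy.2.2]
  · intro x
    simp only [Prod.mk.injEq]
    refine ⟨?_, ?_, ?_⟩
    · rw [phi_pw h1 h2, phi_pw h1 h2, pow_stable h3 (by omega)]
    · rw [phi_pw h1' h2', phi_pw h1' h2', pow_stable h3' (by omega)]
    · rw [Sp_pw h1' h2 h2', Sp_pw h1' h2 h2']
      ext p
      constructor
      · rintro ⟨i, j, hij, q, hq, rfl⟩
        by_cases hi : k + 1 ≤ i
        · obtain ⟨i', rfl⟩ : ∃ i', i = i' + 1 := ⟨i - 1, by omega⟩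
          refine ⟨i', j, by omega, q, hq, ?_⟩
          rw [pow_stable h3 (by omega)]
        · obtain ⟨j', rfl⟩ : ∃ j', j = j' + 1 := ⟨j - 1, by omega⟩
          refine ⟨i, j', by omega, q, hq, ?_⟩
          rw [pow_stable h3' (by omega)]
      · rintro ⟨i, j, hij, q, hq, rfl⟩
        by_cases hi : k ≤ i
        · refine ⟨i + 1, j, by omega, q, hq, ?_⟩
          rw [pow_stable h3 hi]
        · refine ⟨i, j + 1, by omega, q, hq, ?_⟩
          rw [pow_stable h3' (by omega)]
  · have key : ∀ x y, Sp φ φ' x = Sp φ φ' y → x ∈ cat K L → y ∈ cat K L := by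
      rintro x y hxy ⟨u, hu, v, hv, rfl⟩
      have h5 : (φ u, φ' v) ∈ Sp φ φ' y := by
        rw [← hxy]
        exact ⟨u, v, rfl, rfl⟩
      obtain ⟨u', v', rfl, h6⟩ := h5
      rw [Prod.mk.injEq] at h6
      exact ⟨u', (h4 u u' h6.1).1 hu, v', (h4' v v' h6.2).1 hv, rfl⟩
    intro x y hxy
    simp only [Prod.mk.injEq] at hxy
    exact ⟨key x y hxy.2.2, key y x hxy.2.2.symm⟩

private theorem rec_catList {C : Set (Lang A)} (hC : ∀ K ∈ C, Rec K) (Ls : List (Lang A)) :
    ∀ L₀ ∈ C, (∀ K ∈ Ls, K ∈ C) → Rec (catList L₀ Ls) := by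
  induction Ls with
  | nil => exact fun L₀ h _ => hC L₀ h
  | cons K Ks ih =>
      intro L₀ h0 h
      exact rec_cat (hC L₀ h0) (ih K (h K (by simp)) fun K' hK' => h K' (by simp [hK']))

/-- Main result of this module. -/
theorem rec_B [Finite A] {i : ℕ} {L : Lang A} (h : L ∈ B A i) : Rec L := by
  induction i generalizing L with
  | zero => exact rec_finite_or h
  | succ i ih =>
      have h' : BoolCl (MonCl (B A i)) L := h
      induction h' with
      | base hb =>
          obtain ⟨L₀, h0, Ls, hLs, rfl⟩ := MonCl_B hb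
          exact rec_catList (fun K hK => ih hK) Ls L₀ h0 hLs
      | compl h1 ih1 => exact rec_compl (ih1 h1)
      | union h1 h2 ih1 ih2 => exact rec_union (ih1 h1) (ih2 h2)
      | inter h1 h2 ih1 ih2 => exact rec_inter (ih1 h1) (ih2 h2)

end Pool.Agent.DD
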