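import Pool.Agent.DD.Walk

/-!
# DD-Slow: the slow walk

Situation: to every word `τ ∈ G` of length `2ρ` is attached a loop `E τ` at its middle position, such
that between two occurrences of `τ` in a word of `G` there is a walk `Z` with
`Below Ps (E^m) (E^m Z E^m)`.  The word `Λ ∈ G` contains all words of `G` of length `2ρ+1`.  Then a
walker in `w ∈ G` can go from (the middle of) any occurrence to any other one by a walk `T`, which a
second walker can follow inside `Λ` by a walk `Y` with `Below Ps T Y`.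

Plan.
* `slow_right` (one step to the right): let `σ` be the factor of length `2ρ+1` of `w` at `i`; it
  occurs in `Λ` at some `v`; `σ` has the prefix `τ` and the suffix `τ1` (`Occ.split`, `Occ.unique`).
  `Z` from `u+ρ` to `v+ρ` in `Λ`.  `a = σ[ρ]`.  `T = (E τ)^m ++ [a]`,
  `Y = ((E τ)^m ++ Z ++ (E τ)^m) ++ [a]`, new position `v+1` in `Λ`.
  (`Walk.embed` for `E τ`, `Walk.pw`, `Walk.append`, `Walk.one_fwd`, `Occ.getElem?`.)
* `slow_left`: same with `σ` = the factor of length `2ρ+1` of `w` at `i`, which has the suffix `τ`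
  (at `i+1`) and the prefix `τ1`; `Z` from `u+ρ` to `v+1+ρ`; `T = (E τ)^m ++ f a`.
* `slow`: induction on `i' - i` or `i - i'`, with `Below.app` and `Walk.append`.
-/

namespace Pool.Agent.DD

variable {A : Type}

section
variable {f : A → List A} {Ps : List (Lang A)} {ρ m : ℕ} {G : Set (List A)}
  {E : List A → List A} {Λ w : List A}

theorem slow_right (hfac : ∀ w ∈ G, ∀ u, u <:+: w → u ∈ G)
    (hE : ∀ τ ∈ G, τ.length = 2 * ρ → Walk f τ ρ ρ (E τ))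
    (hJ : ∀ τ ∈ G, τ.length = 2 * ρ → ∀ w ∈ G, ∀ k k', Occ w k τ → Occ w k' τ →
      ∃ Z, Walk f w (k + ρ) (k' + ρ) Z ∧ Below Ps (pw (E τ) m) (pw (E τ) m ++ Z ++ pw (E τ) m))
    (hΛ : Λ ∈ G) (hw : w ∈ G) (hfull : ∀ σ ∈ G, σ.length = 2 * ρ + 1 → σ <:+: Λ)
    {i u : ℕ} {τ : List A} (hτ : τ.length = 2 * ρ) (h1 : Occ w i τ) (h2 : Occ Λ u τ)
    (hi : i + (2 * ρ + 1) ≤ w.length) :
    ∃ τ1 u1 T Y, τ1.length = 2 * ρ ∧ Occ w (i + 1) τ1 ∧ Occ Λ u1 τ1 ∧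
      Walk f w (i + ρ) (i + 1 + ρ) T ∧ Walk f Λ (u + ρ) (u1 + ρ) Y ∧ Below Ps T Y := by
  obtain ⟨σ, hσ, hσl⟩ := exists_occ (w := w) (k := i) (n := 2 * ρ + 1) hi
  have hσG : σ ∈ G := hfac w hw σ hσ.isInf
  obtain ⟨v, hv⟩ := exists_occ_of_infix (hfull σ hσG hσl)
  obtain ⟨x, y, hx, hy, hx0, hy1, hwx, hwy⟩ := hσ.split hσl
  have hxτ : x = τ := hwx.unique h1 (by rw [hx, hτ])
  subst hxτ
  have hxG : x ∈ G := hfac w hw x h1.isInf
  have hvx : Occ Λ v x := by simpa using hv.trans hx0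
  have hvy : Occ Λ (v + 1) y := hv.trans hy1
  obtain ⟨Z, hZ, hB⟩ := hJ x hxG hx Λ hΛ u v h2 hvx
  have hρ : ρ < σ.length := by omega
  have ha : σ[ρ]? = some σ[ρ] := List.getElem?_eq_getElem hρ
  have hwa : w[i + ρ]? = some σ[ρ] := (hσ.getElem? hρ).trans ha
  have hLa : Λ[v + ρ]? = some σ[ρ] := (hv.getElem? hρ).trans ha
  have hEw : Walk f w (i + ρ) (i + ρ) (pw (E x) m) := (Walk.embed h1 (hE x hxG hx)).pw m
  have hEu : Walk f Λ (u + ρ) (u + ρ) (pw (E x) m) := (Walk.embed h2 (hE x hxG hx)).pw m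
  have hEv : Walk f Λ (v + ρ) (v + ρ) (pw (E x) m) := (Walk.embed hvx (hE x hxG hx)).pw m
  refine ⟨y, v + 1, pw (E x) m ++ [σ[ρ]], pw (E x) m ++ Z ++ pw (E x) m ++ [σ[ρ]], hy, hwy, hvy,
    ?_, ?_, hB.app (Below.refl Ps _)⟩
  · have h := hEw.append (Walk.one_fwd (f := f) hwa)
    rwa [show i + ρ + 1 = i + 1 + ρ by omega] at h
  · have h := ((hEu.append hZ).append hEv).append (Walk.one_fwd (f := f) hLa)
    rwa [show v + ρ + 1 = v + 1 + ρ by omega] at h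

theorem slow_left (hfac : ∀ w ∈ G, ∀ u, u <:+: w → u ∈ G)
    (hE : ∀ τ ∈ G, τ.length = 2 * ρ → Walk f τ ρ ρ (E τ))
    (hJ : ∀ τ ∈ G, τ.length = 2 * ρ → ∀ w ∈ G, ∀ k k', Occ w k τ → Occ w k' τ →
      ∃ Z, Walk f w (k + ρ) (k' + ρ) Z ∧ Below Ps (pw (E τ) m) (pw (E τ) m ++ Z ++ pw (E τ) m))
    (hΛ : Λ ∈ G) (hw : w ∈ G) (hfull : ∀ σ ∈ G, σ.length = 2 * ρ + 1 → σ <:+: Λ)
    {i u : ℕ} {τ : List A} (hτ : τ.length = 2 * ρ) (h1 : Occ w (i + 1) τ) (h2 : Occ Λ u τ) :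
    ∃ τ1 u1 T Y, τ1.length = 2 * ρ ∧ Occ w i τ1 ∧ Occ Λ u1 τ1 ∧
      Walk f w (i + 1 + ρ) (i + ρ) T ∧ Walk f Λ (u + ρ) (u1 + ρ) Y ∧ Below Ps T Y := by
  have hi : i + (2 * ρ + 1) ≤ w.length := by
    have h := h1.le
    omega
  obtain ⟨σ, hσ, hσl⟩ := exists_occ (w := w) (k := i) (n := 2 * ρ + 1) hi
  have hσG : σ ∈ G := hfac w hw σ hσ.isInf
  obtain ⟨v, hv⟩ := exists_occ_of_infix (hfull σ hσG hσl)
  obtain ⟨x, y, hx, hy, hx0, hy1, hwx, hwy⟩ := hσ.split hσl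
  have hyτ : y = τ := hwy.unique h1 (by rw [hy, hτ])
  subst hyτ
  have hyG : y ∈ G := hfac w hw y h1.isInf
  have hvx : Occ Λ v x := by simpa using hv.trans hx0
  have hvy : Occ Λ (v + 1) y := hv.trans hy1
  obtain ⟨Z, hZ, hB⟩ := hJ y hyG hy Λ hΛ u (v + 1) h2 hvy
  have hρ : ρ < σ.length := by omega
  have ha : σ[ρ]? = some σ[ρ] := List.getElem?_eq_getElem hρ
  have hwa : w[i + ρ]? = some σ[ρ] := (hσ.getElem? hρ).trans ha
  have hLa : Λ[v + ρ]? = some σ[ρ] := (hv.getElem? hρ).trans ha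
  have hEw : Walk f w (i + 1 + ρ) (i + 1 + ρ) (pw (E y) m) :=
    (Walk.embed h1 (hE y hyG hy)).pw m
  have hEu : Walk f Λ (u + ρ) (u + ρ) (pw (E y) m) := (Walk.embed h2 (hE y hyG hy)).pw m
  have hEv : Walk f Λ (v + 1 + ρ) (v + 1 + ρ) (pw (E y) m) :=
    (Walk.embed hvy (hE y hyG hy)).pw m
  refine ⟨x, v, pw (E y) m ++ f σ[ρ], pw (E y) m ++ Z ++ pw (E y) m ++ f σ[ρ], hx, hwx, hvx,
    ?_, ?_, hB.app (Below.refl Ps _)⟩
  · have h := Walk.one_bwd (f := f) hwa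
    rw [show i + ρ + 1 = i + 1 + ρ by omega] at h
    exact hEw.append h
  · have h := Walk.one_bwd (f := f) hLa
    rw [show v + ρ + 1 = v + 1 + ρ by omega] at h
    exact ((hEu.append hZ).append hEv).append h

/-- Main result of this module. -/
theorem slow (hfac : ∀ w ∈ G, ∀ u, u <:+: w → u ∈ G)
    (hE : ∀ τ ∈ G, τ.length = 2 * ρ → Walk f τ ρ ρ (E τ))
    (hJ : ∀ τ ∈ G, τ.length = 2 * ρ → ∀ w ∈ G, ∀ k k', Occ w k τ → Occ w k' τ →
      ∃ Z, Walk f w (k + ρ) (k' + ρ) Z ∧ Below Ps (pw (E τ) m) (pw (E τ) m ++ Z ++ pw (E τ) m))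
    (hΛ : Λ ∈ G) (hw : w ∈ G) (hfull : ∀ σ ∈ G, σ.length = 2 * ρ + 1 → σ <:+: Λ)
    {i i' u : ℕ} {τ τ' : List A} (hτ : τ.length = 2 * ρ) (hτ' : τ'.length = 2 * ρ)
    (h1 : Occ w i τ) (h2 : Occ Λ u τ) (h3 : Occ w i' τ') :
    ∃ u' T Y, Occ Λ u' τ' ∧ Walk f w (i + ρ) (i' + ρ) T ∧ Walk f Λ (u + ρ) (u' + ρ) Y ∧
      Below Ps T Y := by
  have key : ∀ (d i u : ℕ) (τ : List A), τ.length = 2 * ρ → Occ w i τ → Occ Λ u τ →
      (i' = i + d ∨ i = i' + d) →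
      ∃ u' T Y, Occ Λ u' τ' ∧ Walk f w (i + ρ) (i' + ρ) T ∧ Walk f Λ (u + ρ) (u' + ρ) Y ∧
        Below Ps T Y := by
    intro d
    induction d with
    | zero =>
        intro i u τ hτ h1 h2 hd
        have hii : i' = i := by omega
        subst hii
        have hττ : τ = τ' := h1.unique h3 (by rw [hτ, hτ'])
        subst hττ
        have hl1 := h1.le
        have hl2 := h2.le
        exact ⟨u, [], [], h2, Walk.nil _ (by omega), Walk.nil _ (by omega), Below.refl Ps _⟩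
    | succ d ih =>
        intro i u τ hτ h1 h2 hd
        rcases hd with hd | hd
        · have hl := h3.le
          obtain ⟨τ1, u1, T, Y, hτ1, ho1, ho2, hT, hY, hB⟩ :=
            slow_right hfac hE hJ hΛ hw hfull hτ h1 h2 (by omega)
          obtain ⟨u', T', Y', ho', hT', hY', hB'⟩ := ih (i + 1) u1 τ1 hτ1 ho1 ho2
            (Or.inl (by omega))
          exact ⟨u', T ++ T', Y ++ Y', ho', hT.append hT', hY.append hY', hB.app hB'⟩
        · obtain ⟨i0, rfl⟩ : ∃ i0, i = i0 + 1 := ⟨i' + d, by omega⟩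
          obtain ⟨τ1, u1, T, Y, hτ1, ho1, ho2, hT, hY, hB⟩ :=
            slow_left hfac hE hJ hΛ hw hfull hτ h1 h2
          obtain ⟨u', T', Y', ho', hT', hY', hB'⟩ := ih i0 u1 τ1 hτ1 ho1 ho2
            (Or.inr (by omega))
          exact ⟨u', T ++ T', Y ++ Y', ho', hT.append hT', hY.append hY', hB.app hB'⟩
  rcases Nat.le_total i i' with h | h
  · exact key (i' - i) i u τ hτ h1 h2 (Or.inl (by omega))
  · exact key (i - i') i u τ hτ h1 h2 (Or.inr (by omega))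

end

end Pool.Agent.DD
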