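import Pool.Agent.DD.Slow
import Pool.Agent.DD.Jump
import Pool.Agent.DD.Generic
import Pool.Agent.DD.Rec

/-!
# DD-Step: S(n) implies S(n+1)
-/

namespace Pool.Agent.DD

variable {A : Type}

private theorem control {n : ℕ} (Ls : List (Lang A)) (hLs : ∀ L ∈ Ls, L ∈ B A (n + 1)) :
    ∃ Ps : List (Lang A), (∀ P ∈ Ps, P ∈ MonCl (B A n)) ∧
      ∀ L ∈ Ls, ∀ x y, (∀ P ∈ Ps, SynEq P x y) → SynEq L x y := by
  induction Ls with
  | nil => exact ⟨[], by simp, by simp⟩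
  | cons L Ls ih =>
      obtain ⟨Ps, h1, h2⟩ := ih (fun K hK => hLs K (by simp [hK]))
      obtain ⟨Qs, h3, h4⟩ := BoolCl.exists_list (hLs L (by simp))
      refine ⟨Qs ++ Ps, ?_, ?_⟩
      · intro P hP
        rcases List.mem_append.1 hP with hP | hP
        · exact h3 P hP
        · exact h1 P hP
      · intro K hK x y hxy
        rcases List.mem_cons.1 hK with rfl | hK
        · exact h4 x y fun P hP => hxy P (by simp [hP])
        · exact h2 K hK x y fun P hP => hxy P (by simp [hP])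

private theorem factors {n : ℕ} (Ps : List (Lang A)) (hPs : ∀ P ∈ Ps, P ∈ MonCl (B A n)) :
    ∃ (Qs : List (Lang A)) (m : ℕ), 1 ≤ m ∧ (∀ Q ∈ Qs, Q ∈ B A n) ∧
      ∀ P ∈ Ps, ∃ L₀ ∈ Qs, ∃ Ls : List (Lang A), (∀ K ∈ Ls, K ∈ Qs) ∧ P = catList L₀ Ls ∧
        Ls.length + 1 ≤ m := by
  induction Ps with
  | nil => exact ⟨[], 1, le_rfl, by simp, by simp⟩
  | cons P Ps ih =>
      obtain ⟨Qs, m, hm, h1, h2⟩ := ih (fun K hK => hPs K (by simp [hK]))
      obtain ⟨L₀, hL₀, Ls, hLs, hP⟩ := MonCl_B (hPs P (by simp))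
      refine ⟨L₀ :: (Ls ++ Qs), max m (Ls.length + 1), by omega, ?_, ?_⟩
      · intro Q hQ
        rcases List.mem_cons.1 hQ with rfl | hQ
        · exact hL₀
        · rcases List.mem_append.1 hQ with hQ | hQ
          · exact hLs Q hQ
          · exact h1 Q hQ
      · intro K hK
        rcases List.mem_cons.1 hK with rfl | hK
        · exact ⟨L₀, by simp, Ls, fun K hK => by simp [hK], hP, by omega⟩
        · obtain ⟨L₁, hL₁, Ks, hKs, hK', hlen⟩ := h2 K hK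
          exact ⟨L₁, by simp [hL₁], Ks, fun K hK => by simp [hKs K hK], hK', by omega⟩

/-- Main result of this module. -/
theorem hasLoops_succ [Finite A] {G : Set (List A)} (hG : URec G) {n : ℕ} (h : HasLoops G n) :
    HasLoops G (n + 1) := by
  obtain ⟨ρ, hρ, hS⟩ := h
  obtain ⟨R, hR⟩ := hG.recur (2 * ρ + 1)
  refine ⟨R + ρ + 1, by omega, fun f Ls hLs Λ hΛ hΛl => ?_⟩
  obtain ⟨Ps0, hPs0, hctrl⟩ := control Ls hLs
  obtain ⟨Qs0, m, hm, hQs0, hfac⟩ := factors Ps0 hPs0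
  set Qs : List (Lang A) := Qs0 ++ Qs0.map (fun Q => Qᶜ) with hQsdef
  set Ps : List (Lang A) := Ps0 ++ Qs with hPsdef
  have hQs : ∀ Q ∈ Qs, Q ∈ B A n := by
    intro Q hQ
    rcases List.mem_append.1 hQ with hQ | hQ
    · exact hQs0 Q hQ
    · obtain ⟨K, hK, rfl⟩ := List.mem_map.1 hQ
      exact B_compl (hQs0 K hK)
  have hQc : ∀ Q ∈ Qs, Qᶜ ∈ Qs := by
    intro Q hQ
    rcases List.mem_append.1 hQ with hQ | hQ
    · exact List.mem_append.2 (Or.inr (List.mem_map.2 ⟨Q, hQ, rfl⟩))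
    · obtain ⟨K, hK, rfl⟩ := List.mem_map.1 hQ
      exact List.mem_append.2 (Or.inl (by simpa using hK))
  have hQP : ∀ Q ∈ Qs, Q ∈ Ps := fun Q hQ => List.mem_append.2 (Or.inr hQ)
  have hPfac : ∀ P ∈ Ps, ∃ L₀ ∈ Qs, ∃ Ls : List (Lang A), (∀ K ∈ Ls, K ∈ Qs) ∧
      P = catList L₀ Ls ∧ Ls.length + 1 ≤ m := by
    intro P hP
    rcases List.mem_append.1 hP with hP | hP
    · obtain ⟨L₀, hL₀, Ks, hKs, hPe, hlen⟩ := hfac P hP
      exact ⟨L₀, List.mem_append.2 (Or.inl hL₀), Ks,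
        fun K hK => List.mem_append.2 (Or.inl (hKs K hK)), hPe, hlen⟩
    · exact ⟨P, hP, [], by simp, rfl, by simpa using hm⟩
  have hPrec : ∀ P ∈ Ps, Rec P := by
    intro P hP
    rcases List.mem_append.1 hP with hP | hP
    · exact rec_B (MonCl_sub_B (hPs0 P hP))
    · exact rec_B (hQs P hP)
  -- the loops of level n
  have hex : ∀ τ : List A, τ ∈ G → τ.length = 2 * ρ →
      ∃ E, Walk f τ ρ ρ E ∧ (∀ L ∈ Qs, SynEq L E (E ++ E)) ∧
        ∀ w ∈ G, ∀ k k', Occ w k τ → Occ w k' τ →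
          ∃ T, Walk f w (k + ρ) (k' + ρ) T ∧ ∀ L ∈ Qs, SynEq L E (E ++ T ++ E) :=
    fun τ hτ hτl => hS f Qs hQs τ hτ hτl
  choose! E hEw hEi hET using hex
  have hJ : ∀ τ ∈ G, τ.length = 2 * ρ → ∀ w ∈ G, ∀ k k', Occ w k τ → Occ w k' τ →
      ∃ Z, Walk f w (k + ρ) (k' + ρ) Z ∧
        Below Ps (pw (E τ) m) (pw (E τ) m ++ Z ++ pw (E τ) m) := by
    intro τ hτ hτl w hw k k' hk hk'
    obtain ⟨T, hT, hTE⟩ := hET τ hτ hτl w hw k k' hk hk'
    exact ⟨T, hT, jump (E τ) T Qs Ps m hPfac (hEi τ hτ hτl) hTE⟩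
  -- the generic loop
  have hcl : Λ.length = 2 * (R + ρ + 1) := hΛl
  obtain ⟨q, hqH, hq⟩ := exists_generic Ps hPrec {x | Walk f Λ (R + ρ + 1) (R + ρ + 1) x}
    ⟨[], Walk.nil _ (by omega)⟩ (fun x hx y hy => Walk.append hx hy)
  have hqw : Walk f Λ (R + ρ + 1) (R + ρ + 1) q := hqH
  have hqq : ∀ P ∈ Ps, SynEq P q (q ++ q) := by
    intro P hP
    have := hq [] (Walk.nil _ (by omega)) P hP
    simpa using this
  refine ⟨q, hqw, fun L hL => hctrl L hL _ _ fun P hP =>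
    hqq P (List.mem_append.2 (Or.inl hP)), ?_⟩
  intro w hw k k' hk hk'
  -- the central factor
  obtain ⟨τ, hτocc, hτl⟩ := exists_occ (w := Λ) (k := R + 1) (n := 2 * ρ) (by omega)
  have hτG : τ ∈ G := hG.factor Λ hΛ τ hτocc.isInf
  have hwk : Occ w (k + (R + 1)) τ := hk.trans hτocc
  have hwk' : Occ w (k' + (R + 1)) τ := hk'.trans hτocc
  obtain ⟨u', T0, Y0, hu', hT0, hY0, hB0⟩ := slow (m := m) hG.factor hEw hJ hΛ hw
    (fun σ hσ hσl => hR Λ hΛ (by omega) σ hσ (by omega)) hτl hτl hwk hτocc hwk'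
  obtain ⟨Z, hZ, hBZ⟩ := hJ τ hτG hτl Λ hΛ u' (R + 1) hu' hτocc
  set T1 := T0 ++ pw (E τ) m with hT1
  set Y1 := Y0 ++ (pw (E τ) m ++ Z ++ pw (E τ) m) with hY1
  have hT1w : Walk f w (k + (R + ρ + 1)) (k' + (R + ρ + 1)) T1 := by
    have h1 : Walk f w (k' + (R + 1) + ρ) (k' + (R + 1) + ρ) (pw (E τ) m) :=
      ((hEw τ hτG hτl).pw m).embed hwk'
    have h2 := hT0.append h1
    have e1 : k + (R + 1) + ρ = k + (R + ρ + 1) := by omega
    have e2 : k' + (R + 1) + ρ = k' + (R + ρ + 1) := by omega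
    rwa [e1, e2] at h2
  have hY1w : Walk f Λ (R + ρ + 1) (R + ρ + 1) Y1 := by
    have h1 : Walk f Λ (u' + ρ) (u' + ρ) (pw (E τ) m) :=
      ((hEw τ hτG hτl).pw m).embed hu'
    have h2 : Walk f Λ (R + 1 + ρ) (R + 1 + ρ) (pw (E τ) m) :=
      ((hEw τ hτG hτl).pw m).embed hτocc
    have h3 := hY0.append ((h1.append hZ).append h2)
    have e1 : R + 1 + ρ = R + ρ + 1 := by omega
    rwa [e1] at h3
  have hB1 : Below Ps T1 Y1 := hB0.app hBZ
  have hQeq : ∀ Q ∈ Qs, SynEq Q T1 Y1 := by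
    intro Q hQ s t
    constructor
    · exact hB1 Q (hQP Q hQ) s t
    · intro hy
      by_contra hx
      exact hB1 Qᶜ (hQP _ (hQc Q hQ)) s t hx hy
  have hqT1 : ∀ Q ∈ Qs, SynEq Q q (q ++ T1 ++ q) := by
    intro Q hQ
    exact (hq Y1 hY1w Q (hQP Q hQ)).trans (((hQeq Q hQ).symm.left q).right q)
  have hjump := jump q T1 Qs Ps m hPfac (fun Q hQ => hqq Q (hQP Q hQ)) hqT1
  refine ⟨pw q m ++ T1 ++ pw q m, ?_, ?_⟩
  · have h1 : Walk f w (k + (R + ρ + 1)) (k + (R + ρ + 1)) (pw q m) := (hqw.pw m).embed hk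
    have h2 : Walk f w (k' + (R + ρ + 1)) (k' + (R + ρ + 1)) (pw q m) := (hqw.pw m).embed hk'
    exact (h1.append hT1w).append h2
  · intro L hL
    refine hctrl L hL _ _ fun P hP0 => ?_
    have hP : P ∈ Ps := List.mem_append.2 (Or.inl hP0)
    have hpw : SynEq P q (pw q m) := (hqq P hP).pw hm
    have hTq : SynEq P q (pw q m ++ T1 ++ pw q m) := by
      intro s t
      constructor
      · intro hx
        exact hjump P hP s t ((hpw s t).1 hx)
      · intro hx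
        have h1 : Below Ps (pw q m ++ T1 ++ pw q m) (pw q m ++ Y1 ++ pw q m) :=
          ((Below.refl Ps _).app hB1).app (Below.refl Ps _)
        have h2 := h1 P hP s t hx
        have h3 : SynEq P (pw q m ++ Y1 ++ pw q m) q := by
          have h4 : SynEq P (pw q m ++ Y1 ++ pw q m) (q ++ Y1 ++ q) :=
            (hpw.symm.right Y1).app hpw.symm
          exact h4.trans (hq Y1 hY1w P hP).symm
        exact (h3 s t).1 h2
    have h5 : SynEq P q (q ++ q ++ q) := (hqq P hP).trans ((hqq P hP).right q)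
    exact h5.trans ((hTq.left q).right q)

end Pool.Agent.DD
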