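import Pool.Agent.DD.Defs

/-!
# DD-Walk: basic facts on walks (all short inductions)
-/

namespace Pool.Agent.DD

variable {A : Type} {f : A → List A}

theorem Walk.le_left {w : List A} {i j : ℕ} {u : List A} (h : Walk f w i j u) :
    i ≤ w.length := by
  cases h with
  | nil _ h => exact h
  | fwd a ha _ =>
      obtain ⟨h1, _⟩ := List.getElem?_eq_some_iff.1 ha
      exact h1.le
  | bwd a ha _ =>
      obtain ⟨h1, _⟩ := List.getElem?_eq_some_iff.1 ha
      exact h1

theorem Walk.le_right {w : List A} {i j : ℕ} {u : List A} (h : Walk f w i j u) :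
    j ≤ w.length := by
  induction h with
  | nil _ h => exact h
  | fwd a ha _ ih => exact ih
  | bwd a ha _ ih => exact ih

theorem Walk.append {w : List A} {i j k : ℕ} {u v : List A} (h : Walk f w i j u)
    (h' : Walk f w j k v) : Walk f w i k (u ++ v) := by
  induction h with
  | nil _ h => exact h'
  | fwd a ha _ ih => exact Walk.fwd a ha (ih h')
  | bwd a ha _ ih =>
      rw [List.append_assoc]
      exact Walk.bwd a ha (ih h')

theorem Walk.pw {w : List A} {i : ℕ} {u : List A} (h : Walk f w i i u) (m : ℕ) :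
    Walk f w i i (DD.pw u m) := by
  induction m with
  | zero => exact Walk.nil i h.le_left
  | succ m ih =>
      rw [pw_succ]
      exact h.append ih

/-- A walk on a factor is a walk on the whole word. -/
theorem Walk.embed {x w : List A} {k i j : ℕ} {u : List A} (hx : Occ w k x)
    (h : Walk f x i j u) : Walk f w (k + i) (k + j) u := by
  obtain ⟨α, β, rfl, rfl⟩ := hx
  have key : ∀ (i : ℕ) (a : A), x[i]? = some a → (α ++ x ++ β)[α.length + i]? = some a := by
    intro i a ha
    obtain ⟨h1, _⟩ := List.getElem?_eq_some_iff.1 ha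
    rw [List.append_assoc, List.getElem?_append_right (by omega), Nat.add_sub_cancel_left,
      List.getElem?_append_left h1]
    exact ha
  induction h with
  | nil i h =>
      refine Walk.nil _ ?_
      simp only [List.length_append]
      omega
  | fwd a ha _ ih => exact Walk.fwd a (key _ _ ha) ih
  | bwd a ha _ ih => exact Walk.bwd a (key _ _ ha) ih

private theorem walk_up (f : A → List A) {w : List A} (n : ℕ) :
    ∀ i, i + n ≤ w.length → ∃ u, Walk f w i (i + n) u := by
  induction n with
  | zero => exact fun i hi => ⟨[], Walk.nil i hi⟩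
  | succ n ih =>
      intro i hi
      have h1 : w[i]? = some (w[i]'(by omega)) := List.getElem?_eq_getElem (by omega)
      obtain ⟨u, hu⟩ := ih (i + 1) (by omega)
      refine ⟨_ :: u, Walk.fwd _ h1 ?_⟩
      rw [show i + (n + 1) = i + 1 + n by omega]
      exact hu

private theorem walk_down (f : A → List A) {w : List A} (n : ℕ) :
    ∀ j, j + n ≤ w.length → ∃ u, Walk f w (j + n) j u := by
  induction n with
  | zero => exact fun i hi => ⟨[], Walk.nil i hi⟩
  | succ n ih =>
      intro j hj
      have h1 : w[j + n]? = some (w[j + n]'(by omega)) := List.getElem?_eq_getElem (by omega)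
      obtain ⟨u, hu⟩ := ih j (by omega)
      exact ⟨_ ++ u, Walk.bwd _ h1 hu⟩

/-- Any two positions are connected by a walk. -/
theorem exists_walk (f : A → List A) {w : List A} {i j : ℕ} (hi : i ≤ w.length)
    (hj : j ≤ w.length) : ∃ u, Walk f w i j u := by
  rcases Nat.le_total i j with h | h
  · obtain ⟨n, rfl⟩ := Nat.exists_eq_add_of_le h
    exact walk_up f n i hj
  · obtain ⟨n, rfl⟩ := Nat.exists_eq_add_of_le h
    exact walk_down f n j hi

/-- One step forward. -/
theorem Walk.one_fwd {w : List A} {i : ℕ} {a : A} (h : w[i]? = some a) :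
    Walk f w i (i + 1) [a] := by
  obtain ⟨h1, _⟩ := List.getElem?_eq_some_iff.1 h
  exact Walk.fwd a h (Walk.nil _ h1)

/-- One step backward. -/
theorem Walk.one_bwd {w : List A} {i : ℕ} {a : A} (h : w[i]? = some a) :
    Walk f w (i + 1) i (f a) := by
  obtain ⟨h1, _⟩ := List.getElem?_eq_some_iff.1 h
  have := Walk.bwd (f := f) a h (Walk.nil i h1.le)
  simpa using this

/-- Occurrences and infixes. -/
theorem exists_occ_of_infix {x w : List A} (h : x <:+: w) : ∃ k, Occ w k x := by
  obtain ⟨s, t, h⟩ := h
  exact ⟨s.length, s, t, h.symm, rfl⟩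

theorem Occ.isInf {x w : List A} {k : ℕ} (h : Occ w k x) : x <:+: w := by
  obtain ⟨s, t, h, _⟩ := h
  exact ⟨s, t, h.symm⟩

theorem Occ.le {x w : List A} {k : ℕ} (h : Occ w k x) : k + x.length ≤ w.length := by
  obtain ⟨s, t, rfl, rfl⟩ := h
  simp only [List.length_append]
  omega

theorem Occ.trans {x y w : List A} {k l : ℕ} (h : Occ w k y) (h' : Occ y l x) :
    Occ w (k + l) x := by
  obtain ⟨s, t, rfl, rfl⟩ := h
  obtain ⟨s', t', rfl, rfl⟩ := h'
  refine ⟨s ++ s', t' ++ t, ?_, ?_⟩
  · simp only [List.append_assoc]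
  · simp only [List.length_append]

/-- The factor of length `n` at position `k`. -/
theorem exists_occ {w : List A} {k n : ℕ} (h : k + n ≤ w.length) :
    ∃ x, Occ w k x ∧ x.length = n := by
  refine ⟨(w.drop k).take n, ⟨w.take k, (w.drop k).drop n, ?_, ?_⟩, ?_⟩
  · rw [List.append_assoc, List.take_append_drop, List.take_append_drop]
  · rw [List.length_take]
    omega
  · rw [List.length_take, List.length_drop]
    omega

theorem Occ.unique {w x y : List A} {k : ℕ} (h : Occ w k x) (h' : Occ w k y)
    (hl : x.length = y.length) : x = y := by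
  obtain ⟨s, t, hw, hs⟩ := h
  obtain ⟨s', t', hw', hs'⟩ := h'
  have h1 : s ++ (x ++ t) = s' ++ (y ++ t') := by
    rw [← List.append_assoc, ← List.append_assoc, ← hw, ← hw']
  obtain ⟨_, h2⟩ := List.append_inj h1 (hs.trans hs'.symm)
  exact (List.append_inj h2 hl).1

theorem Occ.getElem? {x w : List A} {k i : ℕ} (h : Occ w k x) (hi : i < x.length) :
    w[k + i]? = x[i]? := by
  obtain ⟨α, β, rfl, rfl⟩ := h
  rw [List.append_assoc, List.getElem?_append_right (by omega), Nat.add_sub_cancel_left,
      List.getElem?_append_left hi]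

/-- A word of length `n + 1` at position `k` restricts to its prefix of length `n` at `k` and to
its suffix of length `n` at `k + 1`. -/
theorem Occ.split {σ w : List A} {k n : ℕ} (h : Occ w k σ) (hn : σ.length = n + 1) :
    ∃ x y, x.length = n ∧ y.length = n ∧ Occ σ 0 x ∧ Occ σ 1 y ∧ Occ w k x ∧
      Occ w (k + 1) y := by
  obtain ⟨x, hx, hxl⟩ := exists_occ (w := σ) (k := 0) (n := n) (by omega)
  obtain ⟨y, hy, hyl⟩ := exists_occ (w := σ) (k := 1) (n := n) (by omega)
  exact ⟨x, y, hxl, hyl, hx, hy, h.trans hx, h.trans hy⟩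

end Pool.Agent.DD
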