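import Pool.Agent.DD.Defs

/-!
# DD-ZigComb: a non-monotone path contains a zigzag (pure combinatorics of Bool lists)

A list `l` of Booleans is a lattice path (`true` = step up, `false` = step down).  If the path
starts at height `0`, ends at its maximal height `n`, stays in `[0, n]`, and contains a down step,
then it contains a contiguous zigzag `b^r (!b)^r b^r` with `r ≥ 1`.

Plan (minimal run).  A run of `l`: `l = l1 ++ replicate k b ++ l2`, `k ≥ 1`, `l1` does not end with
`b`, `l2` does not start with `b`.  Take a run of minimal length `k` (`Nat.find`; every nonempty list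
has a run; every nonempty `l1` not ending with `b` ends with a run of `!b` of `l`, whose length is
`≥ k`; same for `l2`).
* `l1 ≠ []` and `l2 ≠ []`: the two neighbouring runs have length `≥ k`: zigzag
  `(!b)^k b^k (!b)^k`.
* `l1 = []`: the first step is up (`b = true`, heights are `≥ 0`), `l2 ≠ []` as `l` contains
  `false`; the second run `false^k2` has `k2 ≤ k` (heights `≥ 0`), so `k2 = k`; it is not the last
  run, because the path ends at its maximum (if `l` ended with `false`, the height before the last
  step would be `n + 1`); hence the zigzag `true^k false^k true^k`.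
* `l2 = []`: symmetric: the last run consists of `true` (as just seen), the run before it is
  `false^k2`, starting at height `n - k + k2 ≤ n`, so `k2 ≤ k`, `k2 = k`; it is not the first run.
-/

namespace Pool.Agent.DD

/-- Height of a path. -/
def ht : List Bool → ℤ
  | [] => 0
  | true :: l => 1 + ht l
  | false :: l => -1 + ht l

theorem ht_append (l l' : List Bool) : ht (l ++ l') = ht l + ht l' := by
  induction l with
  | nil => simp [ht]
  | cons b l ih =>
    cases b <;> simp only [List.cons_append, ht, ih] <;> ring

theorem ht_replicate_true (r : ℕ) : ht (List.replicate r true) = r := by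
  induction r with
  | zero => simp [ht]
  | succ r ih =>
    rw [List.replicate_succ, ht, ih]
    push_cast
    ring

theorem ht_replicate_false (r : ℕ) : ht (List.replicate r false) = -r := by
  induction r with
  | zero => simp [ht]
  | succ r ih =>
    rw [List.replicate_succ, ht, ih]
    push_cast
    ring

/-- A maximal run of equal letters. -/
private def IsRun (l l1 : List Bool) (k : ℕ) (b : Bool) (l2 : List Bool) : Prop :=
  1 ≤ k ∧ l = l1 ++ List.replicate k b ++ l2 ∧ l1.getLast? ≠ some b ∧ l2.head? ≠ some b

private theorem head_run (m : List Bool) (c : Bool) (h : m.head? = some c) :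
    ∃ k m2, 1 ≤ k ∧ m = List.replicate k c ++ m2 ∧ m2.head? ≠ some c := by
  induction m with
  | nil => simp at h
  | cons a t ih =>
    have ha : a = c := by simpa using h
    subst ha
    by_cases ht : t.head? = some a
    · obtain ⟨k, m2, hk, h1, h2⟩ := ih ht
      exact ⟨k + 1, m2, by omega, by rw [List.replicate_succ, List.cons_append, ← h1], h2⟩
    · exact ⟨1, t, le_refl 1, by simp, ht⟩

private theorem last_run (m : List Bool) (c : Bool) (h : m.getLast? = some c) :
    ∃ k m1, 1 ≤ k ∧ m = m1 ++ List.replicate k c ∧ m1.getLast? ≠ some c := by
  obtain ⟨k, m2, hk, h1, h2⟩ := head_run m.reverse c (by rw [List.head?_reverse, h])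
  refine ⟨k, m2.reverse, hk, ?_, ?_⟩
  · have h3 := congrArg List.reverse h1
    rw [List.reverse_reverse, List.reverse_append, List.reverse_replicate] at h3
    exact h3
  · rw [List.getLast?_reverse]
    exact h2

private theorem head_not {l : List Bool} {b : Bool} (h : l ≠ []) (hb : l.head? ≠ some b) :
    l.head? = some (!b) := by
  cases l with
  | nil => exact absurd rfl h
  | cons a t =>
    have : a ≠ b := by simpa using hb
    simp only [List.head?_cons, Option.some.injEq]
    cases a <;> cases b <;> simp_all

private theorem last_not {l : List Bool} {b : Bool} (h : l ≠ []) (hb : l.getLast? ≠ some b) :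
    l.getLast? = some (!b) := by
  have h1 := head_not (l := l.reverse) (b := b) (by simpa using h)
    (by rw [List.head?_reverse]; exact hb)
  rwa [List.head?_reverse] at h1

private theorem head_rep {k : ℕ} (hk : 1 ≤ k) (b : Bool) (l : List Bool) :
    (List.replicate k b ++ l).head? = some b := by
  obtain ⟨j, rfl⟩ := Nat.exists_eq_add_of_le' hk
  rw [List.replicate_succ]
  rfl

private theorem last_rep {k : ℕ} (hk : 1 ≤ k) (b : Bool) (l : List Bool) :
    (l ++ List.replicate k b).getLast? = some b := by
  obtain ⟨j, rfl⟩ := Nat.exists_eq_add_of_le' hk
  rw [List.replicate_succ', ← List.append_assoc, List.getLast?_append]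
  simp

/-- the run after a run -/
private theorem next_run {l l1 l2 : List Bool} {k : ℕ} {b : Bool} (h : IsRun l l1 k b l2)
    (h2 : l2 ≠ []) : ∃ k' l3, l2 = List.replicate k' (!b) ++ l3 ∧
      IsRun l (l1 ++ List.replicate k b) k' (!b) l3 := by
  obtain ⟨hk, hl, hf, hs⟩ := h
  obtain ⟨k', l3, hk', e, h3⟩ := head_run l2 (!b) (head_not h2 hs)
  refine ⟨k', l3, e, hk', ?_, ?_, h3⟩
  · rw [hl, e]
    simp only [List.append_assoc]
  · rw [last_rep hk]
    cases b <;> simp

/-- the run before a run -/
private theorem prev_run {l l1 l2 : List Bool} {k : ℕ} {b : Bool} (h : IsRun l l1 k b l2)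
    (h1 : l1 ≠ []) : ∃ k' l0, l1 = l0 ++ List.replicate k' (!b) ∧
      IsRun l l0 k' (!b) (List.replicate k b ++ l2) := by
  obtain ⟨hk, hl, hf, hs⟩ := h
  obtain ⟨k', l0, hk', e, h3⟩ := last_run l1 (!b) (last_not h1 hf)
  refine ⟨k', l0, e, hk', ?_, h3, ?_⟩
  · rw [hl, e]
    simp only [List.append_assoc]
  · rw [head_rep hk]
    cases b <;> simp

private theorem rep_split {k k' : ℕ} (h : k ≤ k') (b : Bool) :
    List.replicate k' b = List.replicate k b ++ List.replicate (k' - k) b := by
  rw [← List.replicate_add]
  congr 1
  omega

private theorem rep_split' {k k' : ℕ} (h : k ≤ k') (b : Bool) :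
    List.replicate k' b = List.replicate (k' - k) b ++ List.replicate k b := by
  rw [← List.replicate_add]
  congr 1
  omega

/-- Main result of this module. -/
theorem exists_zigzag (l : List Bool) (n : ℕ)
    (hpre : ∀ p, p <+: l → 0 ≤ ht p ∧ ht p ≤ n) (hend : ht l = n) (hf : false ∈ l) :
    ∃ (l1 l2 : List Bool) (b : Bool) (r : ℕ), 1 ≤ r ∧
      l = l1 ++ List.replicate r b ++ List.replicate r (!b) ++ List.replicate r b ++ l2 := by
  classical
  have hne : l ≠ [] := by
    rintro rfl
    simp at hf
  have hex : ∃ k, ∃ l1 b l2, IsRun l l1 k b l2 := by
    cases l with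
    | nil => exact absurd rfl hne
    | cons a t =>
      obtain ⟨k, m2, hk, h1, h2⟩ := head_run (a :: t) a rfl
      exact ⟨k, [], a, m2, hk, by simpa using h1, by simp, h2⟩
  obtain ⟨l1, b, l2, hrun⟩ := Nat.find_spec hex
  have hmin : ∀ {k' : ℕ} {m1 : List Bool} {c : Bool} {m2 : List Bool}, IsRun l m1 k' c m2 →
      Nat.find hex ≤ k' := fun h => Nat.find_min' hex ⟨_, _, _, h⟩
  generalize Nat.find hex = k at hrun hmin
  obtain ⟨hk, hl, hr1, hr2⟩ := id hrun
  by_cases h1 : l1 = []
  · -- the first run
    subst h1
    rw [List.nil_append] at hl
    have hb : b = true := by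
      cases b with
      | true => rfl
      | false =>
        have hp : List.replicate 1 false <+: l := by
          rw [hl, rep_split hk, List.append_assoc]
          exact List.prefix_append _ _
        have := (hpre _ hp).1
        rw [ht_replicate_false] at this
        norm_num at this
    subst hb
    have h2 : l2 ≠ [] := by
      rintro rfl
      rw [hl, List.append_nil] at hf
      have := List.eq_of_mem_replicate hf
      simp at this
    obtain ⟨k2, l3, e2, hrun2⟩ := next_run hrun h2
    have hk2 := hmin hrun2
    have e3 : l = List.replicate k true ++ List.replicate k2 false ++ l3 := by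
      rw [hl, e2]
      simp only [Bool.not_true, List.append_assoc]
    have hk2' : k2 ≤ k := by
      have hp : List.replicate k true ++ List.replicate k2 false <+: l := by
        rw [e3]
        exact List.prefix_append _ _
      have := (hpre _ hp).1
      rw [ht_append, ht_replicate_true, ht_replicate_false] at this
      omega
    have hkk : k2 = k := le_antisymm hk2' hk2
    subst hkk
    have h3 : l3 ≠ [] := by
      rintro rfl
      have hn : (0 : ℤ) = n := by
        rw [← hend, e3, List.append_nil, ht_append, ht_replicate_true, ht_replicate_false]
        ring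
      have hp : List.replicate k2 true <+: l := by
        rw [e3, List.append_assoc]
        exact List.prefix_append _ _
      have := (hpre _ hp).2
      rw [ht_replicate_true, ← hn] at this
      omega
    obtain ⟨k3, l4, e4, hrun3⟩ := next_run hrun2 h3
    have hk3 := hmin hrun3
    refine ⟨[], List.replicate (k3 - k2) true ++ l4, true, k2, hk, ?_⟩
    have e5 : l3 = List.replicate k2 true ++ List.replicate (k3 - k2) true ++ l4 := by
      rw [← rep_split hk3, e4]
      rfl
    rw [e3, e5]
    simp only [Bool.not_true, List.append_assoc, List.nil_append]
  · by_cases h2 : l2 = []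
    · -- the last run
      subst h2
      rw [List.append_nil] at hl
      have hb : b = true := by
        cases b with
        | true => rfl
        | false =>
          have hl' : l = (l1 ++ List.replicate (k - 1) false) ++ List.replicate 1 false := by
            rw [hl, rep_split' hk, List.append_assoc]
          have hp : l1 ++ List.replicate (k - 1) false <+: l := by
            conv_rhs => rw [hl']
            exact List.prefix_append _ _
          have h3 := (hpre _ hp).2
          have h4 : ht l = ht (l1 ++ List.replicate (k - 1) false) + ht (List.replicate 1 false) := by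
            conv_lhs => rw [hl']
            rw [ht_append]
          rw [hend, ht_replicate_false] at h4
          push_cast at h4
          omega
      subst hb
      obtain ⟨k2, l0, e2, hrun2⟩ := prev_run hrun h1
      have hk2 := hmin hrun2
      have e3 : l = l0 ++ List.replicate k2 false ++ List.replicate k true := by
        rw [hl, e2]
        rfl
      have hht : (n : ℤ) = ht l0 - k2 + k := by
        rw [← hend, e3, ht_append, ht_append, ht_replicate_true, ht_replicate_false]
        ring
      have hk2' : k2 ≤ k := by
        have hp : l0 <+: l := by
          rw [e3, List.append_assoc]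
          exact List.prefix_append _ _
        have := (hpre _ hp).2
        omega
      have hkk : k2 = k := le_antisymm hk2' hk2
      subst hkk
      have h0 : l0 ≠ [] := by
        rintro rfl
        have hp : List.replicate 1 false <+: l := by
          rw [e3, List.nil_append, rep_split hk, List.append_assoc]
          exact List.prefix_append _ _
        have := (hpre _ hp).1
        rw [ht_replicate_false] at this
        norm_num at this
      obtain ⟨k3, l00, e4, hrun3⟩ := prev_run hrun2 h0
      have hk3 := hmin hrun3
      refine ⟨l00 ++ List.replicate (k3 - k2) true, [], true, k2, hk, ?_⟩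
      have e5 : l0 = l00 ++ List.replicate (k3 - k2) true ++ List.replicate k2 true := by
        rw [List.append_assoc, ← rep_split' hk3, e4]
        rfl
      rw [e3, e5]
      simp only [Bool.not_true, List.append_nil]
    · -- a run in the middle
      obtain ⟨k2, l0, e2, hrun2⟩ := prev_run hrun h1
      obtain ⟨k3, l3, e3, hrun3⟩ := next_run hrun h2
      have hk2 := hmin hrun2
      have hk3 := hmin hrun3
      refine ⟨l0 ++ List.replicate (k2 - k) (!b), List.replicate (k3 - k) (!b) ++ l3, !b, k, hk, ?_⟩
      rw [hl, e2, e3, rep_split' hk2, rep_split hk3]
      simp only [Bool.not_not, List.append_assoc]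

end Pool.Agent.DD
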